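import Pool.Agent.H486.QM.Eig
import Pool.Agent.H486.QM.Loc

/-!
# Ladder of derivatives of a real planar monochromatic wave
-/

set_option autoImplicit false

open MeasureTheory Complex Filter Topology Set Metric
open scoped ContDiff ComplexConjugate ENNReal Laplacian

namespace Pool.Agent.H486.RF

open Pool.Agent.H486.QM

noncomputable section

/-- ladder of derivatives of a real function -/
def Y (f : ℂ → ℝ) (k : ℤ) (z : ℂ) : ℂ :=
  if 0 ≤ k then 2 ^ k.natAbs * dz^[k.natAbs] (fun z => (f z : ℂ)) z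
  else (-1) ^ k.natAbs * conj (2 ^ k.natAbs * dz^[k.natAbs] (fun z => (f z : ℂ)) z)

theorem fderiv_dz {F : ℂ → ℂ} (w h : ℂ) :
    fderiv ℝ F w h = h * dz F w + conj h * dzb F w := by
  have e : h = (h.re : ℝ) • (1 : ℂ) + (h.im : ℝ) • I := by
    simp [Complex.re_add_im]
  have e1 : fderiv ℝ F w h = (h.re : ℂ) * fderiv ℝ F w 1 + (h.im : ℂ) * fderiv ℝ F w I := by
    conv_lhs => rw [e, map_add, map_smul, map_smul]
    simp [Complex.real_smul]
  rw [e1, dz, dzb]
  have h2 : conj h = (h.re : ℂ) - h.im * I := by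
    apply Complex.ext <;> simp
  have h3 : h = (h.re : ℂ) + h.im * I := (Complex.re_add_im h).symm
  rw [h2]
  conv_rhs => rw [h3]
  simp only [Complex.add_re, Complex.ofReal_re, Complex.mul_re, Complex.ofReal_im, Complex.I_re,
    Complex.I_im, Complex.add_im, Complex.mul_im]
  ring_nf
  rw [I_sq]
  ring

section wave

variable {f : ℂ → ℝ}

theorem Y_nat (n : ℕ) (z : ℂ) : Y f (n : ℤ) z = 2 ^ n * dz^[n] (fun z => (f z : ℂ)) z := by
  rw [Y, if_pos (by positivity), Int.natAbs_natCast]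

theorem Y_neg (n : ℕ) (z : ℂ) : Y f (-(n : ℤ)) z =
    (-1) ^ n * conj (2 ^ n * dz^[n] (fun z => (f z : ℂ)) z) := by
  rcases Nat.eq_zero_or_pos n with h | h
  · subst h
    simp [Y]
  · rw [Y, if_neg (by omega), Int.natAbs_neg, Int.natAbs_natCast]

theorem Y_cj (k : ℤ) (z : ℂ) : conj (Y f k z) = (-1) ^ k.natAbs * Y f (-k) z := by
  obtain ⟨n, rfl | rfl⟩ := k.eq_nat_or_neg
  · rw [Y_nat, Y_neg, Int.natAbs_natCast, ← mul_assoc, ← mul_pow]
    norm_num
  · rw [neg_neg, Y_nat, Y_neg, Int.natAbs_neg, Int.natAbs_natCast, map_mul, map_pow, map_neg,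
      map_one, Complex.conj_conj]

theorem smY (hf : ContDiff ℝ ∞ f) (k : ℤ) : Sm (Y f k) := by
  have hF : Sm (fun z => (f z : ℂ)) := Complex.ofRealCLM.contDiff.comp hf
  obtain ⟨n, rfl | rfl⟩ := k.eq_nat_or_neg
  · have : Y f (n : ℤ) = fun z => 2 ^ n * dz^[n] (fun z => (f z : ℂ)) z := funext fun z => Y_nat n z
    rw [this]
    exact (hF.iter n).cmul _
  · have : Y f (-(n : ℤ)) = fun z => (-1) ^ n * conj (2 ^ n * dz^[n] (fun z => (f z : ℂ)) z) :=
      funext fun z => Y_neg n z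
    rw [this]
    exact (((hF.iter n).cmul _).cj).cmul _

theorem helm (hf : ContDiff ℝ ∞ f) (he : ∀ z, Δ f z = -f z) (z : ℂ) :
    dz (dzb (fun z => (f z : ℂ))) z = (-(1 / 4)) * (f z : ℂ) := by
  have := dz_dzb_lap hf z
  rw [this, he z]
  push_cast
  ring

theorem Y_succ_nat (hf : ContDiff ℝ ∞ f) (n : ℕ) (z : ℂ) :
    2 * dz (Y f (n : ℤ)) z = Y f ((n : ℤ) + 1) z := by
  have hF : Sm (fun z => (f z : ℂ)) := Complex.ofRealCLM.contDiff.comp hf
  have e : Y f (n : ℤ) = fun z => 2 ^ n * dz^[n] (fun z => (f z : ℂ)) z := funext fun z => Y_nat n z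
  rw [e, dz_cmul _ (hF.iter n)]
  have e2 : ((n : ℤ) + 1) = ((n + 1 : ℕ) : ℤ) := by push_cast; ring
  rw [e2, Y_nat, Function.iterate_succ_apply', pow_succ]
  ring

theorem Y_pred_nat (hf : ContDiff ℝ ∞ f) (he : ∀ z, Δ f z = -f z) (n : ℕ) (z : ℂ) :
    2 * dzb (Y f (n : ℤ)) z = -Y f ((n : ℤ) - 1) z := by
  have hF : Sm (fun z => (f z : ℂ)) := Complex.ofRealCLM.contDiff.comp hf
  have e : Y f (n : ℤ) = fun z => 2 ^ n * dz^[n] (fun z => (f z : ℂ)) z := funext fun z => Y_nat n z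
  rw [e, dzb_cmul _ (hF.iter n)]
  rcases Nat.eq_zero_or_pos n with h | h
  · subst h
    have e1 : ((0 : ℕ) : ℤ) - 1 = -((1 : ℕ) : ℤ) := by norm_num
    rw [e1, Y_neg]
    simp only [pow_zero, one_mul, Function.iterate_zero, id_eq, pow_one, Function.iterate_one,
      map_mul]
    have h2 : conj (2 : ℂ) = 2 := Complex.conj_ofNat 2
    have h3 : (fun z => (f z : ℂ)) = fun z => conj ((f z : ℂ)) := by
      funext z; rw [Complex.conj_ofReal]
    have h4 : dzb (fun z => (f z : ℂ)) z = conj (dz (fun z => (f z : ℂ)) z) := by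
      conv_lhs => rw [h3]
      exact dzb_conj hF z
    rw [h4, h2]
    ring
  · obtain ⟨m, rfl⟩ : ∃ m, n = m + 1 := ⟨n - 1, by omega⟩
    have e1 : (((m + 1 : ℕ) : ℤ)) - 1 = ((m : ℕ) : ℤ) := by push_cast; ring
    rw [e1, Y_nat, dzb_iter hF]
    have e3 : (dz^[m + 1] (dzb fun z => (f z : ℂ))) z = (-(1 / 4)) * dz^[m] (fun z => (f z : ℂ)) z := by
      rw [Function.iterate_succ_apply]
      have : dz (dzb fun z => (f z : ℂ)) = fun z => (-(1 / 4)) * (f z : ℂ) :=
        funext fun z => helm hf he z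
      rw [this, iter_cmul _ hF]
    rw [e3, pow_succ]
    ring

theorem Y_succ (hf : ContDiff ℝ ∞ f) (he : ∀ z, Δ f z = -f z) (k : ℤ) (z : ℂ) :
    2 * dz (Y f k) z = Y f (k + 1) z := by
  obtain ⟨n, rfl | rfl⟩ := k.eq_nat_or_neg
  · exact Y_succ_nat hf n z
  · have e : Y f (-(n : ℤ)) = fun z => (-1) ^ n * conj (Y f (n : ℤ) z) := by
      funext z
      rw [Y_neg, Y_nat]
    rw [e, dz_cmul _ (smY hf _).cj, dz_conj (smY hf _)]
    have h1 := Y_pred_nat hf he n z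
    have h2 : conj (2 * dzb (Y f (n : ℤ)) z) = conj (-Y f ((n : ℤ) - 1) z) := by rw [h1]
    rw [map_mul, map_neg, Y_cj] at h2
    have h3 : conj (2 : ℂ) = 2 := Complex.conj_ofNat 2
    rw [h3] at h2
    have e1 : -(n : ℤ) + 1 = -((n : ℤ) - 1) := by ring
    rw [e1]
    have h5 : (-1 : ℂ) ^ n * (-1) ^ ((n : ℤ) - 1).natAbs = -1 := by
      rcases Nat.eq_zero_or_pos n with h | h
      · subst h; norm_num
      · obtain ⟨m, rfl⟩ : ∃ m, n = m + 1 := ⟨n - 1, by omega⟩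
        have : (((m + 1 : ℕ) : ℤ) - 1).natAbs = m := by omega
        rw [this, pow_succ, mul_right_comm, ← mul_pow]
        norm_num
    calc 2 * ((-1) ^ n * conj (dzb (Y f (n : ℤ)) z)) = (-1) ^ n * (2 * conj (dzb (Y f (n : ℤ)) z)) := by
          ring
      _ = -((-1) ^ n * (-1) ^ ((n : ℤ) - 1).natAbs) * Y f (-((n : ℤ) - 1)) z := by
          rw [h2]; ring
      _ = _ := by rw [h5]; ring

theorem Y_pred (hf : ContDiff ℝ ∞ f) (he : ∀ z, Δ f z = -f z) (k : ℤ) (z : ℂ) :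
    2 * dzb (Y f k) z = -Y f (k - 1) z := by
  obtain ⟨n, rfl | rfl⟩ := k.eq_nat_or_neg
  · exact Y_pred_nat hf he n z
  · have e : Y f (-(n : ℤ)) = fun z => (-1) ^ n * conj (Y f (n : ℤ) z) := by
      funext z
      rw [Y_neg, Y_nat]
    rw [e, dzb_cmul _ (smY hf _).cj, dzb_conj (smY hf _)]
    have h1 := Y_succ_nat hf n z
    have h2 : conj (2 * dz (Y f (n : ℤ)) z) = conj (Y f ((n : ℤ) + 1) z) := by rw [h1]
    rw [map_mul, Y_cj] at h2
    have h3 : conj (2 : ℂ) = 2 := Complex.conj_ofNat 2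
    rw [h3] at h2
    have e1 : -(n : ℤ) - 1 = -((n : ℤ) + 1) := by ring
    rw [e1]
    have h5 : (-1 : ℂ) ^ n * (-1) ^ ((n : ℤ) + 1).natAbs = -1 := by
      have : ((n : ℤ) + 1).natAbs = n + 1 := by omega
      rw [this, pow_succ, ← mul_assoc, ← mul_pow]
      norm_num
    calc 2 * ((-1) ^ n * conj (dz (Y f (n : ℤ)) z)) = (-1) ^ n * (2 * conj (dz (Y f (n : ℤ)) z)) := by
          ring
      _ = ((-1) ^ n * (-1) ^ ((n : ℤ) + 1).natAbs) * Y f (-((n : ℤ) + 1)) z := by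
          rw [h2]; ring
      _ = _ := by rw [h5]; ring

/-- directional derivative of the ladder -/
theorem Y_fderiv (hf : ContDiff ℝ ∞ f) (he : ∀ z, Δ f z = -f z) (k : ℤ) (z h : ℂ) :
    fderiv ℝ (Y f k) z h = h / 2 * Y f (k + 1) z - conj h / 2 * Y f (k - 1) z := by
  rw [fderiv_dz]
  have h1 := Y_succ hf he k z
  have h2 := Y_pred hf he k z
  linear_combination h / 2 * h1 + conj h / 2 * h2

theorem Y_zero (z : ℂ) : Y f 0 z = (f z : ℂ) := by
  simp [Y]

theorem Y_deriv (hf : ContDiff ℝ ∞ f) (he : ∀ z, Δ f z = -f z) (k : ℤ) (z h : ℂ) (t : ℝ) :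
    HasDerivAt (fun t : ℝ => Y f k (z + t * h))
      (h / 2 * Y f (k + 1) (z + t * h) - conj h / 2 * Y f (k - 1) (z + t * h)) t := by
  rw [← Y_fderiv hf he]
  have h1 := ((smY hf k).diff (z + t * h)).hasFDerivAt
  have h2 : HasDerivAt (fun t : ℝ => z + (t : ℂ) * h) h t := by
    have := ((Complex.ofRealCLM.hasDerivAt (x := t)).mul_const h).const_add z
    simpa using this
  exact h1.comp_hasDerivAt t h2

/-- second order Taylor estimate -/
theorem Y_taylor (hf : ContDiff ℝ ∞ f) (he : ∀ z, Δ f z = -f z) (k : ℤ) (z h : ℂ) :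
    ‖Y f k (z + h) - Y f k z - (h / 2 * Y f (k + 1) z - conj h / 2 * Y f (k - 1) z)‖ ≤
      ‖h‖ ^ 2 * ∫ t in (0 : ℝ)..1, (‖Y f (k + 2) (z + t * h)‖ + 2 * ‖Y f k (z + t * h)‖ +
        ‖Y f (k - 2) (z + t * h)‖) := by
  set g : ℝ → ℝ := fun t => ‖Y f (k + 2) (z + t * h)‖ + 2 * ‖Y f k (z + t * h)‖ +
        ‖Y f (k - 2) (z + t * h)‖ with hg
  have hcl : Continuous fun t : ℝ => z + (t : ℂ) * h := by fun_prop
  have hYc : ∀ k, Continuous fun t : ℝ => Y f k (z + t * h) := fun k => (smY hf k).cont.comp hcl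
  have hgc : Continuous g := by
    rw [hg]
    exact (((hYc _).norm.add ((hYc _).norm.const_smul (2 : ℝ))).add (hYc _).norm)
  have hg0 : ∀ t, 0 ≤ g t := fun t => by positivity
  -- bound on the first derivative difference
  set φ1 : ℝ → ℂ := fun t => h / 2 * Y f (k + 1) (z + t * h) - conj h / 2 * Y f (k - 1) (z + t * h)
    with hφ1
  have hn2 : ‖h / 2‖ = ‖h‖ / 2 := by rw [norm_div]; norm_num
  have hn3 : ‖conj h / 2‖ = ‖h‖ / 2 := by
    rw [norm_div, RCLike.norm_conj]; norm_num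
  have hd2 : ∀ t : ℝ, HasDerivAt φ1 (h / 2 * (h / 2 * Y f (k + 1 + 1) (z + t * h) -
      conj h / 2 * Y f (k + 1 - 1) (z + t * h)) - conj h / 2 * (h / 2 * Y f (k - 1 + 1) (z + t * h) -
      conj h / 2 * Y f (k - 1 - 1) (z + t * h))) t := fun t =>
    ((Y_deriv hf he (k + 1) z h t).const_mul _).sub ((Y_deriv hf he (k - 1) z h t).const_mul _)
  have hb2 : ∀ t : ℝ, ‖h / 2 * (h / 2 * Y f (k + 1 + 1) (z + t * h) -
      conj h / 2 * Y f (k + 1 - 1) (z + t * h)) - conj h / 2 * (h / 2 * Y f (k - 1 + 1) (z + t * h) -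
      conj h / 2 * Y f (k - 1 - 1) (z + t * h))‖ ≤ ‖h‖ ^ 2 * g t := by
    intro t
    have e1 : k + 1 + 1 = k + 2 := by ring
    have e2 : k + 1 - 1 = k := by ring
    have e3 : k - 1 + 1 = k := by ring
    have e4 : k - 1 - 1 = k - 2 := by ring
    rw [e1, e2, e3, e4]
    refine (norm_sub_le _ _).trans ?_
    rw [norm_mul, norm_mul, hn2, hn3]
    have a1 := norm_sub_le (h / 2 * Y f (k + 2) (z + t * h)) (conj h / 2 * Y f k (z + t * h))
    have a2 := norm_sub_le (h / 2 * Y f k (z + t * h)) (conj h / 2 * Y f (k - 2) (z + t * h))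
    rw [norm_mul, norm_mul, hn2, hn3] at a1 a2
    have hh : 0 ≤ ‖h‖ / 2 := by positivity
    have b1 := mul_le_mul_of_nonneg_left a1 hh
    have b2 := mul_le_mul_of_nonneg_left a2 hh
    have c1 := norm_nonneg (Y f (k + 2) (z + t * h))
    have c2 := norm_nonneg (Y f k (z + t * h))
    have c3 := norm_nonneg (Y f (k - 2) (z + t * h))
    have c4 : 0 ≤ ‖h‖ ^ 2 := by positivity
    simp only [hg]
    nlinarith [mul_nonneg c4 c1, mul_nonneg c4 c2, mul_nonneg c4 c3]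
  -- primitive
  set Gp : ℝ → ℝ := fun t => ∫ s in (0 : ℝ)..t, g s with hGp
  have hGd : ∀ t, HasDerivAt Gp (g t) t := fun t =>
    intervalIntegral.integral_hasDerivAt_right (hgc.intervalIntegrable _ _)
      (hgc.stronglyMeasurableAtFilter _ _) hgc.continuousAt
  have hG0 : Gp 0 = 0 := by simp [hGp]
  have hGmono : ∀ t ∈ Icc (0 : ℝ) 1, Gp t ≤ Gp 1 := by
    intro t ht
    have : Gp 1 = Gp t + ∫ s in t..1, g s :=
      (intervalIntegral.integral_add_adjacent_intervals (hgc.intervalIntegrable _ _)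
        (hgc.intervalIntegrable _ _)).symm
    rw [this]
    have := intervalIntegral.integral_nonneg (μ := volume) ht.2 (fun s _ => hg0 s)
    linarith
  have step1 : ∀ t ∈ Icc (0 : ℝ) 1, ‖φ1 t - φ1 0‖ ≤ ‖h‖ ^ 2 * Gp t := by
    intro t ht
    refine image_norm_le_of_norm_deriv_right_le_deriv_boundary' (a := 0) (b := 1)
      (f := fun t => φ1 t - φ1 0) (B := fun t => ‖h‖ ^ 2 * Gp t) (B' := fun t => ‖h‖ ^ 2 * g t)
      (f' := fun t : ℝ => h / 2 * (h / 2 * Y f (k + 1 + 1) (z + t * h) -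
        conj h / 2 * Y f (k + 1 - 1) (z + t * h)) - conj h / 2 * (h / 2 * Y f (k - 1 + 1) (z + t * h) -
        conj h / 2 * Y f (k - 1 - 1) (z + t * h))) ?_ ?_ ?_ ?_ ?_ ?_ ht
    · exact fun t _ => ((hd2 t).sub_const _).continuousAt.continuousWithinAt
    · exact fun t _ => ((hd2 t).sub_const _).hasDerivWithinAt
    · simp [hG0]
    · exact fun t _ => ((hGd t).const_mul _).continuousAt.continuousWithinAt
    · exact fun t _ => ((hGd t).const_mul _).hasDerivWithinAt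
    · exact fun t _ => hb2 t
  set φ : ℝ → ℂ := fun t => Y f k (z + t * h) with hφ
  have step2 : ‖φ 1 - φ 0 - ((1 : ℝ) : ℂ) * φ1 0‖ ≤ ‖h‖ ^ 2 * Gp 1 * 1 := by
    refine image_norm_le_of_norm_deriv_right_le_deriv_boundary' (a := 0) (b := 1)
      (f := fun t : ℝ => φ t - φ 0 - (t : ℂ) * φ1 0) (B := fun t => ‖h‖ ^ 2 * Gp 1 * t)
      (B' := fun _ => ‖h‖ ^ 2 * Gp 1 * 1)
      (f' := fun t : ℝ => φ1 t - ((1 : ℝ) : ℂ) * φ1 0) ?_ ?_ ?_ ?_ ?_ ?_ (right_mem_Icc.2 zero_le_one)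
    · refine fun t _ => ContinuousAt.continuousWithinAt ?_
      exact (((Y_deriv hf he k z h t).sub_const _).sub
        ((Complex.ofRealCLM.hasDerivAt (x := t)).mul_const (φ1 0))).continuousAt
    · refine fun t _ => HasDerivAt.hasDerivWithinAt ?_
      exact ((Y_deriv hf he k z h t).sub_const _).sub
        ((Complex.ofRealCLM.hasDerivAt (x := t)).mul_const (φ1 0))
    · simp
    · exact fun t _ => ((hasDerivAt_id t).const_mul _).continuousAt.continuousWithinAt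
    · exact fun t _ => ((hasDerivAt_id t).const_mul _).hasDerivWithinAt
    · intro t ht
      rw [ofReal_one, one_mul, mul_one]
      have ht' : t ∈ Icc (0 : ℝ) 1 := ⟨ht.1, ht.2.le⟩
      refine (step1 t ht').trans ?_
      exact mul_le_mul_of_nonneg_left (hGmono t ht') (by positivity)
  simpa [hφ, hφ1] using step2

end wave

end

end Pool.Agent.H486.RF
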