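import Pool.Agent.H486.RF.Basic

/-!
# Stationary calculus in mean square
-/

set_option autoImplicit false

open MeasureTheory Complex Filter Topology Set Metric
open scoped ComplexConjugate ENNReal

namespace Pool.Agent.H486.RF

noncomputable section

variable {Ω : Type*} [MeasurableSpace Ω] {P : Measure Ω}

/-- finite `p`-th moment -/
structure Sp (P : Measure Ω) (p : ℕ) (A : Ω → ℂ) : Prop where
  meas : Measurable A
  int : Integrable (fun ω => ‖A ω‖ ^ p) P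

theorem cs_real {f g : Ω → ℝ} (hf : Measurable f) (hg : Measurable g)
    (hf2 : Integrable (fun ω => f ω ^ 2) P) (hg2 : Integrable (fun ω => g ω ^ 2) P) :
    Integrable (fun ω => f ω * g ω) P ∧
      |∫ ω, f ω * g ω ∂P| ≤ √(∫ ω, f ω ^ 2 ∂P) * √(∫ ω, g ω ^ 2 ∂P) := by
  have hi : Integrable (fun ω => f ω * g ω) P := by
    refine Integrable.mono' (hf2.add hg2) (hf.mul hg).aestronglyMeasurable
      (ae_of_all _ fun ω => ?_)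
    rw [Real.norm_eq_abs, Pi.add_apply, abs_le]
    constructor <;> nlinarith [sq_nonneg (f ω + g ω), sq_nonneg (f ω - g ω)]
  refine ⟨hi, ?_⟩
  set F := ∫ ω, f ω ^ 2 ∂P
  set G := ∫ ω, g ω ^ 2 ∂P
  set I := ∫ ω, f ω * g ω ∂P
  have hq : ∀ t : ℝ, 0 ≤ G * (t * t) + (2 * I) * t + F := by
    intro t
    have h0 : 0 ≤ ∫ ω, (f ω + t * g ω) ^ 2 ∂P := integral_nonneg fun _ => sq_nonneg _
    have e : ∫ ω, (f ω + t * g ω) ^ 2 ∂P = F + 2 * t * I + t ^ 2 * G := by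
      have e1 : ∀ ω, (f ω + t * g ω) ^ 2 = f ω ^ 2 + 2 * t * (f ω * g ω) + t ^ 2 * g ω ^ 2 :=
        fun ω => by ring
      simp only [e1]
      have j1 : Integrable (fun ω => f ω ^ 2 + 2 * t * (f ω * g ω)) P := hf2.add (hi.const_mul _)
      rw [integral_add j1 (hg2.const_mul _), integral_add hf2 (hi.const_mul _),
        integral_const_mul, integral_const_mul]
    rw [e] at h0
    nlinarith
  have hd := discrim_le_zero hq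
  rw [discrim] at hd
  have hF : 0 ≤ F := integral_nonneg fun _ => sq_nonneg _
  rw [← Real.sqrt_mul hF]
  refine Real.abs_le_sqrt ?_
  nlinarith

theorem Sp.mul2 {A B : Ω → ℂ} (hA : Sp P 4 A) (hB : Sp P 4 B) :
    Sp P 2 (fun ω => A ω * B ω) ∧ ∫ ω, ‖A ω * B ω‖ ^ 2 ∂P ≤
      √(∫ ω, ‖A ω‖ ^ 4 ∂P) * √(∫ ω, ‖B ω‖ ^ 4 ∂P) := by
  have h := cs_real (P := P) (f := fun ω => ‖A ω‖ ^ 2) (g := fun ω => ‖B ω‖ ^ 2)
    (hA.meas.norm.pow_const 2) (hB.meas.norm.pow_const 2)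
    (by simpa only [← pow_mul] using hA.int) (by simpa only [← pow_mul] using hB.int)
  have e : (fun ω => ‖A ω * B ω‖ ^ 2) = fun ω => ‖A ω‖ ^ 2 * ‖B ω‖ ^ 2 := by
    funext ω; rw [norm_mul, mul_pow]
  refine ⟨⟨hA.meas.mul hB.meas, by rw [e]; exact h.1⟩, ?_⟩
  rw [e]
  have := (le_abs_self _).trans h.2
  simpa only [← pow_mul] using this

theorem Sp.inner {A B : Ω → ℂ} (hA : Sp P 2 A) (hB : Sp P 2 B) :
    Integrable (fun ω => A ω * B ω) P ∧ ‖∫ ω, A ω * B ω ∂P‖ ≤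
      √(∫ ω, ‖A ω‖ ^ 2 ∂P) * √(∫ ω, ‖B ω‖ ^ 2 ∂P) := by
  have h := cs_real (P := P) (f := fun ω => ‖A ω‖) (g := fun ω => ‖B ω‖)
    hA.meas.norm hB.meas.norm hA.int hB.int
  have hi : Integrable (fun ω => A ω * B ω) P := by
    have h1 : Integrable (fun ω => ‖A ω * B ω‖) P := by simpa only [norm_mul] using h.1
    exact (integrable_norm_iff (hA.meas.mul hB.meas).aestronglyMeasurable).1 h1
  refine ⟨hi, (norm_integral_le_integral_norm _).trans ?_⟩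
  simp only [norm_mul]
  exact (le_abs_self _).trans h.2

theorem add_pow_le (p : ℕ) {a b : ℝ} (ha : 0 ≤ a) (hb : 0 ≤ b) :
    (a + b) ^ p ≤ 2 ^ p * (a ^ p + b ^ p) := by
  have h1 : a + b ≤ 2 * max a b := by
    have := le_max_left a b
    have := le_max_right a b
    linarith
  have h2 := pow_le_pow_left₀ (add_nonneg ha hb) h1 p
  rw [mul_pow] at h2
  refine h2.trans (mul_le_mul_of_nonneg_left ?_ (by positivity))
  have h3 : (max a b) ^ p = max (a ^ p) (b ^ p) := by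
    rcases le_total a b with h | h
    · rw [max_eq_right h, max_eq_right (pow_le_pow_left₀ ha h p)]
    · rw [max_eq_left h, max_eq_left (pow_le_pow_left₀ hb h p)]
  rw [h3]
  exact max_le (by linarith [pow_nonneg hb p]) (by linarith [pow_nonneg ha p])

theorem Sp.add {p : ℕ} {A B : Ω → ℂ} (hA : Sp P p A) (hB : Sp P p B) :
    Sp P p (fun ω => A ω + B ω) ∧ ∫ ω, ‖A ω + B ω‖ ^ p ∂P ≤
      2 ^ p * (∫ ω, ‖A ω‖ ^ p ∂P + ∫ ω, ‖B ω‖ ^ p ∂P) := by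
  have hb : ∀ ω, ‖A ω + B ω‖ ^ p ≤ 2 ^ p * (‖A ω‖ ^ p + ‖B ω‖ ^ p) := fun ω =>
    (pow_le_pow_left₀ (norm_nonneg _) (norm_add_le _ _) p).trans
      (add_pow_le p (norm_nonneg _) (norm_nonneg _))
  have hm := hA.meas.add hB.meas
  have hi : Integrable (fun ω => ‖A ω + B ω‖ ^ p) P := by
    refine Integrable.mono' ((hA.int.add hB.int).const_mul (2 ^ p))
      (hm.norm.pow_const p).aestronglyMeasurable (ae_of_all _ fun ω => ?_)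
    rw [Real.norm_of_nonneg (by positivity)]
    exact hb ω
  refine ⟨⟨hm, hi⟩, ?_⟩
  rw [← integral_add hA.int hB.int, ← integral_const_mul]
  exact integral_mono hi ((hA.int.add hB.int).const_mul _) hb

theorem Sp.smul {p : ℕ} {A : Ω → ℂ} (hA : Sp P p A) (c : ℂ) :
    Sp P p (fun ω => c * A ω) ∧ ∫ ω, ‖c * A ω‖ ^ p ∂P = ‖c‖ ^ p * ∫ ω, ‖A ω‖ ^ p ∂P := by
  have e : (fun ω => ‖c * A ω‖ ^ p) = fun ω => ‖c‖ ^ p * ‖A ω‖ ^ p := by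
    funext ω; rw [norm_mul, mul_pow]
  refine ⟨⟨hA.meas.const_mul c, by rw [e]; exact hA.int.const_mul _⟩, ?_⟩
  rw [e, integral_const_mul]

theorem Sp.conj {p : ℕ} {A : Ω → ℂ} (hA : Sp P p A) : Sp P p (fun ω => conj (A ω)) :=
  ⟨Complex.continuous_conj.measurable.comp hA.meas, by simpa using hA.int⟩

theorem Sp.sub {p : ℕ} {A B : Ω → ℂ} (hA : Sp P p A) (hB : Sp P p B) :
    Sp P p (fun ω => A ω - B ω) ∧ ∫ ω, ‖A ω - B ω‖ ^ p ∂P ≤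
      2 ^ p * (∫ ω, ‖A ω‖ ^ p ∂P + ∫ ω, ‖B ω‖ ^ p ∂P) := by
  have h := hA.add (hB.smul (-1)).1
  have e : ∀ ω, A ω + -1 * B ω = A ω - B ω := fun ω => by ring
  simp only [e] at h
  refine ⟨h.1, h.2.trans (le_of_eq ?_)⟩
  rw [(hB.smul (-1)).2]
  simp

section action

variable [AddAction ℂ Ω] [MeasurableConstVAdd ℂ Ω] [VAddInvariantMeasure ℂ Ω P]

omit [MeasurableConstVAdd ℂ Ω] [VAddInvariantMeasure ℂ Ω P] in
theorem vadd_comm' (x y : ℂ) (ω : Ω) : x +ᵥ (y +ᵥ ω) = y +ᵥ (x +ᵥ ω) := by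
  rw [vadd_vadd, vadd_vadd, add_comm]

variable (P) in
theorem mp (x : ℂ) : MeasurePreserving (fun ω : Ω => x +ᵥ ω) P P := measurePreserving_vadd x P

theorem int_vadd {E : Type*} [NormedAddCommGroup E] [NormedSpace ℝ E] (x : ℂ) (f : Ω → E) :
    ∫ ω, f (x +ᵥ ω) ∂P = ∫ ω, f ω ∂P :=
  (mp P x).integral_comp (measurableEmbedding_const_vadd x) f

theorem Sp.vadd {p : ℕ} {A : Ω → ℂ} (hA : Sp P p A) (x : ℂ) : Sp P p (fun ω => A (x +ᵥ ω)) :=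
  ⟨hA.meas.comp (measurable_const_vadd x),
    (mp P x).integrable_comp_of_integrable hA.int⟩

/-- error of the first order expansion -/
def Er (G G1 G2 : Ω → ℂ) (h : ℂ) (ω : Ω) : ℂ :=
  G (h +ᵥ ω) - G ω - (h / 2 * G1 ω - conj h / 2 * G2 ω)

/-- first order differentiability in mean -/
structure Dif (P : Measure Ω) (p : ℕ) (G G1 G2 : Ω → ℂ) : Prop where
  s0 : Sp P p G
  s1 : Sp P p G1
  s2 : Sp P p G2
  bd : ∃ C : ℝ, 0 ≤ C ∧ ∀ h : ℂ, ‖h‖ ≤ 1 → ∫ ω, ‖Er G G1 G2 h ω‖ ^ p ∂P ≤ C * ‖h‖ ^ (2 * p)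

theorem half_norm (h : ℂ) : ‖h / 2‖ = ‖h‖ / 2 := by rw [norm_div]; norm_num

theorem half_norm' (h : ℂ) : ‖-(conj h / 2)‖ = ‖h‖ / 2 := by
  rw [norm_neg, norm_div, RCLike.norm_conj]; norm_num

theorem Sp.df {p : ℕ} {G1 G2 : Ω → ℂ} (h1 : Sp P p G1) (h2 : Sp P p G2) (h : ℂ) :
    Sp P p (fun ω => h / 2 * G1 ω - conj h / 2 * G2 ω) ∧
      ∫ ω, ‖h / 2 * G1 ω - conj h / 2 * G2 ω‖ ^ p ∂P ≤
        (∫ ω, ‖G1 ω‖ ^ p ∂P + ∫ ω, ‖G2 ω‖ ^ p ∂P) * ‖h‖ ^ p := by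
  have a1 := h1.smul (h / 2)
  have a2 := h2.smul (-(conj h / 2))
  have a3 := a1.1.add a2.1
  rw [a1.2, a2.2, half_norm, half_norm'] at a3
  have e : ∀ ω, h / 2 * G1 ω + -(conj h / 2) * G2 ω = h / 2 * G1 ω - conj h / 2 * G2 ω :=
    fun ω => by ring
  simp only [e] at a3
  refine ⟨a3.1, a3.2.trans (le_of_eq ?_)⟩
  rw [div_pow]
  field_simp

theorem Er.sp {p : ℕ} {G G1 G2 : Ω → ℂ} (h0 : Sp P p G) (h1 : Sp P p G1) (h2 : Sp P p G2) (h : ℂ) :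
    Sp P p (Er G G1 G2 h) :=
  ((h0.vadd h).sub h0).1.sub (h1.df h2 h).1 |>.1

/-- products -/
theorem Dif.mul [IsProbabilityMeasure P] {G G1 G2 H H1 H2 : Ω → ℂ} (hG : Dif P 4 G G1 G2)
    (hH : Dif P 4 H H1 H2) :
    Dif P 2 (fun ω => G ω * H ω) (fun ω => G1 ω * H ω + G ω * H1 ω)
      (fun ω => G2 ω * H ω + G ω * H2 ω) := by
  obtain ⟨C1, hC1, b1⟩ := hG.bd
  obtain ⟨C2, hC2, b2⟩ := hH.bd
  refine ⟨(hG.s0.mul2 hH.s0).1, ((hG.s1.mul2 hH.s0).1.add (hG.s0.mul2 hH.s1).1).1,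
    ((hG.s2.mul2 hH.s0).1.add (hG.s0.mul2 hH.s2).1).1, ?_⟩
  set MG := ∫ ω, ‖G1 ω‖ ^ 4 ∂P + ∫ ω, ‖G2 ω‖ ^ 4 ∂P with hMG
  set MH := ∫ ω, ‖H1 ω‖ ^ 4 ∂P + ∫ ω, ‖H2 ω‖ ^ 4 ∂P with hMH
  set NG := ∫ ω, ‖G ω‖ ^ 4 ∂P with hNG
  set NH := ∫ ω, ‖H ω‖ ^ 4 ∂P with hNH
  have hMG0 : 0 ≤ MG := add_nonneg (integral_nonneg fun _ => by positivity)
    (integral_nonneg fun _ => by positivity)
  have hMH0 : 0 ≤ MH := add_nonneg (integral_nonneg fun _ => by positivity)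
    (integral_nonneg fun _ => by positivity)
  have hNG0 : 0 ≤ NG := integral_nonneg fun _ => by positivity
  have hNH0 : 0 ≤ NH := integral_nonneg fun _ => by positivity
  refine ⟨4 * (4 * (√C1 * √NH + √MG * √MH) + √(16 * (NG + MG)) * √C2), by positivity,
    fun h hh => ?_⟩
  set dG := fun ω => h / 2 * G1 ω - conj h / 2 * G2 ω with hdG
  set dH := fun ω => h / 2 * H1 ω - conj h / 2 * H2 ω with hdH
  have sdG := hG.s1.df hG.s2 h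
  have sdH := hH.s1.df hH.s2 h
  have sE := Er.sp hG.s0 hG.s1 hG.s2 h
  have sE' := Er.sp hH.s0 hH.s1 hH.s2 h
  have e : ∀ ω, Er (fun ω => G ω * H ω) (fun ω => G1 ω * H ω + G ω * H1 ω)
      (fun ω => G2 ω * H ω + G ω * H2 ω) h ω =
      (Er G G1 G2 h ω * H (h +ᵥ ω) + dG ω * dH ω) + (G ω + dG ω) * Er H H1 H2 h ω := by
    intro ω
    simp only [Er, hdG, hdH]
    ring
  simp only [e]
  have t1 := sE.mul2 (hH.s0.vadd h)
  have t2 := sdG.1.mul2 sdH.1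
  have t4 := hG.s0.add sdG.1
  have t3 := t4.1.mul2 sE'
  have t5 := t1.1.add t2.1
  have t6 := t5.1.add t3.1
  refine t6.2.trans ?_
  have hh4 : ‖h‖ ^ 4 ≤ 1 := pow_le_one₀ (norm_nonneg _) hh
  have s1 : √(∫ ω, ‖Er G G1 G2 h ω‖ ^ 4 ∂P) ≤ √C1 * ‖h‖ ^ 4 := by
    refine (Real.sqrt_le_sqrt (b1 h hh)).trans (le_of_eq ?_)
    rw [Real.sqrt_mul hC1, show ‖h‖ ^ (2 * 4) = (‖h‖ ^ 4) ^ 2 by ring,
      Real.sqrt_sq (by positivity)]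
  have s2 : √(∫ ω, ‖Er H H1 H2 h ω‖ ^ 4 ∂P) ≤ √C2 * ‖h‖ ^ 4 := by
    refine (Real.sqrt_le_sqrt (b2 h hh)).trans (le_of_eq ?_)
    rw [Real.sqrt_mul hC2, show ‖h‖ ^ (2 * 4) = (‖h‖ ^ 4) ^ 2 by ring,
      Real.sqrt_sq (by positivity)]
  have s3 : √(∫ ω, ‖H (h +ᵥ ω)‖ ^ 4 ∂P) = √NH := by
    rw [int_vadd h (fun ω => ‖H ω‖ ^ 4)]
  have s4 : √(∫ ω, ‖dG ω‖ ^ 4 ∂P) ≤ √MG * ‖h‖ ^ 2 := by
    refine (Real.sqrt_le_sqrt sdG.2).trans (le_of_eq ?_)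
    rw [Real.sqrt_mul hMG0, show ‖h‖ ^ 4 = (‖h‖ ^ 2) ^ 2 by ring, Real.sqrt_sq (by positivity)]
  have s5 : √(∫ ω, ‖dH ω‖ ^ 4 ∂P) ≤ √MH * ‖h‖ ^ 2 := by
    refine (Real.sqrt_le_sqrt sdH.2).trans (le_of_eq ?_)
    rw [Real.sqrt_mul hMH0, show ‖h‖ ^ 4 = (‖h‖ ^ 2) ^ 2 by ring, Real.sqrt_sq (by positivity)]
  have s6 : √(∫ ω, ‖G ω + dG ω‖ ^ 4 ∂P) ≤ √(16 * (NG + MG)) := by
    refine Real.sqrt_le_sqrt (t4.2.trans ?_)
    have := sdG.2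
    have h1 : MG * ‖h‖ ^ 4 ≤ MG * 1 := mul_le_mul_of_nonneg_left hh4 hMG0
    linarith
  have r1 : ∫ ω, ‖Er G G1 G2 h ω * H (h +ᵥ ω)‖ ^ 2 ∂P ≤ √C1 * √NH * ‖h‖ ^ 4 := by
    refine t1.2.trans ?_
    rw [s3]
    have := mul_le_mul_of_nonneg_right s1 (Real.sqrt_nonneg NH)
    linarith
  have r2 : ∫ ω, ‖dG ω * dH ω‖ ^ 2 ∂P ≤ √MG * √MH * ‖h‖ ^ 4 := by
    refine t2.2.trans ((mul_le_mul s4 s5 (Real.sqrt_nonneg _) (by positivity)).trans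
      (le_of_eq (by ring)))
  have r3 : ∫ ω, ‖(G ω + dG ω) * Er H H1 H2 h ω‖ ^ 2 ∂P ≤ √(16 * (NG + MG)) * √C2 * ‖h‖ ^ 4 := by
    refine t3.2.trans ((mul_le_mul s6 s2 (Real.sqrt_nonneg _) (by positivity)).trans
      (le_of_eq (by ring)))
  have r4 := t5.2
  have e4 : ‖h‖ ^ (2 * 2) = ‖h‖ ^ 4 := by norm_num
  rw [e4]
  nlinarith

theorem Dif.one {p : ℕ} [IsProbabilityMeasure P] (hp : p ≠ 0) :
    Dif P p (fun _ : Ω => (1 : ℂ)) (fun _ => 0) (fun _ => 0) := by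
  refine ⟨⟨measurable_const, by simp⟩, ⟨measurable_const, by simp [hp]⟩,
    ⟨measurable_const, by simp [hp]⟩, 0, le_rfl, fun h _ => ?_⟩
  simp [Er, hp]

theorem Dif.vadd {p : ℕ} {G G1 G2 : Ω → ℂ} (hG : Dif P p G G1 G2) (x : ℂ) :
    Dif P p (fun ω => G (x +ᵥ ω)) (fun ω => G1 (x +ᵥ ω)) (fun ω => G2 (x +ᵥ ω)) := by
  obtain ⟨C, hC, b⟩ := hG.bd
  refine ⟨hG.s0.vadd x, hG.s1.vadd x, hG.s2.vadd x, C, hC, fun h hh => ?_⟩
  have e : ∀ ω, Er (fun ω => G (x +ᵥ ω)) (fun ω => G1 (x +ᵥ ω)) (fun ω => G2 (x +ᵥ ω)) h ω =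
      Er G G1 G2 h (x +ᵥ ω) := by
    intro ω
    simp only [Er]
    rw [vadd_comm' x h]
  simp only [e]
  rw [int_vadd x (fun ω => ‖Er G G1 G2 h ω‖ ^ p)]
  exact b h hh

/-- increments in mean square -/
theorem Dif.inc {G G1 G2 : Ω → ℂ} (hG : Dif P 2 G G1 G2) :
    ∃ C : ℝ, 0 ≤ C ∧ ∀ h : ℂ, ‖h‖ ≤ 1 → √(∫ ω, ‖G (h +ᵥ ω) - G ω‖ ^ 2 ∂P) ≤ C * ‖h‖ := by
  obtain ⟨C, hC, b⟩ := hG.bd
  set M := ∫ ω, ‖G1 ω‖ ^ 2 ∂P + ∫ ω, ‖G2 ω‖ ^ 2 ∂P with hM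
  have hM0 : 0 ≤ M := add_nonneg (integral_nonneg fun _ => by positivity)
    (integral_nonneg fun _ => by positivity)
  refine ⟨√(4 * (C + M)), Real.sqrt_nonneg _, fun h hh => ?_⟩
  have sd := hG.s1.df hG.s2 h
  have t := (Er.sp hG.s0 hG.s1 hG.s2 h).add sd.1
  have e : ∀ ω, Er G G1 G2 h ω + (h / 2 * G1 ω - conj h / 2 * G2 ω) = G (h +ᵥ ω) - G ω :=
    fun ω => by simp only [Er]; ring
  simp only [e] at t
  rw [← Real.sqrt_sq (norm_nonneg h), ← Real.sqrt_mul (by positivity)]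
  refine Real.sqrt_le_sqrt (t.2.trans ?_)
  have h1 := b h hh
  have h2 := sd.2
  have h3 : ‖h‖ ^ (2 * 2) ≤ ‖h‖ ^ 2 := pow_le_pow_of_le_one (norm_nonneg _) hh (by norm_num)
  have h4 := mul_le_mul_of_nonneg_left h3 hC
  linarith

/-- first order expansion of covariance functions -/
theorem Dif.cov {G G1 G2 H : Ω → ℂ} (hG : Dif P 2 G G1 G2) (hH : Sp P 2 H) :
    ∃ C : ℝ, ∀ x h : ℂ, ‖h‖ ≤ 1 →
      ‖(∫ ω, G ((x + h) +ᵥ ω) * H ω ∂P) - (∫ ω, G (x +ᵥ ω) * H ω ∂P) -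
        (h / 2 * (∫ ω, G1 (x +ᵥ ω) * H ω ∂P) - conj h / 2 * ∫ ω, G2 (x +ᵥ ω) * H ω ∂P)‖ ≤
      C * ‖h‖ ^ 2 := by
  obtain ⟨C, hC, b⟩ := hG.bd
  refine ⟨√C * √(∫ ω, ‖H ω‖ ^ 2 ∂P), fun x h hh => ?_⟩
  have hE := (Er.sp hG.s0 hG.s1 hG.s2 h).vadd x
  have t := hE.inner hH
  have e : (∫ ω, Er G G1 G2 h (x +ᵥ ω) * H ω ∂P) =
      (∫ ω, G ((x + h) +ᵥ ω) * H ω ∂P) - (∫ ω, G (x +ᵥ ω) * H ω ∂P) -
        (h / 2 * (∫ ω, G1 (x +ᵥ ω) * H ω ∂P) - conj h / 2 * ∫ ω, G2 (x +ᵥ ω) * H ω ∂P) := by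
    have i1 := ((hG.s0.vadd (x + h)).inner hH).1
    have i2 := ((hG.s0.vadd x).inner hH).1
    have i3 := ((hG.s1.vadd x).inner hH).1
    have i4 := ((hG.s2.vadd x).inner hH).1
    have j1 : Integrable (fun ω => G ((x + h) +ᵥ ω) * H ω - G (x +ᵥ ω) * H ω) P := i1.sub i2
    have j2 : Integrable (fun ω => (h / 2 : ℂ) * (G1 (x +ᵥ ω) * H ω) -
        (conj h / 2 : ℂ) * (G2 (x +ᵥ ω) * H ω)) P := (i3.const_mul _).sub (i4.const_mul _)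
    rw [← integral_const_mul, ← integral_const_mul,
      ← integral_sub (i3.const_mul _) (i4.const_mul _), ← integral_sub i1 i2,
      ← integral_sub j1 j2]
    refine integral_congr_ae (ae_of_all _ fun ω => ?_)
    simp only [Er]
    rw [vadd_vadd, add_comm h x]
    ring
  rw [← e]
  refine t.2.trans ?_
  rw [int_vadd x (fun ω => ‖Er G G1 G2 h ω‖ ^ 2)]
  have h1 : √(∫ ω, ‖Er G G1 G2 h ω‖ ^ 2 ∂P) ≤ √C * ‖h‖ ^ 2 := by
    refine (Real.sqrt_le_sqrt (b h hh)).trans (le_of_eq ?_)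
    rw [Real.sqrt_mul hC, show ‖h‖ ^ (2 * 2) = (‖h‖ ^ 2) ^ 2 by ring,
      Real.sqrt_sq (by positivity)]
  have := mul_le_mul_of_nonneg_right h1 (Real.sqrt_nonneg (∫ ω, ‖H ω‖ ^ 2 ∂P))
  linarith

theorem lin_zero {p q : ℂ} {C : ℝ} (h : ∀ x : ℂ, ‖x‖ ≤ 1 → ‖x / 2 * p - conj x / 2 * q‖ ≤ C * ‖x‖ ^ 2) :
    p = 0 ∧ q = 0 := by
  have key : ∀ (z : ℂ), (∀ t : ℝ, 0 < t → t ≤ 1 → t * ‖z‖ ≤ C * t ^ 2) → z = 0 := by
    intro z hz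
    by_contra hne
    have hz0 : 0 < ‖z‖ := norm_pos_iff.2 hne
    have h1 := hz 1 one_pos le_rfl
    have hC : 0 < C := by nlinarith
    have ht0 : 0 < min 1 (‖z‖ / (2 * C)) := lt_min one_pos (by positivity)
    have h2 := hz _ ht0 (min_le_left _ _)
    set t := min 1 (‖z‖ / (2 * C)) with ht
    have h3 : t ≤ ‖z‖ / (2 * C) := min_le_right _ _
    rw [le_div_iff₀ (by positivity)] at h3
    nlinarith
  have a1 : (p - q) / 2 = 0 := by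
    refine key _ fun t h0 h1 => ?_
    have := h (t : ℂ) (by rwa [norm_real, Real.norm_of_nonneg h0.le])
    rw [norm_real, Real.norm_of_nonneg h0.le, conj_ofReal] at this
    have e : (t : ℂ) / 2 * p - (t : ℂ) / 2 * q = (t : ℂ) * ((p - q) / 2) := by ring
    rw [e, norm_mul, norm_real, Real.norm_of_nonneg h0.le] at this
    exact this
  have a2 : I * (p + q) / 2 = 0 := by
    refine key _ fun t h0 h1 => ?_
    have hn : ‖(t : ℂ) * I‖ = t := by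
      rw [norm_mul, norm_I, mul_one, norm_real, Real.norm_of_nonneg h0.le]
    have := h ((t : ℂ) * I) (by rwa [hn])
    rw [hn, map_mul, conj_ofReal, conj_I] at this
    have e : (t : ℂ) * I / 2 * p - (t : ℂ) * -I / 2 * q = (t : ℂ) * (I * (p + q) / 2) := by ring
    rw [e, norm_mul, norm_real, Real.norm_of_nonneg h0.le] at this
    exact this
  have a3 : p + q = 0 := by
    have h2 : (2 : ℂ) ≠ 0 := two_ne_zero
    have := (div_eq_zero_iff.1 a2).resolve_right h2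
    exact (mul_eq_zero.1 this).resolve_left I_ne_zero
  have a4 : p - q = 0 := (div_eq_zero_iff.1 a1).resolve_right two_ne_zero
  constructor
  · linear_combination (a3 + a4) / 2
  · linear_combination (a3 - a4) / 2

/-- stationarity -/
theorem Dif.stat {G G1 G2 H H1 H2 : Ω → ℂ} (hG : Dif P 2 G G1 G2) (hH : Dif P 2 H H1 H2) :
    (∫ ω, G1 ω * H ω ∂P) + (∫ ω, G ω * H1 ω ∂P) = 0 ∧
      (∫ ω, G2 ω * H ω ∂P) + (∫ ω, G ω * H2 ω ∂P) = 0 := by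
  obtain ⟨C1, hC1, b1⟩ := hG.bd
  obtain ⟨C2, hC2, b2⟩ := hH.bd
  obtain ⟨C3, hC3, b3⟩ := hH.inc
  set MG := ∫ ω, ‖G1 ω‖ ^ 2 ∂P + ∫ ω, ‖G2 ω‖ ^ 2 ∂P with hMG
  have hMG0 : 0 ≤ MG := add_nonneg (integral_nonneg fun _ => by positivity)
    (integral_nonneg fun _ => by positivity)
  refine lin_zero (C := √MG * C3 + √C1 * √(∫ ω, ‖H ω‖ ^ 2 ∂P) + √(∫ ω, ‖G ω‖ ^ 2 ∂P) * √C2)
    fun h hh => ?_
  set dG := fun ω => h / 2 * G1 ω - conj h / 2 * G2 ω with hdG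
  set dH := fun ω => h / 2 * H1 ω - conj h / 2 * H2 ω with hdH
  have sdG := hG.s1.df hG.s2 h
  have sdH := hH.s1.df hH.s2 h
  have sE := Er.sp hG.s0 hG.s1 hG.s2 h
  have sE' := Er.sp hH.s0 hH.s1 hH.s2 h
  have sB := ((hH.s0.vadd h).sub hH.s0).1
  have t1 := sdG.1.inner sB
  have t2 := sE.inner (hH.s0.vadd h)
  have t3 := hG.s0.inner sE'
  have e0 : (∫ ω, G (h +ᵥ ω) * H (h +ᵥ ω) ∂P) = ∫ ω, G ω * H ω ∂P :=
    int_vadd h (fun ω => G ω * H ω)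
  have i0 := (hG.s0.inner hH.s0).1
  have i0' := ((hG.s0.vadd h).inner (hH.s0.vadd h)).1
  have i5 := (sdG.1.inner hH.s0).1
  have i6 := (hG.s0.inner sdH.1).1
  have e1 : (∫ ω, dG ω * H ω ∂P) + (∫ ω, G ω * dH ω ∂P) =
      -((∫ ω, dG ω * (H (h +ᵥ ω) - H ω) ∂P) + (∫ ω, Er G G1 G2 h ω * H (h +ᵥ ω) ∂P) +
        ∫ ω, G ω * Er H H1 H2 h ω ∂P) := by
    have e2 : (∫ ω, dG ω * H ω ∂P) + (∫ ω, G ω * dH ω ∂P) +
        ((∫ ω, dG ω * (H (h +ᵥ ω) - H ω) ∂P) + (∫ ω, Er G G1 G2 h ω * H (h +ᵥ ω) ∂P) +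
        ∫ ω, G ω * Er H H1 H2 h ω ∂P) =
        (∫ ω, G (h +ᵥ ω) * H (h +ᵥ ω) ∂P) - ∫ ω, G ω * H ω ∂P := by
      have j12 : Integrable (fun ω => dG ω * (H (h +ᵥ ω) - H ω) + Er G G1 G2 h ω * H (h +ᵥ ω)) P :=
        t1.1.add t2.1
      have j123 : Integrable (fun ω => dG ω * (H (h +ᵥ ω) - H ω) + Er G G1 G2 h ω * H (h +ᵥ ω) +
          G ω * Er H H1 H2 h ω) P := j12.add t3.1
      have j56 : Integrable (fun ω => dG ω * H ω + G ω * dH ω) P := i5.add i6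
      rw [← integral_add i5 i6, ← integral_add t1.1 t2.1, ← integral_add j12 t3.1,
        ← integral_add j56 j123, ← integral_sub i0' i0]
      refine integral_congr_ae (ae_of_all _ fun ω => ?_)
      simp only [Er, hdG, hdH]
      ring
    rw [e0, sub_self] at e2
    linear_combination e2
  have e3 : h / 2 * ((∫ ω, G1 ω * H ω ∂P) + (∫ ω, G ω * H1 ω ∂P)) -
      conj h / 2 * ((∫ ω, G2 ω * H ω ∂P) + (∫ ω, G ω * H2 ω ∂P)) =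
      (∫ ω, dG ω * H ω ∂P) + (∫ ω, G ω * dH ω ∂P) := by
    have j1 := (hG.s1.inner hH.s0).1
    have j2 := (hG.s2.inner hH.s0).1
    have j3 := (hG.s0.inner hH.s1).1
    have j4 := (hG.s0.inner hH.s2).1
    have k1 : (∫ ω, dG ω * H ω ∂P) = h / 2 * (∫ ω, G1 ω * H ω ∂P) -
        conj h / 2 * ∫ ω, G2 ω * H ω ∂P := by
      rw [← integral_const_mul, ← integral_const_mul, ← integral_sub (j1.const_mul _)
        (j2.const_mul _)]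
      refine integral_congr_ae (ae_of_all _ fun ω => ?_)
      simp only [hdG]
      ring
    have k2 : (∫ ω, G ω * dH ω ∂P) = h / 2 * (∫ ω, G ω * H1 ω ∂P) -
        conj h / 2 * ∫ ω, G ω * H2 ω ∂P := by
      rw [← integral_const_mul, ← integral_const_mul, ← integral_sub (j3.const_mul _)
        (j4.const_mul _)]
      refine integral_congr_ae (ae_of_all _ fun ω => ?_)
      simp only [hdH]
      ring
    rw [k1, k2]
    ring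
  rw [e3, e1, norm_neg]
  have s1 : √(∫ ω, ‖dG ω‖ ^ 2 ∂P) ≤ √MG * ‖h‖ := by
    refine (Real.sqrt_le_sqrt sdG.2).trans (le_of_eq ?_)
    rw [Real.sqrt_mul hMG0, Real.sqrt_sq (norm_nonneg _)]
  have s2 : √(∫ ω, ‖Er G G1 G2 h ω‖ ^ 2 ∂P) ≤ √C1 * ‖h‖ ^ 2 := by
    refine (Real.sqrt_le_sqrt (b1 h hh)).trans (le_of_eq ?_)
    rw [Real.sqrt_mul hC1, show ‖h‖ ^ (2 * 2) = (‖h‖ ^ 2) ^ 2 by ring,
      Real.sqrt_sq (by positivity)]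
  have s3 : √(∫ ω, ‖Er H H1 H2 h ω‖ ^ 2 ∂P) ≤ √C2 * ‖h‖ ^ 2 := by
    refine (Real.sqrt_le_sqrt (b2 h hh)).trans (le_of_eq ?_)
    rw [Real.sqrt_mul hC2, show ‖h‖ ^ (2 * 2) = (‖h‖ ^ 2) ^ 2 by ring,
      Real.sqrt_sq (by positivity)]
  have s4 : √(∫ ω, ‖H (h +ᵥ ω)‖ ^ 2 ∂P) = √(∫ ω, ‖H ω‖ ^ 2 ∂P) := by
    rw [int_vadd h (fun ω => ‖H ω‖ ^ 2)]
  have r1 := t1.2.trans (mul_le_mul s1 (b3 h hh) (Real.sqrt_nonneg _) (by positivity))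
  have r2 := t2.2
  rw [s4] at r2
  have r2' := r2.trans (mul_le_mul_of_nonneg_right s2 (Real.sqrt_nonneg _))
  have r3 := t3.2.trans (mul_le_mul_of_nonneg_left s3 (Real.sqrt_nonneg _))
  have r4 := norm_add₃_le (a := ∫ ω, dG ω * (H (h +ᵥ ω) - H ω) ∂P)
    (b := ∫ ω, Er G G1 G2 h ω * H (h +ᵥ ω) ∂P) (c := ∫ ω, G ω * Er H H1 H2 h ω ∂P)
  have e9 : √MG * ‖h‖ * (C3 * ‖h‖) = √MG * C3 * ‖h‖ ^ 2 := by ring
  linarith

end action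

end

end Pool.Agent.H486.RF
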