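import Pool.Agent.H486.RF.Two

/-!
# Vanishing of the fourth cumulants of ergodic waves
-/

set_option autoImplicit false

open MeasureTheory Complex Filter Topology Set Metric
open scoped ComplexConjugate ENNReal InnerProductSpace

namespace Pool.Agent.H486.RF

noncomputable section

variable {Ω : Type*} [MeasurableSpace Ω] [AddAction ℂ Ω] [MeasurableConstVAdd ℂ Ω]
  {P : Measure Ω} {F : Ω → ℝ}

/-- two point functions -/
def kap (P : Measure Ω) (F : Ω → ℝ) (a b : ℤ) (x : ℂ) : ℂ := ∫ ω, X F a (x +ᵥ ω) * X F b ω ∂P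

/-- Gaussian value -/
def Wk (P : Measure Ω) (F : Ω → ℝ) (a b c d : ℤ) : ℂ :=
  m2 P F a b * m2 P F c d + m2 P F a c * m2 P F b d + m2 P F a d * m2 P F b c

/-- fourth cumulant -/
def Dd (P : Measure Ω) (F : Ω → ℝ) (a b c d : ℤ) : ℂ := N4 P F a b c d - Wk P F a b c d

section sym

omit [MeasurableConstVAdd ℂ Ω]

theorem m2_comm (a b : ℤ) : m2 P F a b = m2 P F b a := by
  simp only [m2, Pr, mul_comm]

theorem N4_12 (a b c d : ℤ) : N4 P F a b c d = N4 P F b a c d := by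
  simp only [N4, Pr]
  refine integral_congr_ae (ae_of_all _ fun ω => ?_)
  simp only; ring

theorem N4_23 (a b c d : ℤ) : N4 P F a b c d = N4 P F a c b d := by
  simp only [N4, Pr]
  refine integral_congr_ae (ae_of_all _ fun ω => ?_)
  simp only; ring

theorem N4_34 (a b c d : ℤ) : N4 P F a b c d = N4 P F a b d c := by
  simp only [N4, Pr]
  refine integral_congr_ae (ae_of_all _ fun ω => ?_)
  simp only; ring

theorem Dd_12 (a b c d : ℤ) : Dd P F a b c d = Dd P F b a c d := by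
  rw [Dd, Dd, N4_12, Wk, Wk, m2_comm a b]
  ring

theorem Dd_23 (a b c d : ℤ) : Dd P F a b c d = Dd P F a c b d := by
  rw [Dd, Dd, N4_23, Wk, Wk, m2_comm b c]
  ring

theorem Dd_34 (a b c d : ℤ) : Dd P F a b c d = Dd P F a b d c := by
  rw [Dd, Dd, N4_34, Wk, Wk, m2_comm c d]
  ring

theorem T3_12 (a b c : ℤ) : T3 P F a b c = T3 P F b a c := by
  simp only [T3, Pr]
  refine integral_congr_ae (ae_of_all _ fun ω => ?_)
  simp only; ring

theorem T3_23 (a b c : ℤ) : T3 P F a b c = T3 P F a c b := by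
  simp only [T3, Pr]
  refine integral_congr_ae (ae_of_all _ fun ω => ?_)
  simp only; ring

end sym

section stat

variable [VAddInvariantMeasure ℂ Ω P] [IsProbabilityMeasure P]

theorem Wave.m2_rel (hF : Wave P F) (a b : ℤ) : m2 P F (a + 1) b + m2 P F a (b + 1) = 0 :=
  ((hF.difX a).stat (hF.difX b)).1

theorem Wave.m2_eq (hF : Wave P F) (a b : ℤ) : m2 P F a b = (-1) ^ b * m2 P F (a + b) 0 := by
  have h1 : (-1 : ℂ) ≠ 0 := by norm_num
  induction b using Int.induction_on generalizing a with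
  | zero => simp
  | succ n ih =>
    have h := hF.m2_rel a n
    rw [ih (a + 1)] at h
    rw [zpow_add_one₀ h1, show a + ((n : ℤ) + 1) = a + 1 + n by ring]
    linear_combination h
  | pred n ih =>
    have h := hF.m2_rel (a - 1) (-(n : ℤ) - 1)
    rw [sub_add_cancel, sub_add_cancel, ih (a - 1)] at h
    rw [zpow_sub_one₀ h1, show a + (-(n : ℤ) - 1) = a - 1 + -(n : ℤ) by ring]
    have h2 : (-1 : ℂ)⁻¹ = -1 := by norm_num
    rw [h2]
    linear_combination h

theorem Wave.kap_lad (hF : Wave P F) (b : ℤ) : Lad (fun k x => kap P F k b x) := by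
  intro k
  exact (hF.difX k).cov (hF.difX b).s0

theorem Wave.EX (hF : Wave P F) (c : ℤ) : ∫ ω, X F c ω ∂P = 0 := by
  have h := ((hF.difX (c - 1)).stat (Dif.one (P := P) (p := 2) (by norm_num))).1
  simpa using h

theorem Wave.T3_int (hF : Wave P F) (a b c : ℤ) : Integrable (fun ω => Pr F a b ω * X F c ω) P :=
  ((hF.spPr a b).inner (hF.difX c).s0).1

theorem Wave.T3_up (hF : Wave P F) (a b c : ℤ) :
    T3 P F (a + 1) b c + T3 P F a (b + 1) c + T3 P F a b (c + 1) = 0 := by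
  have h := ((hF.difPr a b).stat (hF.difX c)).1
  simp only [add_mul] at h
  rw [integral_add (hF.T3_int _ _ _) (hF.T3_int _ _ _)] at h
  exact h

theorem Wave.T3_down (hF : Wave P F) (a b c : ℤ) :
    T3 P F (a - 1) b c + T3 P F a (b - 1) c + T3 P F a b (c - 1) = 0 := by
  have h := ((hF.difPr a b).stat (hF.difX c)).2
  simp only [add_mul] at h
  rw [integral_add (hF.T3_int _ _ _) (hF.T3_int _ _ _)] at h
  exact h

theorem Wave.T3_two (hF : Wave P F) (a b c : ℤ) : T3 P F (a + 2) b c = T3 P F a (b + 1) (c + 1) := by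
  have h1 := hF.T3_up (a + 1) b c
  have h2 := hF.T3_down (a + 1) (b + 1) (c + 1)
  simp only [add_sub_cancel_right] at h2
  rw [show a + 1 + 1 = a + 2 by ring] at h1
  linear_combination h1 - h2

theorem Wave.T3_three (hF : Wave P F) (a b c : ℤ) : T3 P F (a + 3) (b - 3) c = T3 P F a b c := by
  have h1 := hF.T3_two (a + 1) (b - 3) c
  have h2 := hF.T3_two (b - 2) a c
  rw [show a + 1 + 2 = a + 3 by ring, show b - 3 + 1 = b - 2 by ring] at h1
  rw [show b - 2 + 2 = b by ring, T3_12, T3_12 (b - 2)] at h2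
  rw [h1, h2]

theorem Wave.T3_six (hF : Wave P F) (a b c : ℤ) (p : ℕ) :
    T3 P F (a + 6 * p) (b - 6 * p) c = T3 P F a b c := by
  induction p with
  | zero => simp
  | succ p ih =>
    rw [← ih, ← hF.T3_three (a + 6 * p) (b - 6 * p) c,
      ← hF.T3_three (a + 6 * p + 3) (b - 6 * p - 3) c]
    congr 1 <;> push_cast <;> ring

theorem Wave.N4_up (hF : Wave P F) (a b c d : ℤ) :
    N4 P F (a + 1) b c d + N4 P F a (b + 1) c d + N4 P F a b (c + 1) d + N4 P F a b c (d + 1) = 0 := by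
  have h := hF.ee_up 0 a b c d
  simpa only [ee_zero] using h

theorem Wave.Dd_up (hF : Wave P F) (a b c d : ℤ) :
    Dd P F (a + 1) b c d + Dd P F a (b + 1) c d + Dd P F a b (c + 1) d + Dd P F a b c (d + 1) = 0 := by
  have h := hF.N4_up a b c d
  have h1 := hF.m2_rel a b
  have h2 := hF.m2_rel c d
  have h3 := hF.m2_rel a c
  have h4 := hF.m2_rel b d
  have h5 := hF.m2_rel a d
  have h6 := hF.m2_rel b c
  simp only [Dd, Wk]
  linear_combination h - m2 P F c d * h1 - m2 P F a b * h2 - m2 P F b d * h3 - m2 P F a c * h4 -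
    m2 P F b c * h5 - m2 P F a d * h6

/-- increments are bounded by the derivative -/
theorem Dif.inc_le {G G1 G2 : Ω → ℂ} (hG : Dif P 2 G G1 G2) (y : ℂ) :
    ∫ ω, ‖G (y +ᵥ ω) - G ω‖ ^ 2 ∂P ≤
      (∫ ω, ‖G1 ω‖ ^ 2 ∂P + ∫ ω, ‖G2 ω‖ ^ 2 ∂P) * ‖y‖ ^ 2 := by
  obtain ⟨C, hC, b⟩ := hG.bd
  set v := hG.s0.toL with hv
  set M := ∫ ω, ‖G1 ω‖ ^ 2 ∂P + ∫ ω, ‖G2 ω‖ ^ 2 ∂P with hM
  have hM0 : 0 ≤ M := add_nonneg (integral_nonneg fun _ => by positivity)
    (integral_nonneg fun _ => by positivity)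
  have hinc : ∀ x : ℂ, ‖U x v - v‖ ^ 2 = ∫ ω, ‖G (x +ᵥ ω) - G ω‖ ^ 2 ∂P := by
    intro x
    rw [hv, U_toL, Sp.toL, Sp.toL, ← MemLp.toLp_sub]
    exact norm_toL ((hG.s0.vadd x).sub hG.s0).1
  have hsmall : ∀ x : ℂ, ‖x‖ ≤ 1 → ‖U x v - v‖ ≤ √M * ‖x‖ + √C * ‖x‖ ^ 2 := by
    intro x hx
    have sd := hG.s1.df hG.s2 x
    have sE := Er.sp hG.s0 hG.s1 hG.s2 x
    have e : U x v - v = sE.toL + sd.1.toL := by
      rw [hv, U_toL, Sp.toL, Sp.toL, ← MemLp.toLp_sub, Sp.toL, Sp.toL, ← MemLp.toLp_add]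
      congr 1
      funext ω
      simp only [Pi.sub_apply, Pi.add_apply, Er]
      ring
    rw [e]
    refine (norm_add_le _ _).trans ?_
    have h1 : ‖sE.toL‖ ≤ √C * ‖x‖ ^ 2 := by
      rw [← Real.sqrt_sq (norm_nonneg sE.toL), norm_toL]
      refine (Real.sqrt_le_sqrt (b x hx)).trans (le_of_eq ?_)
      rw [Real.sqrt_mul hC, show ‖x‖ ^ (2 * 2) = (‖x‖ ^ 2) ^ 2 by ring,
        Real.sqrt_sq (by positivity)]
    have h2 : ‖sd.1.toL‖ ≤ √M * ‖x‖ := by
      rw [← Real.sqrt_sq (norm_nonneg sd.1.toL), norm_toL]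
      refine (Real.sqrt_le_sqrt sd.2).trans (le_of_eq ?_)
      rw [Real.sqrt_mul hM0, Real.sqrt_sq (norm_nonneg _)]
    linarith
  have hmul : ∀ (n : ℕ) (x : ℂ), ‖U ((n : ℂ) * x) v - v‖ ≤ n * ‖U x v - v‖ := by
    intro n x
    induction n with
    | zero => simp [U_zero]
    | succ n ih =>
      have e : U (((n + 1 : ℕ) : ℂ) * x) v - v = U ((n : ℂ) * x) (U x v - v) +
          (U ((n : ℂ) * x) v - v) := by
        rw [map_sub, ← U_add]
        have : (((n + 1 : ℕ) : ℂ) * x) = (n : ℂ) * x + x := by push_cast; ring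
        rw [this]
        abel
      rw [e]
      refine (norm_add_le _ _).trans ?_
      rw [(U ((n : ℂ) * x)).norm_map]
      push_cast
      linarith
  have key : ‖U y v - v‖ ≤ √M * ‖y‖ := by
    have hlim : Tendsto (fun n : ℕ => √M * ‖y‖ + √C * ‖y‖ ^ 2 * ((n : ℝ))⁻¹) atTop
        (𝓝 (√M * ‖y‖ + √C * ‖y‖ ^ 2 * 0)) :=
      tendsto_const_nhds.add ((tendsto_inv_atTop_nhds_zero_nat (𝕜 := ℝ)).const_mul _)
    rw [mul_zero, add_zero] at hlim
    refine ge_of_tendsto hlim ?_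
    obtain ⟨N, hN⟩ := exists_nat_ge (‖y‖ + 1)
    filter_upwards [eventually_ge_atTop N] with n hn
    have hn1 : ‖y‖ + 1 ≤ n := hN.trans (by exact_mod_cast hn)
    have hn0 : (0 : ℝ) < n := by linarith [norm_nonneg y]
    have hnc : (n : ℂ) ≠ 0 := by
      intro h
      have : (n : ℝ) = 0 := by exact_mod_cast h
      linarith
    have hny : ‖y / n‖ = ‖y‖ / n := by rw [norm_div, Complex.norm_natCast]
    have h1 := hmul n (y / n)
    rw [mul_div_cancel₀ _ hnc] at h1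
    have h2 := hsmall (y / n) (by rw [hny, div_le_one hn0]; linarith)
    rw [hny] at h2
    have h3 := mul_le_mul_of_nonneg_left h2 hn0.le
    refine h1.trans (h3.trans (le_of_eq ?_))
    field_simp
  rw [← hinc, ← Real.sq_sqrt hM0, ← mul_pow]
  exact pow_le_pow_left₀ (norm_nonneg _) key 2

theorem Dif.add {G G1 G2 H H1 H2 : Ω → ℂ} (hG : Dif P 2 G G1 G2) (hH : Dif P 2 H H1 H2) :
    Dif P 2 (fun ω => G ω + H ω) (fun ω => G1 ω + H1 ω) (fun ω => G2 ω + H2 ω) := by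
  obtain ⟨C1, hC1, b1⟩ := hG.bd
  obtain ⟨C2, hC2, b2⟩ := hH.bd
  refine ⟨(hG.s0.add hH.s0).1, (hG.s1.add hH.s1).1, (hG.s2.add hH.s2).1, 4 * (C1 + C2),
    by positivity, fun h hh => ?_⟩
  have t := (Er.sp hG.s0 hG.s1 hG.s2 h).add (Er.sp hH.s0 hH.s1 hH.s2 h)
  have e : ∀ ω, Er (fun ω => G ω + H ω) (fun ω => G1 ω + H1 ω) (fun ω => G2 ω + H2 ω) h ω =
      Er G G1 G2 h ω + Er H H1 H2 h ω := fun ω => by simp only [Er]; ring
  simp only [e]
  refine t.2.trans ?_
  have := b1 h hh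
  have := b2 h hh
  linarith

theorem Dif.smul {G G1 G2 : Ω → ℂ} (hG : Dif P 2 G G1 G2) (c : ℂ) :
    Dif P 2 (fun ω => c * G ω) (fun ω => c * G1 ω) (fun ω => c * G2 ω) := by
  obtain ⟨C1, hC1, b1⟩ := hG.bd
  refine ⟨(hG.s0.smul c).1, (hG.s1.smul c).1, (hG.s2.smul c).1, ‖c‖ ^ 2 * C1,
    by positivity, fun h hh => ?_⟩
  have t := (Er.sp hG.s0 hG.s1 hG.s2 h).smul c
  have e : ∀ ω, Er (fun ω => c * G ω) (fun ω => c * G1 ω) (fun ω => c * G2 ω) h ω =
      c * Er G G1 G2 h ω := fun ω => by simp only [Er]; ring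
  simp only [e]
  rw [t.2, mul_assoc]
  exact mul_le_mul_of_nonneg_left (b1 h hh) (by positivity)

end stat

end

end Pool.Agent.H486.RF
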