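import Mathlib

/-!
# Asymptotically invariant vectors of an isometric action of the plane
-/

set_option autoImplicit false

open Filter Topology
open scoped ComplexConjugate InnerProductSpace

namespace Pool.Agent.H486.RF

noncomputable section

variable {H : Type*} [NormedAddCommGroup H] [InnerProductSpace ℂ H] [CompleteSpace H]

/-- weak limit of a bounded family along an ultrafilter -/
theorem exists_weak {ι : Type*} (𝒰 : Ultrafilter ι) (G : ι → H) {C : ℝ} (hb : ∀ n, ‖G n‖ ≤ C) :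
    ∃ g : H, ∀ v, Tendsto (fun n => ⟪G n, v⟫_ℂ) 𝒰 (𝓝 ⟪g, v⟫_ℂ) := by
  have h1 : ∀ v : H, ∃ l : ℂ, ‖l‖ ≤ C * ‖v‖ ∧ Tendsto (fun n => ⟪G n, v⟫_ℂ) 𝒰 (𝓝 l) := by
    intro v
    have hc := isCompact_closedBall (0 : ℂ) (C * ‖v‖)
    have hm : ∀ n, ⟪G n, v⟫_ℂ ∈ Metric.closedBall (0 : ℂ) (C * ‖v‖) := by
      intro n
      rw [mem_closedBall_zero_iff]
      exact (norm_inner_le_norm _ _).trans (mul_le_mul_of_nonneg_right (hb n) (norm_nonneg _))
    obtain ⟨l, hl, h⟩ := hc.ultrafilter_le_nhds (𝒰.map fun n => ⟪G n, v⟫_ℂ)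
      (le_principal_iff.2 (by
        rw [Ultrafilter.mem_coe, Ultrafilter.mem_map]
        exact Filter.univ_mem' hm))
    refine ⟨l, by simpa using hl, ?_⟩
    exact h
  choose L hL1 hL2 using h1
  let L' : H →ₗ[ℂ] ℂ :=
    { toFun := L
      map_add' := fun v w => by
        refine tendsto_nhds_unique (hL2 (v + w)) ?_
        simp only [inner_add_right]
        exact (hL2 v).add (hL2 w)
      map_smul' := fun c v => by
        refine tendsto_nhds_unique (hL2 (c • v)) ?_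
        simp only [inner_smul_right, RingHom.id_apply, smul_eq_mul]
        exact (hL2 v).const_mul c }
  let L'' : H →L[ℂ] ℂ := L'.mkContinuous C fun v => hL1 v
  refine ⟨(InnerProductSpace.toDual ℂ H).symm L'', fun v => ?_⟩
  rw [InnerProductSpace.toDual_symm_apply]
  exact hL2 v

/-- abstract form of the mean ergodic theorem: bounded, asymptotically invariant sequences are
weakly asymptotic to multiples of the invariant vector -/
theorem erg_abs {A : Type*} (U : A → H → H) (Um : A → A)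
    (hadj : ∀ y v w, ⟪U y v, w⟫_ℂ = ⟪v, U (Um y) w⟫_ℂ) (one : H)
    (herg : ∀ g, (∀ y, U y g = g) → ∃ c : ℂ, g = c • one) (h1 : ⟪one, one⟫_ℂ = 1)
    {G : ℕ → H} {C : ℝ} (hb : ∀ n, ‖G n‖ ≤ C)
    (hinv : ∀ y, Tendsto (fun n => ‖U y (G n) - G n‖) atTop (𝓝 0))
    (v : H) :
    Tendsto (fun n => ⟪G n, v⟫_ℂ - ⟪G n, one⟫_ℂ * ⟪one, v⟫_ℂ) atTop (𝓝 0) := by
  rw [tendsto_iff_ultrafilter]
  intro 𝒰 hU
  obtain ⟨g, hg⟩ := exists_weak 𝒰 G hb
  have hinvg : ∀ y, U y g = g := by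
    intro y
    refine ext_inner_right ℂ fun w => ?_
    rw [hadj]
    have t1 := hg (U (Um y) w)
    have t2 : Tendsto (fun n => ⟪U y (G n) - G n, w⟫_ℂ) 𝒰 (𝓝 0) := by
      rw [tendsto_zero_iff_norm_tendsto_zero]
      refine squeeze_zero (fun _ => norm_nonneg _) (fun n => norm_inner_le_norm _ _) ?_
      have := ((hinv y).mono_left hU).mul_const ‖w‖
      simpa using this
    have t3 : Tendsto (fun n => ⟪G n, U (Um y) w⟫_ℂ) 𝒰 (𝓝 ⟪g, w⟫_ℂ) := by
      have := t2.add (hg w)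
      rw [zero_add] at this
      refine this.congr fun n => ?_
      rw [inner_sub_left, hadj]
      ring
    exact tendsto_nhds_unique t1 t3
  obtain ⟨c, hc⟩ := herg g hinvg
  have e1 : ⟪g, v⟫_ℂ = conj c * ⟪one, v⟫_ℂ := by rw [hc, inner_smul_left]
  have e2 : ⟪g, one⟫_ℂ = conj c := by rw [hc, inner_smul_left, h1, mul_one]
  have t := (hg v).sub ((hg one).mul_const ⟪one, v⟫_ℂ)
  rw [e1, e2, sub_self] at t
  exact t

theorem sum_shift_sub {M : Type*} [AddCommGroup M] (f : ℕ → M) (N p : ℕ) :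
    ∑ j ∈ Finset.range N, f (j + p) - ∑ j ∈ Finset.range N, f j =
      ∑ j ∈ Finset.range p, f (j + N) - ∑ j ∈ Finset.range p, f j := by
  have h1 := Finset.sum_range_add f p N
  have h2 := Finset.sum_range_add f N p
  rw [add_comm] at h2
  have e : ∑ x ∈ Finset.range p, f x + ∑ x ∈ Finset.range N, f (p + x) =
      ∑ x ∈ Finset.range N, f x + ∑ x ∈ Finset.range p, f (N + x) := by
    rw [← h1, ← h2, add_comm]
  simp only [add_comm _ p, add_comm _ N]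
  rw [sub_eq_sub_iff_add_eq_add, add_comm, add_comm _ (∑ x ∈ Finset.range N, f x)]
  exact e

/-- one-parameter averages are asymptotically invariant -/
theorem avg_line (T : ℝ → H →ₗᵢ[ℂ] H) (hT : ∀ s t v, T (s + t) v = T s (T t v)) (v : H) (n : ℕ)
    {K : ℝ} (hK : ∀ r, 0 ≤ r → r ≤ 1 → ‖T r v - v‖ ≤ K * r) {r : ℝ} (hr : 0 ≤ r) :
    ‖T r ((((n + 1 : ℕ) : ℂ) ^ 2)⁻¹ • ∑ j ∈ Finset.range ((n + 1) ^ 2), T (j / (n + 1 : ℕ)) v) -
      (((n + 1 : ℕ) : ℂ) ^ 2)⁻¹ • ∑ j ∈ Finset.range ((n + 1) ^ 2), T (j / (n + 1 : ℕ)) v‖ ≤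
      (K + 2 * r * ‖v‖) / (n + 1 : ℕ) := by
  set N : ℕ := n + 1 with hN
  have hN0 : (0 : ℝ) < (N : ℝ) := by positivity
  set p : ℕ := ⌊r * N⌋₊ with hp
  have hp1 : (p : ℝ) ≤ r * N := Nat.floor_le (by positivity)
  have hp2 : r * N < p + 1 := Nat.lt_floor_add_one _
  set s : ℝ := r - p / N with hs
  have hs0 : 0 ≤ s := by
    rw [hs, sub_nonneg, div_le_iff₀ hN0]; exact hp1
  have hs1 : s ≤ 1 / N := by
    rw [hs, sub_le_iff_le_add, ← add_div, le_div_iff₀ hN0]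
    linarith
  have hN1 : 1 / (N : ℝ) ≤ 1 := by
    rw [div_le_one hN0]
    exact_mod_cast Nat.succ_le_succ (Nat.zero_le n)
  have hsK := hK s hs0 (hs1.trans hN1)
  have e1 : T r (((N : ℂ) ^ 2)⁻¹ • ∑ j ∈ Finset.range (N ^ 2), T (j / N) v) -
      ((N : ℂ) ^ 2)⁻¹ • ∑ j ∈ Finset.range (N ^ 2), T (j / N) v =
      ((N : ℂ) ^ 2)⁻¹ • (∑ j ∈ Finset.range (N ^ 2), T ((j + p : ℕ) / N) (T s v - v) +
        (∑ j ∈ Finset.range (N ^ 2), T ((j + p : ℕ) / N) v -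
          ∑ j ∈ Finset.range (N ^ 2), T (j / N) v)) := by
    rw [map_smul, map_sum, ← smul_sub]
    congr 1
    rw [← add_sub_assoc, ← Finset.sum_add_distrib]
    congr 1
    refine Finset.sum_congr rfl fun j _ => ?_
    rw [map_sub, sub_add_cancel, ← hT, ← hT]
    congr 1
    congr 1
    rw [hs]
    push_cast
    field_simp
    ring
  rw [e1, norm_smul, norm_inv, norm_pow, Complex.norm_natCast]
  have b1 : ‖∑ j ∈ Finset.range (N ^ 2), T ((j + p : ℕ) / N) (T s v - v)‖ ≤ (N : ℝ) ^ 2 * (K * (1 / N)) := by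
    refine (norm_sum_le _ _).trans ?_
    have hKs : K * s ≤ K * (1 / N) ∨ K < 0 := by
      by_cases hK0 : 0 ≤ K
      · exact Or.inl (mul_le_mul_of_nonneg_left hs1 hK0)
      · exact Or.inr (lt_of_not_ge hK0)
    rcases hKs with hKs | hKs
    · calc ∑ j ∈ Finset.range (N ^ 2), ‖T ((j + p : ℕ) / N) (T s v - v)‖ ≤
            ∑ j ∈ Finset.range (N ^ 2), K * (1 / N) := Finset.sum_le_sum fun j _ => by
              rw [LinearIsometry.norm_map]
              exact hsK.trans hKs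
        _ = (N : ℝ) ^ 2 * (K * (1 / N)) := by simp
    · exfalso
      have := hK 1 zero_le_one le_rfl
      have := norm_nonneg (T 1 v - v)
      linarith
  have b2 : ‖∑ j ∈ Finset.range (N ^ 2), T ((j + p : ℕ) / N) v -
      ∑ j ∈ Finset.range (N ^ 2), T (j / N) v‖ ≤ 2 * (r * N) * ‖v‖ := by
    have := sum_shift_sub (fun j : ℕ => T ((j : ℝ) / N) v) (N ^ 2) p
    rw [this]
    refine (norm_sub_le _ _).trans ?_
    have h1 : ‖∑ j ∈ Finset.range p, T ((j + N ^ 2 : ℕ) / N) v‖ ≤ p * ‖v‖ := by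
      refine (norm_sum_le _ _).trans ?_
      simp
    have h2 : ‖∑ j ∈ Finset.range p, T ((j : ℝ) / N) v‖ ≤ p * ‖v‖ := by
      refine (norm_sum_le _ _).trans ?_
      simp
    have h3 := mul_le_mul_of_nonneg_right hp1 (norm_nonneg v)
    linarith
  have b3 := norm_add_le (∑ j ∈ Finset.range (N ^ 2), T ((j + p : ℕ) / N) (T s v - v))
    (∑ j ∈ Finset.range (N ^ 2), T ((j + p : ℕ) / N) v - ∑ j ∈ Finset.range (N ^ 2), T (j / N) v)
  have hi : 0 ≤ ((N : ℝ) ^ 2)⁻¹ := by positivity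
  refine (mul_le_mul_of_nonneg_left (b3.trans (add_le_add b1 b2)) hi).trans (le_of_eq ?_)
  field_simp

/-- averages over squares -/
def sqav (U : ℂ → H →ₗᵢ[ℂ] H) (v : H) (n : ℕ) : H :=
  (((n + 1 : ℕ) : ℂ) ^ 2)⁻¹ • ∑ j ∈ Finset.range ((n + 1) ^ 2), U (((j / (n + 1 : ℕ) : ℝ) : ℂ))
    ((((n + 1 : ℕ) : ℂ) ^ 2)⁻¹ • ∑ k ∈ Finset.range ((n + 1) ^ 2),
      U (((k / (n + 1 : ℕ) : ℝ) : ℂ) * Complex.I) v)

theorem norm_avg_le (T : ℕ → H →ₗᵢ[ℂ] H) (v : H) (n : ℕ) :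
    ‖(((n + 1 : ℕ) : ℂ) ^ 2)⁻¹ • ∑ j ∈ Finset.range ((n + 1) ^ 2), T j v‖ ≤ ‖v‖ := by
  rw [norm_smul, norm_inv, norm_pow, Complex.norm_natCast]
  have hp : (0 : ℝ) < ((n + 1 : ℕ) : ℝ) ^ 2 := by positivity
  rw [inv_mul_le_iff₀ hp]
  refine (norm_sum_le _ _).trans ?_
  simp

theorem norm_sqav_le (U : ℂ → H →ₗᵢ[ℂ] H) (v : H) (n : ℕ) : ‖sqav U v n‖ ≤ ‖v‖ := by
  rw [sqav]
  refine (norm_avg_le (fun j => U (((j / (n + 1 : ℕ) : ℝ) : ℂ))) _ n).trans ?_
  exact norm_avg_le (fun k => U (((k / (n + 1 : ℕ) : ℝ) : ℂ) * Complex.I)) _ n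

theorem sqav_inv (U : ℂ → H →ₗᵢ[ℂ] H) (hU : ∀ x y v, U (x + y) v = U x (U y v)) (v : H)
    {K : ℝ} (hK : ∀ x : ℂ, ‖x‖ ≤ 1 → ‖U x v - v‖ ≤ K * ‖x‖) (y : ℂ) :
    Tendsto (fun n => ‖U y (sqav U v n) - sqav U v n‖) atTop (𝓝 0) := by
  have hcomm : ∀ x y v, U x (U y v) = U y (U x v) := fun x y v => by
    rw [← hU, add_comm, hU]
  -- nonnegative horizontal shifts
  have hA : ∀ r : ℝ, 0 ≤ r → ∀ n : ℕ, ‖U (r : ℂ) (sqav U v n) - sqav U v n‖ ≤
      (K + 2 * r * ‖v‖) / (n + 1 : ℕ) := by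
    intro r hr n
    rw [sqav]
    set w := (((n + 1 : ℕ) : ℂ) ^ 2)⁻¹ • ∑ k ∈ Finset.range ((n + 1) ^ 2),
      U (((k / (n + 1 : ℕ) : ℝ) : ℂ) * Complex.I) v with hw
    have hwn : ‖w‖ ≤ ‖v‖ := norm_avg_le (fun k => U (((k / (n + 1 : ℕ) : ℝ) : ℂ) * Complex.I)) v n
    have hwK : ∀ s : ℝ, 0 ≤ s → s ≤ 1 → ‖U (s : ℂ) w - w‖ ≤ K * s := by
      intro s h0 h1
      have e : U (s : ℂ) w - w = (((n + 1 : ℕ) : ℂ) ^ 2)⁻¹ • ∑ k ∈ Finset.range ((n + 1) ^ 2),
          U (((k / (n + 1 : ℕ) : ℝ) : ℂ) * Complex.I) (U (s : ℂ) v - v) := by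
        rw [hw, map_smul, map_sum, ← smul_sub, ← Finset.sum_sub_distrib]
        congr 1
        refine Finset.sum_congr rfl fun k _ => ?_
        rw [map_sub, hcomm]
      rw [e]
      refine (norm_avg_le (fun k => U (((k / (n + 1 : ℕ) : ℝ) : ℂ) * Complex.I)) _ n).trans ?_
      have := hK (s : ℂ) (by rwa [Complex.norm_real, Real.norm_of_nonneg h0])
      rwa [Complex.norm_real, Real.norm_of_nonneg h0] at this
    have := avg_line (fun t : ℝ => U (t : ℂ)) (fun s t v => by push_cast; exact hU _ _ _) w n hwK hr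
    refine this.trans ?_
    have h2 : 2 * r * ‖w‖ ≤ 2 * r * ‖v‖ := mul_le_mul_of_nonneg_left hwn (by positivity)
    gcongr
  have hB : ∀ r : ℝ, 0 ≤ r → ∀ n : ℕ, ‖U ((r : ℂ) * Complex.I) (sqav U v n) - sqav U v n‖ ≤
      (K + 2 * r * ‖v‖) / (n + 1 : ℕ) := by
    intro r hr n
    have e : U ((r : ℂ) * Complex.I) (sqav U v n) - sqav U v n =
        (((n + 1 : ℕ) : ℂ) ^ 2)⁻¹ • ∑ j ∈ Finset.range ((n + 1) ^ 2),
          U (((j / (n + 1 : ℕ) : ℝ) : ℂ)) (U ((r : ℂ) * Complex.I)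
            ((((n + 1 : ℕ) : ℂ) ^ 2)⁻¹ • ∑ k ∈ Finset.range ((n + 1) ^ 2),
              U (((k / (n + 1 : ℕ) : ℝ) : ℂ) * Complex.I) v) -
            ((((n + 1 : ℕ) : ℂ) ^ 2)⁻¹ • ∑ k ∈ Finset.range ((n + 1) ^ 2),
              U (((k / (n + 1 : ℕ) : ℝ) : ℂ) * Complex.I) v)) := by
      rw [sqav, map_smul, map_sum, ← smul_sub, ← Finset.sum_sub_distrib]
      congr 1
      refine Finset.sum_congr rfl fun k _ => ?_
      rw [map_sub, hcomm]
    rw [e]
    refine (norm_avg_le (fun j => U (((j / (n + 1 : ℕ) : ℝ) : ℂ))) _ n).trans ?_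
    refine avg_line (fun t : ℝ => U ((t : ℂ) * Complex.I))
      (fun s t v => by push_cast; rw [add_mul]; exact hU _ _ _) v n ?_ hr
    intro s h0 h1
    have hn : ‖(s : ℂ) * Complex.I‖ = s := by
      rw [norm_mul, Complex.norm_I, mul_one, Complex.norm_real, Real.norm_of_nonneg h0]
    have := hK ((s : ℂ) * Complex.I) (by rwa [hn])
    rwa [hn] at this
  have hneg : ∀ x w, ‖U (-x) w - w‖ = ‖U x w - w‖ := by
    intro x w
    have h0 : U 0 w = w := by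
      have h := hU 0 0 w
      rw [add_zero] at h
      exact ((U 0).injective h).symm
    have e : U x (U (-x) w - w) = w - U x w := by
      rw [map_sub, ← hU, add_neg_cancel, h0]
    rw [← (U x).norm_map, e, norm_sub_rev]
  have hA' : ∀ (r : ℝ) (n : ℕ), ‖U (r : ℂ) (sqav U v n) - sqav U v n‖ ≤
      (K + 2 * |r| * ‖v‖) / (n + 1 : ℕ) := by
    intro r n
    rcases le_total 0 r with h | h
    · rw [abs_of_nonneg h]; exact hA r h n
    · rw [abs_of_nonpos h, ← hneg, ← Complex.ofReal_neg]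
      exact hA (-r) (by linarith) n
  have hB' : ∀ (r : ℝ) (n : ℕ), ‖U ((r : ℂ) * Complex.I) (sqav U v n) - sqav U v n‖ ≤
      (K + 2 * |r| * ‖v‖) / (n + 1 : ℕ) := by
    intro r n
    rcases le_total 0 r with h | h
    · rw [abs_of_nonneg h]; exact hB r h n
    · rw [abs_of_nonpos h, ← hneg, ← neg_mul, ← Complex.ofReal_neg]
      exact hB (-r) (by linarith) n
  refine squeeze_zero (fun _ => norm_nonneg _)
    (g := fun n : ℕ => ((K + 2 * |y.re| * ‖v‖) + (K + 2 * |y.im| * ‖v‖)) / (n + 1 : ℕ)) ?_ ?_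
  · intro n
    have e : U y (sqav U v n) - sqav U v n =
        U (y.re : ℂ) (U ((y.im : ℂ) * Complex.I) (sqav U v n) - sqav U v n) +
          (U (y.re : ℂ) (sqav U v n) - sqav U v n) := by
      rw [map_sub, ← hU, Complex.re_add_im]
      abel
    rw [e, add_div]
    refine (norm_add_le _ _).trans ?_
    rw [(U (y.re : ℂ)).norm_map]
    have := hA' y.re n
    have := hB' y.im n
    linarith
  · have h1 : Tendsto (fun n : ℕ => (((n + 1 : ℕ) : ℝ))) atTop atTop :=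
      tendsto_natCast_atTop_atTop.comp (tendsto_add_atTop_nat 1)
    exact h1.const_div_atTop _

end

end Pool.Agent.H486.RF
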