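import Pool.Agent.H486.RF.Mom
import Pool.Agent.H486.RF.Hilb

/-!
# Ergodicity in mean square
-/

set_option autoImplicit false

open MeasureTheory Complex Filter Topology Set Metric
open scoped ComplexConjugate ENNReal InnerProductSpace

namespace Pool.Agent.H486.RF

noncomputable section

variable {Ω : Type*} [MeasurableSpace Ω] {P : Measure Ω}

theorem Sp.memLp {A : Ω → ℂ} (h : Sp P 2 A) : MemLp A 2 P :=
  (memLp_two_iff_integrable_sq_norm h.meas.aestronglyMeasurable).2 h.int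

/-- class in the Hilbert space -/
def Sp.toL {A : Ω → ℂ} (h : Sp P 2 A) : Lp ℂ 2 P := h.memLp.toLp A

theorem inner_toL {A B : Ω → ℂ} (hA : Sp P 2 A) (hB : Sp P 2 B) :
    ⟪hA.toL, hB.toL⟫_ℂ = ∫ ω, conj (A ω) * B ω ∂P := by
  rw [L2.inner_def]
  refine integral_congr_ae ?_
  filter_upwards [hA.memLp.coeFn_toLp, hB.memLp.coeFn_toLp] with ω h1 h2
  rw [Sp.toL, Sp.toL, h1, h2, RCLike.inner_apply]
  ring

theorem norm_toL {A : Ω → ℂ} (hA : Sp P 2 A) : ‖hA.toL‖ ^ 2 = ∫ ω, ‖A ω‖ ^ 2 ∂P := by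
  have h := inner_self_eq_norm_sq_to_K (𝕜 := ℂ) hA.toL
  rw [inner_toL] at h
  have e : ∀ ω, conj (A ω) * A ω = ((‖A ω‖ ^ 2 : ℝ) : ℂ) := by
    intro ω
    rw [mul_comm, Complex.mul_conj, Complex.normSq_eq_norm_sq]
  simp only [e] at h
  have h2 : (((∫ ω, ‖A ω‖ ^ 2 ∂P : ℝ)) : ℂ) = ((‖hA.toL‖ ^ 2 : ℝ) : ℂ) := by
    rw [← integral_complex_ofReal, h]
    push_cast
    rfl
  exact (Complex.ofReal_injective h2).symm

variable [AddAction ℂ Ω] [MeasurableConstVAdd ℂ Ω]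

/-- translation operators -/
def U [VAddInvariantMeasure ℂ Ω P] (x : ℂ) : Lp ℂ 2 P →ₗᵢ[ℂ] Lp ℂ 2 P :=
  Lp.compMeasurePreservingₗᵢ ℂ (fun ω : Ω => x +ᵥ ω) (mp P x)

theorem U_coe [VAddInvariantMeasure ℂ Ω P] (x : ℂ) (v : Lp ℂ 2 P) :
    U x v =ᵐ[P] fun ω => v (x +ᵥ ω) :=
  Lp.coeFn_compMeasurePreserving v (mp P x)

theorem U_toL [VAddInvariantMeasure ℂ Ω P] (x : ℂ) {A : Ω → ℂ} (hA : Sp P 2 A) :
    U x hA.toL = (hA.vadd x).toL := by
  apply Lp.ext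
  refine (U_coe x _).trans ?_
  refine ((mp P x).quasiMeasurePreserving.ae_eq_comp hA.memLp.coeFn_toLp).trans ?_
  exact (hA.vadd x).memLp.coeFn_toLp.symm

theorem U_add [VAddInvariantMeasure ℂ Ω P] (x y : ℂ) (v : Lp ℂ 2 P) :
    U (x + y) v = U x (U y v) := by
  apply Lp.ext
  refine (U_coe _ _).trans ?_
  refine EventuallyEq.trans ?_ (U_coe x _).symm
  refine EventuallyEq.trans ?_ ((mp P x).quasiMeasurePreserving.ae_eq_comp (U_coe y v)).symm
  refine ae_of_all _ fun ω => ?_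
  simp only [Function.comp]
  rw [vadd_vadd, add_comm]

theorem U_zero [VAddInvariantMeasure ℂ Ω P] (v : Lp ℂ 2 P) : U (0 : ℂ) v = v := by
  have h := U_add 0 0 v
  rw [add_zero] at h
  exact ((U (0 : ℂ)).injective h).symm

theorem U_adj [VAddInvariantMeasure ℂ Ω P] (y : ℂ) (v w : Lp ℂ 2 P) :
    ⟪U y v, w⟫_ℂ = ⟪v, U (-y) w⟫_ℂ := by
  have h : w = U y (U (-y) w) := by rw [← U_add, add_neg_cancel, U_zero]
  conv_lhs => rw [h]
  exact (U y).inner_map_map _ _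

theorem Sp.one [IsProbabilityMeasure P] : Sp P 2 (fun _ : Ω => (1 : ℂ)) :=
  ⟨measurable_const, by simp⟩

theorem erg_const [ErgodicVAdd ℂ Ω P] [IsProbabilityMeasure P] (g : Lp ℂ 2 P)
    (h : ∀ y : ℂ, U y g = g) : ∃ c : ℂ, g = c • (Sp.one (P := P)).toL := by
  have hm : Measurable g := (Lp.stronglyMeasurable g).measurable
  have hinv : ∀ y : ℂ, (fun ω => g (y +ᵥ ω)) =ᵐ[P] g := by
    intro y
    refine (U_coe y g).symm.trans ?_
    rw [h y]
  obtain ⟨c, hc⟩ : ∃ c, (g : Ω → ℂ) =ᵐ[P] Function.const Ω c := by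
    refine exists_eventuallyEq_const_of_forall_separating MeasurableSet fun s hs => ?_
    have h1 := aeconst_of_forall_preimage_vadd_ae_eq ℂ (μ := P)
      (s := (g : Ω → ℂ) ⁻¹' s) (hm hs).nullMeasurableSet (fun y => by
        have := hinv y
        filter_upwards [this] with ω hω
        have hω' : g (y +ᵥ ω) = g ω := hω
        refine propext ?_
        change g (y +ᵥ ω) ∈ s ↔ g ω ∈ s
        rw [hω'])
    rw [eventuallyConst_set'] at h1
    rcases h1 with h1 | h1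
    · right
      filter_upwards [h1] with ω hω
      have : ¬ ((g : Ω → ℂ) ⁻¹' s) ω := by
        rw [hω]
        exact fun h => h
      exact this
    · left
      filter_upwards [h1] with ω hω
      have : ((g : Ω → ℂ) ⁻¹' s) ω := by
        rw [hω]
        exact trivial
      exact this
  refine ⟨c, ?_⟩
  apply Lp.ext
  refine hc.trans ?_
  refine EventuallyEq.trans ?_ (Lp.coeFn_smul c (Sp.one (P := P)).toL).symm
  filter_upwards [(Sp.one (P := P)).memLp.coeFn_toLp] with ω hω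
  simp only [Function.const_apply, Pi.smul_apply, smul_eq_mul, Sp.toL]
  rw [hω, mul_one]

/-- weak mean ergodic theorem for asymptotically invariant sequences -/
theorem erg_fun [ErgodicVAdd ℂ Ω P] [IsProbabilityMeasure P] {G : ℕ → Ω → ℂ}
    (hG : ∀ n, Sp P 2 (G n)) {C : ℝ} (hb : ∀ n, ∫ ω, ‖G n ω‖ ^ 2 ∂P ≤ C)
    (hinv : ∀ y : ℂ, Tendsto (fun n => ∫ ω, ‖G n (y +ᵥ ω) - G n ω‖ ^ 2 ∂P) atTop (𝓝 0))
    {H : Ω → ℂ} (hH : Sp P 2 H) :
    Tendsto (fun n => (∫ ω, G n ω * H ω ∂P) - (∫ ω, G n ω ∂P) * ∫ ω, H ω ∂P) atTop (𝓝 0) := by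
  have h1 : ⟪(Sp.one (P := P)).toL, (Sp.one (P := P)).toL⟫_ℂ = 1 := by
    rw [inner_toL]
    simp
  have hb' : ∀ n, ‖(hG n).conj.toL‖ ≤ √C := by
    intro n
    refine Real.le_sqrt_of_sq_le ?_
    rw [norm_toL]
    simpa using hb n
  have hinv' : ∀ y : ℂ, Tendsto (fun n => ‖U y (hG n).conj.toL - (hG n).conj.toL‖) atTop (𝓝 0) := by
    intro y
    have h2 : ∀ n, ‖U y (hG n).conj.toL - (hG n).conj.toL‖ =
        √(∫ ω, ‖G n (y +ᵥ ω) - G n ω‖ ^ 2 ∂P) := by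
      intro n
      rw [U_toL, Sp.toL, Sp.toL, ← MemLp.toLp_sub]
      have hs := (((hG n).conj.vadd y).sub (hG n).conj).1
      have e := norm_toL hs
      rw [← Real.sqrt_sq (norm_nonneg _)]
      congr 1
      refine e.trans ?_
      refine integral_congr_ae (ae_of_all _ fun ω => ?_)
      change ‖conj (G n (y +ᵥ ω)) - conj (G n ω)‖ ^ 2 = _
      rw [← map_sub, RCLike.norm_conj]
    simp only [h2]
    have := (Real.continuous_sqrt.tendsto 0).comp (hinv y)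
    rw [Real.sqrt_zero] at this
    exact this
  have t := erg_abs (fun y : ℂ => (U (P := P) y : Lp ℂ 2 P → Lp ℂ 2 P)) (fun y => -y)
    (fun y v w => U_adj y v w) (Sp.one (P := P)).toL (fun g hg => erg_const g hg) h1 hb' hinv'
    hH.toL
  refine t.congr fun n => ?_
  rw [inner_toL, inner_toL, inner_toL]
  simp

/-- averages of covariance functions over squares -/
theorem sq_lim [ErgodicVAdd ℂ Ω P] [IsProbabilityMeasure P] {G G1 G2 H : Ω → ℂ}
    (hG : Dif P 2 G G1 G2) (hH : Sp P 2 H) :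
    Tendsto (fun n : ℕ => (((n + 1 : ℕ) : ℂ) ^ 2)⁻¹ * ∑ j ∈ Finset.range ((n + 1) ^ 2),
      ((((n + 1 : ℕ) : ℂ) ^ 2)⁻¹ * ∑ k ∈ Finset.range ((n + 1) ^ 2),
        ∫ ω, G ((((j / (n + 1 : ℕ) : ℝ) : ℂ) + ((k / (n + 1 : ℕ) : ℝ) : ℂ) * I) +ᵥ ω) * H ω ∂P))
      atTop (𝓝 ((∫ ω, G ω ∂P) * ∫ ω, H ω ∂P)) := by
  have h1 : ⟪(Sp.one (P := P)).toL, (Sp.one (P := P)).toL⟫_ℂ = 1 := by
    rw [inner_toL]
    simp
  set v := hG.s0.conj.toL with hv
  obtain ⟨K, hK0, hK⟩ := hG.inc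
  have hinc : ∀ x : ℂ, ‖x‖ ≤ 1 → ‖U x v - v‖ ≤ K * ‖x‖ := by
    intro x hx
    refine le_trans (le_of_eq ?_) (hK x hx)
    rw [hv, U_toL, Sp.toL, Sp.toL, ← MemLp.toLp_sub]
    have hs := ((hG.s0.conj.vadd x).sub hG.s0.conj).1
    have e := norm_toL hs
    rw [← Real.sqrt_sq (norm_nonneg _)]
    congr 1
    refine e.trans ?_
    refine integral_congr_ae (ae_of_all _ fun ω => ?_)
    change ‖conj (G (x +ᵥ ω)) - conj (G ω)‖ ^ 2 = _
    rw [← map_sub, RCLike.norm_conj]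
  have t := erg_abs (fun y : ℂ => (U (P := P) y : Lp ℂ 2 P → Lp ℂ 2 P)) (fun y => -y)
    (fun y v w => U_adj y v w) (Sp.one (P := P)).toL (fun g hg => erg_const g hg) h1
    (norm_sqav_le U v) (fun y => sqav_inv U U_add v hinc y) hH.toL
  have e1 : ∀ (n : ℕ) (w : Lp ℂ 2 P), ⟪sqav U v n, w⟫_ℂ =
      (((n + 1 : ℕ) : ℂ) ^ 2)⁻¹ * ∑ j ∈ Finset.range ((n + 1) ^ 2),
      ((((n + 1 : ℕ) : ℂ) ^ 2)⁻¹ * ∑ k ∈ Finset.range ((n + 1) ^ 2),
        ⟪U (((j / (n + 1 : ℕ) : ℝ) : ℂ) + ((k / (n + 1 : ℕ) : ℝ) : ℂ) * I) v, w⟫_ℂ) := by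
    intro n w
    have hcj : conj ((((n + 1 : ℕ) : ℂ) ^ 2)⁻¹) = (((n + 1 : ℕ) : ℂ) ^ 2)⁻¹ := by
      rw [map_inv₀, map_pow, Complex.conj_natCast]
    rw [sqav, inner_smul_left, hcj, sum_inner]
    congr 1
    refine Finset.sum_congr rfl fun j _ => ?_
    rw [map_smul, inner_smul_left, hcj, map_sum, sum_inner]
    congr 1
    refine Finset.sum_congr rfl fun k _ => ?_
    rw [U_add]
  have e2 : ∀ x : ℂ, ⟪U x v, hH.toL⟫_ℂ = ∫ ω, G (x +ᵥ ω) * H ω ∂P := by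
    intro x
    rw [hv, U_toL, inner_toL]
    simp
  have e3 : ∀ n, ⟪sqav U v n, (Sp.one (P := P)).toL⟫_ℂ = ∫ ω, G ω ∂P := by
    intro n
    have e4 : ∀ x : ℂ, ⟪U x v, (Sp.one (P := P)).toL⟫_ℂ = ∫ ω, G ω ∂P := by
      intro x
      rw [hv, U_toL, inner_toL]
      simp only [Complex.conj_conj, mul_one]
      exact int_vadd x G
    rw [e1]
    simp only [e4, Finset.sum_const, Finset.card_range, nsmul_eq_mul]
    have hn : (((n + 1 : ℕ) : ℂ)) ≠ 0 := Nat.cast_ne_zero.2 (Nat.succ_ne_zero n)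
    push_cast at hn ⊢
    field_simp
  have e5 : ⟪(Sp.one (P := P)).toL, hH.toL⟫_ℂ = ∫ ω, H ω ∂P := by
    rw [inner_toL]; simp
  simp only [e3, e5, e1, e2] at t
  have t2 := t.add_const ((∫ ω, G ω ∂P) * ∫ ω, H ω ∂P)
  simp only [sub_add_cancel, zero_add] at t2
  exact t2

theorem const_of_sq {g : ℂ → ℂ} {C : ℝ} (h : ∀ x y : ℂ, ‖y‖ ≤ 1 → ‖g (x + y) - g x‖ ≤ C * ‖y‖ ^ 2)
    (x : ℂ) : g x = g 0 := by
  have hd : ∀ x, HasFDerivAt g (0 : ℂ →L[ℝ] ℂ) x := by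
    intro x
    rw [hasFDerivAt_iff_isLittleO_nhds_zero]
    rw [Asymptotics.isLittleO_iff]
    intro c hc
    have h1 : ∀ᶠ y : ℂ in 𝓝 0, ‖y‖ < min 1 (c / (|C| + 1)) := by
      have := Metric.ball_mem_nhds (0 : ℂ) (show 0 < min 1 (c / (|C| + 1)) by positivity)
      filter_upwards [this] with y hy
      simpa using hy
    filter_upwards [h1] with y hy
    have hy1 : ‖y‖ ≤ 1 := hy.le.trans (min_le_left _ _)
    have hy2 : ‖y‖ ≤ c / (|C| + 1) := hy.le.trans (min_le_right _ _)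
    rw [le_div_iff₀ (by positivity)] at hy2
    have h2 := h x y hy1
    simp only [ContinuousLinearMap.zero_apply, sub_zero]
    refine h2.trans ?_
    have h3 := le_abs_self C
    have h4 := norm_nonneg y
    nlinarith [mul_nonneg h4 h4, mul_le_mul_of_nonneg_right h3 (mul_nonneg h4 h4)]
  have hdiff : Differentiable ℝ g := fun x => (hd x).differentiableAt
  exact is_const_of_fderiv_eq_zero (𝕜 := ℝ) hdiff (fun x => (hd x).fderiv) x 0

end

end Pool.Agent.H486.RF
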