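import Pool.Agent.H486.RF.Kill

/-!
# Gaussian three and four point functions
-/

set_option autoImplicit false

open MeasureTheory Complex Filter Topology Set Metric
open scoped ComplexConjugate ENNReal InnerProductSpace

namespace Pool.Agent.H486.RF

noncomputable section

variable {Ω : Type*} [MeasurableSpace Ω] [AddAction ℂ Ω] [MeasurableConstVAdd ℂ Ω]
  {P : Measure Ω} {F : Ω → ℝ}

theorem sum_alt (f : ℕ → ℂ) (α β : ℂ) (h0 : ∀ i, f (2 * i) = α) (h1 : ∀ i, f (2 * i + 1) = β)
    (m : ℕ) : ∑ a ∈ Finset.range (2 * m), sn a * f a = m * (α - β) := by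
  induction m with
  | zero => simp
  | succ m ih =>
    rw [show 2 * (m + 1) = 2 * m + 1 + 1 by ring, Finset.sum_range_succ, Finset.sum_range_succ, ih,
      h0, h1]
    have e1 : sn ((2 * m : ℕ) : ℤ) = 1 := by
      push_cast
      rw [two_mul, sn_add, sn_sq]
    have e2 : sn ((2 * m + 1 : ℕ) : ℤ) = -1 := by
      have : ((2 * m + 1 : ℕ) : ℤ) = ((2 * m : ℕ) : ℤ) + 1 := by push_cast; ring
      rw [this, sn_succ, e1]
    rw [e1, e2]
    push_cast
    ring

section erg

variable [ErgodicVAdd ℂ Ω P] [IsProbabilityMeasure P] {μ : Measure ℝ} [IsFiniteMeasure μ]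

theorem Wave.wien [NullSingletonClass μ] (hF : Wave P F) (hμ : Spec P F μ) (w c d : ℤ) :
    Tendsto (fun n : ℕ => (((n + 1 : ℕ) : ℂ))⁻¹ * ∑ a ∈ Finset.range (n + 1), sn a *
      (m2 P F (a + w) c * m2 P F (-a) d)) atTop (𝓝 0) := by
  obtain ⟨ε1, h1, b1⟩ := wiener μ 1 one_ne_zero
  obtain ⟨ε2, h2, b2⟩ := wiener μ (-1) (by norm_num)
  refine squeeze_zero_norm (a := fun n : ℕ => (ε1 (n + 1) + ε2 (n + 1)) / 2) (fun n => ?_) ?_
  · have hn : (0 : ℝ) < ((n + 1 : ℕ) : ℝ) := by positivity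
    rw [norm_mul, norm_inv, Complex.norm_natCast, inv_mul_le_iff₀ hn]
    refine (norm_sum_le _ _).trans ?_
    have hpt : ∀ a : ℕ, ‖sn a * (m2 P F (a + w) c * m2 P F (-a) d)‖ ≤
        (‖pc μ ((w + c) + 1 * a)‖ ^ 2 + ‖pc μ (d + (-1) * a)‖ ^ 2) / 2 := by
      intro a
      rw [norm_mul, nrm_sn, one_mul, norm_mul]
      have u1 := hμ.m2le hF (a + w) c
      have u2 := hμ.m2le hF (-a) d
      rw [show (a : ℤ) + w + c = (w + c) + 1 * a by ring] at u1
      rw [show -(a : ℤ) + d = d + (-1) * a by ring] at u2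
      have u3 := mul_le_mul u1 u2 (norm_nonneg _) (norm_nonneg _)
      nlinarith [sq_nonneg (‖pc μ ((w + c) + 1 * a)‖ - ‖pc μ (d + (-1) * a)‖)]
    refine (Finset.sum_le_sum fun a _ => hpt a).trans ?_
    rw [← Finset.sum_div, Finset.sum_add_distrib]
    have v1 := b1 (w + c) (n + 1)
    have v2 := b2 d (n + 1)
    linarith
  · have := ((h1.comp (tendsto_add_atTop_nat 1)).add (h2.comp (tendsto_add_atTop_nat 1))).div_const 2
    simpa using this

theorem Wave.kill [NullSingletonClass μ] (hF : Wave P F) (hμ : Spec P F μ) (w c d : ℤ) :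
    Dd P F w 0 c d = Dd P F (w + 1) (-1) c d := by
  have t1 := hF.avg_lim hμ w (hF.spPr c d)
  have t2 := hF.wien hμ w c d
  have t3 := hF.wien hμ w d c
  have t := t1.sub (t2.add t3)
  rw [add_zero, sub_zero] at t
  have t4 : Tendsto (fun n : ℕ => (((n + 1 : ℕ) : ℂ))⁻¹ * ∑ a ∈ Finset.range (n + 1), sn a *
      Dd P F (a + w) (-a) c d) atTop (𝓝 0) := by
    refine t.congr fun n => ?_
    rw [← mul_add, ← mul_sub, ← Finset.sum_add_distrib, ← Finset.sum_sub_distrib]
    congr 1
    refine Finset.sum_congr rfl fun a _ => ?_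
    have e1 : (∫ ω, Pr F (a + w) (-a) ω * Pr F c d ω ∂P) = N4 P F (a + w) (-a) c d := rfl
    have e2 : (∫ ω, Pr F c d ω ∂P) = m2 P F c d := rfl
    rw [e1, e2, Dd, Wk]
    ring
  have hsub : Tendsto (fun m : ℕ => 2 * m + 1) atTop atTop :=
    tendsto_atTop_mono (fun m => by simp only [id]; omega) tendsto_id
  have t5 := t4.comp hsub
  have e : ∀ m : ℕ, ((fun n : ℕ => (((n + 1 : ℕ) : ℂ))⁻¹ * ∑ a ∈ Finset.range (n + 1), sn a *
      Dd P F (a + w) (-a) c d) ∘ fun m : ℕ => 2 * m + 1) m =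
      (Dd P F w 0 c d - Dd P F (w + 1) (-1) c d) / 2 := by
    intro m
    simp only [Function.comp]
    rw [show 2 * m + 1 + 1 = 2 * (m + 1) by ring,
      sum_alt (fun a : ℕ => Dd P F (a + w) (-a) c d) (Dd P F w 0 c d) (Dd P F (w + 1) (-1) c d)]
    · push_cast
      have : ((m : ℂ) + 1) ≠ 0 := by exact_mod_cast Nat.succ_ne_zero m
      field_simp
    · intro i
      rw [← hF.Dd_even w 0 c d i]
      congr 1 <;> push_cast <;> ring
    · intro i
      rw [← hF.Dd_even (w + 1) (-1) c d i]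
      congr 1 <;> push_cast <;> ring
  have t6 : Tendsto (fun _ : ℕ => (Dd P F w 0 c d - Dd P F (w + 1) (-1) c d) / 2) atTop (𝓝 0) :=
    t5.congr e
  have h := tendsto_nhds_unique t6 tendsto_const_nhds
  have h2 : Dd P F w 0 c d - Dd P F (w + 1) (-1) c d = 0 := by
    have := h.symm
    rw [div_eq_zero_iff] at this
    exact this.resolve_right two_ne_zero
  exact sub_eq_zero.1 h2

theorem Wave.Dd_move [NullSingletonClass μ] (hF : Wave P F) (hμ : Spec P F μ) (a b c d : ℤ) :
    Dd P F (a + 1) b c d = Dd P F a (b + 1) c d := by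
  rcases Int.even_or_odd' b with ⟨p, hp | hp⟩
  · have e1 : Dd P F (a + 1) b c d = Dd P F (a + 1 + b) 0 c d := by
      rw [← hF.Dd_even (a + 1 + b) 0 c d (-p), hp]
      congr 1 <;> ring
    have e2 : Dd P F a (b + 1) c d = Dd P F (a + 1 + b + 1) (-1) c d := by
      rw [← hF.Dd_even (a + 1 + b + 1) (-1) c d (-p - 1), hp]
      congr 1 <;> ring
    rw [e1, e2]
    exact hF.kill hμ _ _ _
  · have e1 : Dd P F (a + 1) b c d = Dd P F (a + 1 + b + 1) (-1) c d := by
      rw [← hF.Dd_even (a + 1 + b + 1) (-1) c d (-p - 1), hp]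
      congr 1 <;> ring
    have e2 : Dd P F a (b + 1) c d = Dd P F (a + 1 + b) 0 c d := by
      rw [← hF.Dd_even (a + 1 + b) 0 c d (-p - 1), hp]
      congr 1 <;> ring
    rw [e1, e2]
    exact (hF.kill hμ _ _ _).symm

theorem Wave.Dd_zero [NullSingletonClass μ] (hF : Wave P F) (hμ : Spec P F μ) (a b c d : ℤ) :
    Dd P F a b c d = 0 := by
  have m12 := hF.Dd_move hμ
  have m13 : ∀ a b c d, Dd P F (a + 1) b c d = Dd P F a b (c + 1) d := fun a b c d => by
    rw [Dd_23, m12, Dd_23]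
  have m14 : ∀ a b c d, Dd P F (a + 1) b c d = Dd P F a b c (d + 1) := fun a b c d => by
    rw [Dd_34, m13, Dd_34]
  have h := hF.Dd_up (a - 1) b c d
  rw [← m12, ← m13, ← m14, sub_add_cancel] at h
  have h4 : (4 : ℂ) * Dd P F a b c d = 0 := by linear_combination h
  exact (mul_eq_zero.1 h4).resolve_left (by norm_num)

theorem Wave.N4_eq [NullSingletonClass μ] (hF : Wave P F) (hμ : Spec P F μ) (a b c d : ℤ) :
    N4 P F a b c d = Wk P F a b c d := sub_eq_zero.1 (hF.Dd_zero hμ a b c d)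

theorem Wave.sq_le [NullSingletonClass μ] (hF : Wave P F) (hμ : Spec P F μ) (s t : ℤ) :
    ∫ ω, ‖Pr F s t ω‖ ^ 2 ∂P ≤ 3 * (μ.real univ * μ.real univ) := by
  set M := μ.real univ with hM
  have hM0 : 0 ≤ M := measureReal_nonneg
  have hm2 : ∀ a b, ‖m2 P F a b‖ ≤ M := fun a b => (hμ.m2le hF a b).trans (pc_le _)
  have h3 := congrArg norm (sq_Pr (P := P) (F := F) s t)
  rw [norm_real, Real.norm_of_nonneg (integral_nonneg fun _ => by positivity), norm_mul,
    norm_mul, nrm_sn, nrm_sn, hF.N4_eq hμ, Wk] at h3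
  rw [h3, one_mul, one_mul]
  refine norm_add₃_le.trans ?_
  rw [norm_mul, norm_mul, norm_mul]
  have k := fun a b c d : ℤ => mul_le_mul (hm2 a b) (hm2 c d) (norm_nonneg _) hM0
  linarith [k s t (-s) (-t), k s (-s) t (-t), k s (-t) t (-s)]

theorem Wave.four_le [NullSingletonClass μ] (hF : Wave P F) (hμ : Spec P F μ) (k : ℤ) :
    ∫ ω, ‖X F k ω‖ ^ 4 ∂P ≤ 3 * (μ.real univ * μ.real univ) := by
  refine le_trans (le_of_eq ?_) (hF.sq_le hμ k k)
  refine integral_congr_ae (ae_of_all _ fun ω => ?_)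
  simp only [Pr]
  rw [norm_mul]
  ring

theorem Wave.T3_zero [NullSingletonClass μ] (hF : Wave P F) (hμ : Spec P F μ) (a b c : ℤ) :
    T3 P F a b c = 0 := by
  obtain ⟨ε1, h1, b1⟩ := wiener μ 6 (by norm_num)
  obtain ⟨ε2, h2, b2⟩ := wiener μ (-6) (by norm_num)
  set V : ℕ → Ω → ℂ := fun p ω => Pr F (a + 6 * p) (b - 6 * p) ω - m2 P F a b * 1 with hV
  have hVs : ∀ p, Sp P 2 (V p) := fun p =>
    ((hF.spPr _ _).sub ((Sp.one (P := P)).smul (m2 P F a b)).1).1
  have hm : ∀ p : ℕ, m2 P F (a + 6 * p) (b - 6 * p) = m2 P F a b := by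
    intro p
    rw [hF.m2_eq, hF.m2_eq a b, show a + 6 * (p : ℤ) + (b - 6 * p) = a + b by ring]
    congr 1
    have : b - 6 * (p : ℤ) = b + -(3 * p + 3 * p) := by ring
    have h2 := sn_add b (-(3 * (p : ℤ) + 3 * p))
    rw [sn_neg, sn_add (3 * (p : ℤ)), sn_sq, mul_one] at h2
    rw [this]
    exact h2
  have hcross : ∀ p q : ℕ, ‖∫ ω, V p ω * conj (V q ω) ∂P‖ ≤
      (‖pc μ (6 * p + (-6) * q)‖ ^ 2 + ‖pc μ (-6 * p + 6 * q)‖ ^ 2) / 2 +
      (‖pc μ (a - b + 6 * p + 6 * q)‖ ^ 2 + ‖pc μ (b - a - 6 * p + (-6) * q)‖ ^ 2) / 2 := by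
    intro p q
    set s := a + 6 * (p : ℤ) with hs
    set t := b - 6 * (p : ℤ) with ht
    set s' := a + 6 * (q : ℤ) with hs'
    set t' := b - 6 * (q : ℤ) with ht'
    have e1 : (∫ ω, V p ω * conj (V q ω) ∂P) =
        sn s' * sn t' * (m2 P F s (-s') * m2 P F t (-t') + m2 P F s (-t') * m2 P F t (-s')) := by
      have i1 : Integrable (fun ω => Pr F s t ω * conj (Pr F s' t' ω)) P :=
        ((hF.spPr s t).inner (hF.spPr s' t').conj).1
      have i2 : Integrable (fun ω => Pr F s t ω * 1) P := ((hF.spPr s t).inner Sp.one).1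
      have i3 : Integrable (fun ω => conj (Pr F s' t' ω) * 1) P :=
        ((hF.spPr s' t').conj.inner Sp.one).1
      have e2 : ∀ ω, V p ω * conj (V q ω) = Pr F s t ω * conj (Pr F s' t' ω) -
          conj (m2 P F a b) * (Pr F s t ω * 1) - (m2 P F a b * (conj (Pr F s' t' ω) * 1) -
            m2 P F a b * conj (m2 P F a b)) := by
        intro ω
        simp only [hV]
        rw [map_sub, map_mul, map_one]
        ring
      simp only [e2]
      have j1 : Integrable (fun ω => Pr F s t ω * conj (Pr F s' t' ω) -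
          conj (m2 P F a b) * (Pr F s t ω * 1)) P := i1.sub (i2.const_mul _)
      have j2 : Integrable (fun ω => m2 P F a b * (conj (Pr F s' t' ω) * 1) -
          m2 P F a b * conj (m2 P F a b)) P := (i3.const_mul _).sub (integrable_const _)
      rw [integral_sub j1 j2, integral_sub i1 (i2.const_mul _),
        integral_sub (i3.const_mul _) (integrable_const _), integral_const_mul, integral_const_mul]
      simp only [mul_one, integral_const, probReal_univ, one_smul]
      rw [integral_conj]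
      have e3 : (∫ ω, Pr F s t ω ∂P) = m2 P F a b := hm p
      have e4 : (∫ ω, Pr F s' t' ω ∂P) = m2 P F a b := hm q
      rw [e3, e4]
      have e5 : (∫ ω, Pr F s t ω * conj (Pr F s' t' ω) ∂P) =
          sn s' * sn t' * N4 P F s t (-s') (-t') := by
        rw [N4, ← integral_const_mul]
        refine integral_congr_ae (ae_of_all _ fun ω => ?_)
        simp only [Pr]
        rw [map_mul, Wave.cj, Wave.cj, sn_natAbs, sn_natAbs]
        ring
      have e6 : sn s' * sn t' * m2 P F (-s') (-t') = conj (m2 P F a b) := by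
        rw [← e4, ← integral_conj, m2, ← integral_const_mul]
        refine integral_congr_ae (ae_of_all _ fun ω => ?_)
        simp only [Pr]
        rw [map_mul, Wave.cj, Wave.cj, sn_natAbs, sn_natAbs]
        ring
      have e7 : m2 P F s t = m2 P F a b := hm p
      rw [e5, hF.N4_eq hμ, Wk, e7]
      linear_combination m2 P F a b * e6
    rw [e1, norm_mul, norm_mul, nrm_sn, nrm_sn, one_mul, one_mul]
    refine (norm_add_le _ _).trans ?_
    rw [norm_mul, norm_mul]
    have u1 := hμ.m2le hF s (-s')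
    have u2 := hμ.m2le hF t (-t')
    have u3 := hμ.m2le hF s (-t')
    have u4 := hμ.m2le hF t (-s')
    rw [show s + -s' = 6 * (p : ℤ) + (-6) * q by rw [hs, hs']; ring] at u1
    rw [show t + -t' = -6 * (p : ℤ) + 6 * q by rw [ht, ht']; ring] at u2
    rw [show s + -t' = a - b + 6 * (p : ℤ) + 6 * q by rw [hs, ht']; ring] at u3
    rw [show t + -s' = b - a - 6 * (p : ℤ) + (-6) * q by rw [ht, hs']; ring] at u4
    have v1 := mul_le_mul u1 u2 (norm_nonneg _) (norm_nonneg _)
    have v2 := mul_le_mul u3 u4 (norm_nonneg _) (norm_nonneg _)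
    nlinarith [sq_nonneg (‖pc μ (6 * p + (-6) * q)‖ - ‖pc μ (-6 * p + 6 * q)‖),
      sq_nonneg (‖pc μ (a - b + 6 * p + 6 * q)‖ - ‖pc μ (b - a - 6 * p + (-6) * q)‖)]
  -- second moments of averages
  have hB : ∀ J : ℕ, ∫ ω, ‖∑ p ∈ Finset.range J, V p ω‖ ^ 2 ∂P ≤ J * (J * (ε1 J + ε2 J)) := by
    intro J
    have hs : Sp P 2 (fun ω => ∑ p ∈ Finset.range J, V p ω) := by
      induction J with
      | zero => simpa using (((Sp.one (P := P)).smul 0).1)
      | succ J ih => simpa only [Finset.sum_range_succ] using (ih.add (hVs J)).1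
    have e1 : ((∫ ω, ‖∑ p ∈ Finset.range J, V p ω‖ ^ 2 ∂P : ℝ) : ℂ) =
        ∑ p ∈ Finset.range J, ∑ q ∈ Finset.range J, ∫ ω, V p ω * conj (V q ω) ∂P := by
      rw [← integral_complex_ofReal]
      have e2 : ∀ ω, ((‖∑ p ∈ Finset.range J, V p ω‖ ^ 2 : ℝ) : ℂ) =
          ∑ p ∈ Finset.range J, ∑ q ∈ Finset.range J, V p ω * conj (V q ω) := by
        intro ω
        have h1 : ((‖∑ p ∈ Finset.range J, V p ω‖ ^ 2 : ℝ) : ℂ) =
            (∑ p ∈ Finset.range J, V p ω) * conj (∑ p ∈ Finset.range J, V p ω) := by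
          rw [Complex.mul_conj, Complex.normSq_eq_norm_sq]
        rw [h1, map_sum, Finset.sum_mul]
        refine Finset.sum_congr rfl fun p _ => ?_
        rw [Finset.mul_sum]
      simp only [e2]
      have hi : ∀ p q, Integrable (fun ω => V p ω * conj (V q ω)) P := fun p q =>
        ((hVs p).inner (hVs q).conj).1
      rw [integral_finsetSum _ (fun p _ => integrable_finsetSum _ fun q _ => hi p q)]
      refine Finset.sum_congr rfl fun p _ => ?_
      rw [integral_finsetSum _ (fun q _ => hi p q)]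
    have e3 := congrArg norm e1
    rw [norm_real, Real.norm_of_nonneg (integral_nonneg fun _ => by positivity)] at e3
    rw [e3]
    refine (norm_sum_le _ _).trans ?_
    have hp : ∀ p ∈ Finset.range J, ‖∑ q ∈ Finset.range J, ∫ ω, V p ω * conj (V q ω) ∂P‖ ≤
        J * (ε1 J + ε2 J) := by
      intro p _
      refine (norm_sum_le _ _).trans ((Finset.sum_le_sum fun q _ => hcross p q).trans ?_)
      rw [Finset.sum_add_distrib, ← Finset.sum_div, ← Finset.sum_div, Finset.sum_add_distrib,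
        Finset.sum_add_distrib]
      have w1 := b2 (6 * p) J
      have w2 := b1 (-6 * p) J
      have w3 := b1 (a - b + 6 * p) J
      have w4 := b2 (b - a - 6 * p) J
      linarith
    refine (Finset.sum_le_sum hp).trans (le_of_eq ?_)
    simp
  have hT : ∀ J : ℕ, (J : ℝ) * ‖T3 P F a b c‖ ≤
      √(J * (J * (ε1 J + ε2 J))) * √(∫ ω, ‖X F c ω‖ ^ 2 ∂P) := by
    intro J
    have hs : Sp P 2 (fun ω => ∑ p ∈ Finset.range J, V p ω) := by
      induction J with
      | zero => simpa using (((Sp.one (P := P)).smul 0).1)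
      | succ J ih => simpa only [Finset.sum_range_succ] using (ih.add (hVs J)).1
    have t := (hs.inner (hF.difX c).s0).2
    have e : (∫ ω, (∑ p ∈ Finset.range J, V p ω) * X F c ω ∂P) = J * T3 P F a b c := by
      simp only [Finset.sum_mul]
      rw [integral_finsetSum _ (fun p _ => ((hVs p).inner (hF.difX c).s0).1)]
      have e2 : ∀ p : ℕ, (∫ ω, V p ω * X F c ω ∂P) = T3 P F a b c := by
        intro p
        have i1 := hF.T3_int (a + 6 * p) (b - 6 * p) c
        have i2 : Integrable (fun ω => X F c ω * 1) P := ((hF.difX c).s0.inner Sp.one).1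
        have e3 : ∀ ω, V p ω * X F c ω = Pr F (a + 6 * p) (b - 6 * p) ω * X F c ω -
            m2 P F a b * (X F c ω * 1) := fun ω => by simp only [hV]; ring
        simp only [e3]
        rw [integral_sub i1 (i2.const_mul _), integral_const_mul]
        simp only [mul_one]
        rw [hF.EX, mul_zero, sub_zero]
        exact hF.T3_six a b c p
      simp only [e2, Finset.sum_const, Finset.card_range, nsmul_eq_mul]
    rw [e, norm_mul, Complex.norm_natCast] at t
    exact t.trans (mul_le_mul_of_nonneg_right (Real.sqrt_le_sqrt (hB J)) (Real.sqrt_nonneg _))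
  have hlim : Tendsto (fun J : ℕ => √(ε1 J + ε2 J) * √(∫ ω, ‖X F c ω‖ ^ 2 ∂P)) atTop (𝓝 0) := by
    have h3 := (Real.continuous_sqrt.tendsto 0).comp (show Tendsto (fun J => ε1 J + ε2 J) atTop (𝓝 0) by
      simpa using h1.add h2)
    rw [Real.sqrt_zero] at h3
    have := h3.mul_const (√(∫ ω, ‖X F c ω‖ ^ 2 ∂P))
    simpa using this
  have hle : ‖T3 P F a b c‖ ≤ 0 := by
    refine ge_of_tendsto hlim ?_
    filter_upwards [eventually_ge_atTop 1] with J hJ
    have hJ0 : (0 : ℝ) < J := by exact_mod_cast hJ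
    have h4 := hT J
    rw [← mul_assoc, Real.sqrt_mul (by positivity), ← pow_two, Real.sqrt_sq hJ0.le, mul_assoc] at h4
    exact le_of_mul_le_mul_left h4 hJ0
  exact norm_le_zero_iff.1 hle

end erg

end

end Pool.Agent.H486.RF
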