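import Pool.Agent.H486.RF.Erg

/-!
# Fourth order relations of ergodic waves
-/

set_option autoImplicit false

open MeasureTheory Complex Filter Topology Set Metric
open scoped ComplexConjugate ENNReal InnerProductSpace

namespace Pool.Agent.H486.RF

noncomputable section

variable {Ω : Type*} [MeasurableSpace Ω] [AddAction ℂ Ω] [MeasurableConstVAdd ℂ Ω]
  {P : Measure Ω} {F : Ω → ℝ}

/-- products -/
def Pr (F : Ω → ℝ) (a b : ℤ) (ω : Ω) : ℂ := X F a ω * X F b ω

/-- two point moments -/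
def m2 (P : Measure Ω) (F : Ω → ℝ) (a b : ℤ) : ℂ := ∫ ω, Pr F a b ω ∂P

/-- four point moments at two positions -/
def ee (P : Measure Ω) (F : Ω → ℝ) (x : ℂ) (a b c d : ℤ) : ℂ :=
  ∫ ω, Pr F a b (x +ᵥ ω) * Pr F c d ω ∂P

/-- four point moments -/
def N4 (P : Measure Ω) (F : Ω → ℝ) (a b c d : ℤ) : ℂ := ∫ ω, Pr F a b ω * Pr F c d ω ∂P

/-- three point moments -/
def T3 (P : Measure Ω) (F : Ω → ℝ) (a b c : ℤ) : ℂ := ∫ ω, Pr F a b ω * X F c ω ∂P

omit [MeasurableSpace Ω] [MeasurableConstVAdd ℂ Ω] in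
theorem Pr_comm (a b : ℤ) (ω : Ω) : Pr F a b ω = Pr F b a ω := mul_comm _ _

section

variable [VAddInvariantMeasure ℂ Ω P] [IsProbabilityMeasure P]

theorem Wave.difPr (hF : Wave P F) (a b : ℤ) :
    Dif P 2 (Pr F a b) (fun ω => Pr F (a + 1) b ω + Pr F a (b + 1) ω)
      (fun ω => Pr F (a - 1) b ω + Pr F a (b - 1) ω) :=
  (hF.dif a).mul (hF.dif b)

theorem Wave.difX (hF : Wave P F) (a : ℤ) :
    Dif P 2 (X F a) (X F (a + 1)) (X F (a - 1)) := by
  have h := (hF.dif a).mul (Dif.one (P := P) (p := 4) (by norm_num))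
  simpa using h

theorem Wave.spPr (hF : Wave P F) (a b : ℤ) : Sp P 2 (Pr F a b) := (hF.difPr a b).s0

theorem Wave.int_mul (hF : Wave P F) (x : ℂ) (a b c d : ℤ) :
    Integrable (fun ω => Pr F a b (x +ᵥ ω) * Pr F c d ω) P :=
  (((hF.spPr a b).vadd x).inner (hF.spPr c d)).1

theorem Wave.ee_up (hF : Wave P F) (x : ℂ) (a b c d : ℤ) :
    ee P F x (a + 1) b c d + ee P F x a (b + 1) c d + ee P F x a b (c + 1) d +
      ee P F x a b c (d + 1) = 0 := by
  have h := (((hF.difPr a b).vadd x).stat (hF.difPr c d)).1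
  simp only [add_mul, mul_add] at h
  rw [integral_add (hF.int_mul _ _ _ _ _) (hF.int_mul _ _ _ _ _),
    integral_add (hF.int_mul _ _ _ _ _) (hF.int_mul _ _ _ _ _)] at h
  simp only [ee]
  linear_combination h

theorem Wave.ee_down (hF : Wave P F) (x : ℂ) (a b c d : ℤ) :
    ee P F x (a - 1) b c d + ee P F x a (b - 1) c d + ee P F x a b (c - 1) d +
      ee P F x a b c (d - 1) = 0 := by
  have h := (((hF.difPr a b).vadd x).stat (hF.difPr c d)).2
  simp only [add_mul, mul_add] at h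
  rw [integral_add (hF.int_mul _ _ _ _ _) (hF.int_mul _ _ _ _ _),
    integral_add (hF.int_mul _ _ _ _ _) (hF.int_mul _ _ _ _ _)] at h
  simp only [ee]
  linear_combination h

theorem Wave.ee_cov (hF : Wave P F) (a b c d : ℤ) : ∃ C : ℝ, ∀ x h : ℂ, ‖h‖ ≤ 1 →
    ‖ee P F (x + h) a b c d - ee P F x a b c d -
      (h / 2 * (ee P F x (a + 1) b c d + ee P F x a (b + 1) c d) -
        conj h / 2 * (ee P F x (a - 1) b c d + ee P F x a (b - 1) c d))‖ ≤ C * ‖h‖ ^ 2 := by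
  obtain ⟨C, hC⟩ := (hF.difPr a b).cov (hF.spPr c d)
  refine ⟨C, fun x h hh => ?_⟩
  have := hC x h hh
  simp only [add_mul] at this
  rw [integral_add (hF.int_mul _ _ _ _ _) (hF.int_mul _ _ _ _ _),
    integral_add (hF.int_mul _ _ _ _ _) (hF.int_mul _ _ _ _ _)] at this
  exact this

/-- the difference of shifted covariance functions does not depend on the position -/
theorem Wave.ee_const (hF : Wave P F) (a b c d : ℤ) (x : ℂ) :
    ee P F x (a + 1) (b + 1) (c - 1) (d - 1) - ee P F x a b c d =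
      ee P F 0 (a + 1) (b + 1) (c - 1) (d - 1) - ee P F 0 a b c d := by
  obtain ⟨C1, h1⟩ := hF.ee_cov (a + 1) (b + 1) (c - 1) (d - 1)
  obtain ⟨C2, h2⟩ := hF.ee_cov a b c d
  refine const_of_sq (g := fun x => ee P F x (a + 1) (b + 1) (c - 1) (d - 1) - ee P F x a b c d)
    (C := C1 + C2) (fun x h hh => ?_) x
  have u1 := hF.ee_up x (a + 1) (b + 1) (c - 1) (d - 1)
  have u2 := hF.ee_down x (a + 1) (b + 1) c d
  have v1 := hF.ee_down x a b c d
  have v2 := hF.ee_up x a b (c - 1) (d - 1)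
  have s1 : a + 1 - 1 = a := by ring
  have s2 : b + 1 - 1 = b := by ring
  have s3 : c - 1 + 1 = c := by ring
  have s4 : d - 1 + 1 = d := by ring
  rw [s3, s4] at u1 v2
  rw [s1, s2] at u2
  have t1 := h1 x h hh
  have t2 := h2 x h hh
  rw [s1, s2] at t1
  have e : ee P F (x + h) (a + 1) (b + 1) (c - 1) (d - 1) - ee P F (x + h) a b c d -
      (ee P F x (a + 1) (b + 1) (c - 1) (d - 1) - ee P F x a b c d) =
      (ee P F (x + h) (a + 1) (b + 1) (c - 1) (d - 1) - ee P F x (a + 1) (b + 1) (c - 1) (d - 1) -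
      (h / 2 * (ee P F x (a + 1 + 1) (b + 1) (c - 1) (d - 1) +
        ee P F x (a + 1) (b + 1 + 1) (c - 1) (d - 1)) -
        conj h / 2 * (ee P F x a (b + 1) (c - 1) (d - 1) + ee P F x (a + 1) b (c - 1) (d - 1)))) -
      (ee P F (x + h) a b c d - ee P F x a b c d -
      (h / 2 * (ee P F x (a + 1) b c d + ee P F x a (b + 1) c d) -
        conj h / 2 * (ee P F x (a - 1) b c d + ee P F x a (b - 1) c d))) := by
    linear_combination (h / 2) * u1 - (h / 2) * u2 - (conj h / 2) * v2 + (conj h / 2) * v1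
  rw [e]
  refine (norm_sub_le _ _).trans ?_
  linarith

omit [IsProbabilityMeasure P] [VAddInvariantMeasure ℂ Ω P] in
theorem ee_zero (a b c d : ℤ) : ee P F 0 a b c d = N4 P F a b c d := by
  simp only [ee, N4, zero_vadd]

end

variable [ErgodicVAdd ℂ Ω P] [IsProbabilityMeasure P]

/-- pair shift relation -/
theorem Wave.shift (hF : Wave P F) (a b c d : ℤ) :
    N4 P F (a + 1) (b + 1) (c - 1) (d - 1) - N4 P F a b c d =
      m2 P F (a + 1) (b + 1) * m2 P F (c - 1) (d - 1) - m2 P F a b * m2 P F c d := by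
  have t1 := sq_lim (hF.difPr (a + 1) (b + 1)) (hF.spPr (c - 1) (d - 1))
  have t2 := sq_lim (hF.difPr a b) (hF.spPr c d)
  have t := t1.sub t2
  refine tendsto_nhds_unique (f := fun _ : ℕ => N4 P F (a + 1) (b + 1) (c - 1) (d - 1) -
    N4 P F a b c d) tendsto_const_nhds (t.congr fun n => ?_)
  rw [← mul_sub, ← Finset.sum_sub_distrib]
  have e : ∀ j k : ℕ,
      (∫ ω, Pr F (a + 1) (b + 1) ((((j / (n + 1 : ℕ) : ℝ) : ℂ) +
        ((k / (n + 1 : ℕ) : ℝ) : ℂ) * I) +ᵥ ω) * Pr F (c - 1) (d - 1) ω ∂P) -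
      (∫ ω, Pr F a b ((((j / (n + 1 : ℕ) : ℝ) : ℂ) +
        ((k / (n + 1 : ℕ) : ℝ) : ℂ) * I) +ᵥ ω) * Pr F c d ω ∂P) =
      N4 P F (a + 1) (b + 1) (c - 1) (d - 1) - N4 P F a b c d := by
    intro j k
    have := hF.ee_const a b c d (((j / (n + 1 : ℕ) : ℝ) : ℂ) + ((k / (n + 1 : ℕ) : ℝ) : ℂ) * I)
    rw [ee_zero, ee_zero] at this
    exact this
  simp only [← mul_sub, ← Finset.sum_sub_distrib, e, Finset.sum_const, Finset.card_range,
    nsmul_eq_mul]
  have hn : (((n + 1 : ℕ) : ℂ)) ≠ 0 := Nat.cast_ne_zero.2 (Nat.succ_ne_zero n)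
  push_cast at hn ⊢
  field_simp

end

end Pool.Agent.H486.RF
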