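import Pool.Agent.H486.RF.Cum

/-!
# The fourth cumulants vanish
-/

set_option autoImplicit false

open MeasureTheory Complex Filter Topology Set Metric
open scoped ComplexConjugate ENNReal InnerProductSpace

namespace Pool.Agent.H486.RF

noncomputable section

variable {Ω : Type*} [MeasurableSpace Ω] [AddAction ℂ Ω] [MeasurableConstVAdd ℂ Ω]
  {P : Measure Ω} {F : Ω → ℝ}

/-- sign -/
def sn (k : ℤ) : ℂ := (-1) ^ k

theorem sn_add (a b : ℤ) : sn (a + b) = sn a * sn b := zpow_add₀ (by norm_num) a b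

theorem sn_one : sn 1 = -1 := by simp [sn]

theorem sn_succ (a : ℤ) : sn (a + 1) = -sn a := by rw [sn_add, sn_one]; ring

theorem sn_zero : sn 0 = 1 := by simp [sn]

theorem sn_neg (a : ℤ) : sn (-a) = sn a := by
  rw [sn, sn, zpow_neg, ← inv_zpow]
  norm_num

theorem sn_sq (a : ℤ) : sn a * sn a = 1 := by
  have h := sn_add a (-a)
  rw [add_neg_cancel, sn_zero, sn_neg] at h
  exact h.symm

theorem nrm_sn (a : ℤ) : ‖sn a‖ = 1 := by rw [sn, norm_zpow, norm_neg, norm_one, one_zpow]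

theorem sn_natAbs (a : ℤ) : (-1 : ℂ) ^ a.natAbs = sn a := by
  obtain ⟨n, rfl | rfl⟩ := a.eq_nat_or_neg
  · rw [Int.natAbs_natCast, sn, zpow_natCast]
  · rw [Int.natAbs_neg, Int.natAbs_natCast, sn_neg, sn, zpow_natCast]

/-- spectral data -/
structure Spec (P : Measure Ω) (F : Ω → ℝ) (μ : Measure ℝ) : Prop where
  cov : ∀ x : ℂ, ∫ ω, F (x +ᵥ ω) * F ω ∂P = ∫ θ : ℝ, Real.cos ((x * conj (cis θ)).re) ∂μ

section stat

variable [VAddInvariantMeasure ℂ Ω P] [IsProbabilityMeasure P] {μ : Measure ℝ} [IsFiniteMeasure μ]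

theorem Spec.kapQ (hF : Wave P F) (hμ : Spec P F μ) (k : ℤ) (x : ℂ) : kap P F k 0 x = Q μ k x := by
  refine (hF.kap_lad 0).uniq (Q_lad μ) (fun x => ?_) k x
  have h := hμ.cov x
  have e1 : kap P F 0 0 x = ((∫ ω, F (x +ᵥ ω) * F ω ∂P : ℝ) : ℂ) := by
    rw [← integral_complex_ofReal, RF.kap]
    refine integral_congr_ae (ae_of_all _ fun ω => ?_)
    simp only [X_zero]
    push_cast
    rfl
  rw [e1, h, ← integral_complex_ofReal, Q]
  refine integral_congr_ae (ae_of_all _ fun θ => ?_)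
  simp only [wv, zpow_zero, one_mul]
  have e2 : ((x * conj (-1 * cis θ)).re : ℂ) = -((x * conj (cis θ)).re : ℂ) := by
    rw [map_mul, map_neg, map_one, neg_one_mul, mul_neg, Complex.neg_re]
    push_cast
    rfl
  rw [e2, Complex.ofReal_cos, Complex.cos]
  congr 2
  · congr 1; ring
  · congr 1; ring

theorem Spec.m2le (hF : Wave P F) (hμ : Spec P F μ) (a b : ℤ) : ‖m2 P F a b‖ ≤ ‖pc μ (a + b)‖ := by
  rw [hF.m2_eq, norm_mul, norm_zpow, norm_neg, norm_one, one_zpow, one_mul]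
  have h := hμ.kapQ hF (a + b) 0
  have e : RF.kap P F (a + b) 0 0 = RF.m2 P F (a + b) 0 := by
    simp only [RF.kap, RF.m2, Pr, zero_vadd]
  rw [← e, h]
  exact Q_norm μ (a + b)

theorem pc_le (n : ℤ) : ‖pc μ n‖ ≤ μ.real univ := by
  rw [pc]
  refine (norm_integral_le_of_norm_le_const (C := 1) (ae_of_all _ fun θ => ?_)).trans ?_
  · rw [norm_zpow, nrm_z (nrm_cis θ), one_zpow]
  · rw [one_mul]

omit [VAddInvariantMeasure ℂ Ω P] [IsProbabilityMeasure P] in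
theorem sq_Pr (s t : ℤ) : ((∫ ω, ‖Pr F s t ω‖ ^ 2 ∂P : ℝ) : ℂ) =
    sn s * sn t * N4 P F s t (-s) (-t) := by
  rw [← integral_complex_ofReal, N4, ← integral_const_mul]
  refine integral_congr_ae (ae_of_all _ fun ω => ?_)
  have h1 : ((‖Pr F s t ω‖ ^ 2 : ℝ) : ℂ) = Pr F s t ω * conj (Pr F s t ω) := by
    rw [Complex.mul_conj, Complex.normSq_eq_norm_sq]
  simp only
  rw [h1]
  simp only [Pr]
  rw [map_mul, Wave.cj, Wave.cj, sn_natAbs, sn_natAbs]
  ring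

theorem Wave.S_dif (hF : Wave P F) (w : ℤ) (J : ℕ) :
    Dif P 2 (fun ω => ∑ a ∈ Finset.range J, sn a * Pr F (a + w) (-a) ω)
      (fun ω => Pr F w 1 ω - sn J * Pr F (J + w) (-J + 1) ω)
      (fun ω => Pr F (w - 1) 0 ω - sn J * Pr F (J + w - 1) (-J) ω) := by
  induction J with
  | zero =>
    have h := (Dif.one (P := P) (p := 2) (by norm_num)).smul 0
    have e1 : (fun ω => Pr F w 1 ω - sn ((0 : ℕ) : ℤ) * Pr F (((0 : ℕ) : ℤ) + w)
        (-((0 : ℕ) : ℤ) + 1) ω) = fun _ : Ω => (0 : ℂ) := by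
      funext ω; simp [sn_zero]
    have e2 : (fun ω => Pr F (w - 1) 0 ω - sn ((0 : ℕ) : ℤ) * Pr F (((0 : ℕ) : ℤ) + w - 1)
        (-((0 : ℕ) : ℤ)) ω) = fun _ : Ω => (0 : ℂ) := by
      funext ω; simp [sn_zero]
    rw [e1, e2]
    simpa using h
  | succ J ih =>
    have h := ih.add ((hF.difPr ((J : ℤ) + w) (-(J : ℤ))).smul (sn J))
    have e0 : (fun ω => ∑ a ∈ Finset.range (J + 1), sn a * Pr F (a + w) (-a) ω) = fun ω =>
        (∑ a ∈ Finset.range J, sn a * Pr F (a + w) (-a) ω) + sn J * Pr F (J + w) (-J) ω := by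
      funext ω; rw [Finset.sum_range_succ]
    have e1 : (fun ω => Pr F w 1 ω - sn ((J + 1 : ℕ) : ℤ) * Pr F (((J + 1 : ℕ) : ℤ) + w)
        (-((J + 1 : ℕ) : ℤ) + 1) ω) = fun ω => (Pr F w 1 ω - sn J * Pr F (J + w) (-J + 1) ω) +
        sn J * (Pr F (J + w + 1) (-J) ω + Pr F (J + w) (-J + 1) ω) := by
      funext ω
      rw [show ((J + 1 : ℕ) : ℤ) = (J : ℤ) + 1 by push_cast; ring, sn_succ,
        show (J : ℤ) + 1 + w = J + w + 1 by ring, show -((J : ℤ) + 1) + 1 = -J by ring]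
      ring
    have e2 : (fun ω => Pr F (w - 1) 0 ω - sn ((J + 1 : ℕ) : ℤ) * Pr F (((J + 1 : ℕ) : ℤ) + w - 1)
        (-((J + 1 : ℕ) : ℤ)) ω) = fun ω => (Pr F (w - 1) 0 ω - sn J * Pr F (J + w - 1) (-J) ω) +
        sn J * (Pr F (J + w - 1) (-J) ω + Pr F (J + w) (-J - 1) ω) := by
      funext ω
      rw [show ((J + 1 : ℕ) : ℤ) = (J : ℤ) + 1 by push_cast; ring, sn_succ,
        show (J : ℤ) + 1 + w - 1 = J + w by ring, show -((J : ℤ) + 1) = -J - 1 by ring]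
      ring
    rw [e0, e1, e2]
    exact h

end stat

section erg

variable [ErgodicVAdd ℂ Ω P] [IsProbabilityMeasure P] {μ : Measure ℝ} [IsFiniteMeasure μ]

theorem Wave.Dd_shift (hF : Wave P F) (a b c d : ℤ) :
    Dd P F (a + 1) (b + 1) (c - 1) (d - 1) = Dd P F a b c d := by
  have h := hF.shift a b c d
  have h3 := hF.m2_rel a (c - 1)
  have h4 := hF.m2_rel b (d - 1)
  have h5 := hF.m2_rel a (d - 1)
  have h6 := hF.m2_rel b (c - 1)
  simp only [sub_add_cancel] at h3 h4 h5 h6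
  simp only [Dd, Wk]
  linear_combination h - m2 P F (b + 1) (d - 1) * h3 + m2 P F a c * h4 -
    m2 P F (b + 1) (c - 1) * h5 + m2 P F a d * h6

theorem Wave.Dd_two (hF : Wave P F) (a b c d : ℤ) :
    Dd P F (a + 2) (b - 2) c d = Dd P F a b c d := by
  have h1 := hF.Dd_shift a c b d
  have h2 := hF.Dd_shift (a + 1) (d - 1) (b - 1) (c + 1)
  rw [show a + 1 + 1 = a + 2 by ring, show d - 1 + 1 = d by ring, show b - 1 - 1 = b - 2 by ring,
    show c + 1 - 1 = c by ring] at h2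
  -- h2 : D (a+2) d (b-2) c = D (a+1) (d-1) (b-1) (c+1)
  -- h1 : D (a+1) (c+1) (b-1) (d-1) = D a c b d
  have s1 : Dd P F (a + 2) (b - 2) c d = Dd P F (a + 2) d (b - 2) c := by
    rw [Dd_34, Dd_23]
  have s2 : Dd P F (a + 1) (d - 1) (b - 1) (c + 1) = Dd P F (a + 1) (c + 1) (b - 1) (d - 1) := by
    rw [Dd_23, Dd_34, Dd_23]
  have s3 : Dd P F a c b d = Dd P F a b c d := Dd_23 _ _ _ _
  rw [s1, h2, s2, h1, s3]

theorem Wave.Dd_even (hF : Wave P F) (a b c d p : ℤ) :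
    Dd P F (a + 2 * p) (b - 2 * p) c d = Dd P F a b c d := by
  induction p using Int.induction_on with
  | zero => simp
  | succ n ih =>
    rw [← ih, ← hF.Dd_two (a + 2 * n)]
    congr 1 <;> ring
  | pred n ih =>
    rw [← ih, ← hF.Dd_two (a + 2 * (-(n : ℤ) - 1))]
    congr 1 <;> ring

theorem Wave.Dd_even' (hF : Wave P F) (a b c d p : ℤ) :
    Dd P F a b (c + 2 * p) (d - 2 * p) = Dd P F a b c d := by
  have e : ∀ a b c d, Dd P F a b c d = Dd P F c d a b := by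
    intro a b c d
    rw [Dd_23, Dd_12, Dd_34, Dd_23]
  rw [e, hF.Dd_even, ← e]

/-- uniform bounds for the second moments of products along a line -/
theorem Wave.bound (hF : Wave P F) (hμ : Spec P F μ) (w : ℤ) :
    ∃ C : ℝ, 0 ≤ C ∧ ∀ a : ℤ, ∫ ω, ‖Pr F (a + w) (-a) ω‖ ^ 2 ∂P ≤ C := by
  set M := μ.real univ with hM
  have hM0 : 0 ≤ M := measureReal_nonneg
  have hm2 : ∀ a b, ‖m2 P F a b‖ ≤ M := fun a b => (hμ.m2le hF a b).trans (pc_le _)
  set C0 := ‖Dd P F w 0 (-w) 0‖ with hC0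
  set C1 := ‖Dd P F (1 + w) (-1) (-1 - w) 1‖ with hC1
  refine ⟨3 * (M * M) + (C0 + C1), by positivity, fun a => ?_⟩
  have h1 := sq_Pr (P := P) (F := F) (a + w) (-a)
  have h2 : ∫ ω, ‖Pr F (a + w) (-a) ω‖ ^ 2 ∂P = ‖N4 P F (a + w) (-a) (-(a + w)) a‖ := by
    have h3 := congrArg norm h1
    rw [norm_real, Real.norm_of_nonneg (integral_nonneg fun _ => by positivity), norm_mul,
      norm_mul, nrm_sn, nrm_sn, neg_neg] at h3
    rw [h3]
    ring
  rw [h2]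
  have hW : ‖Wk P F (a + w) (-a) (-(a + w)) a‖ ≤ 3 * (M * M) := by
    rw [Wk]
    refine norm_add₃_le.trans ?_
    rw [norm_mul, norm_mul, norm_mul]
    have k := fun a b c d : ℤ => mul_le_mul (hm2 a b) (hm2 c d) (norm_nonneg _) hM0
    linarith [k (a + w) (-a) (-(a + w)) a, k (a + w) (-(a + w)) (-a) a, k (a + w) a (-a) (-(a + w))]
  have hD : ‖Dd P F (a + w) (-a) (-(a + w)) a‖ ≤ C0 + C1 := by
    have hc0 : 0 ≤ C0 := norm_nonneg _
    have hc1 : 0 ≤ C1 := norm_nonneg _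
    rcases Int.even_or_odd' a with ⟨p, hp | hp⟩
    · have e : Dd P F (a + w) (-a) (-(a + w)) a = Dd P F w 0 (-w) 0 := by
        rw [← hF.Dd_even w 0 (-w) 0 p, ← hF.Dd_even' (w + 2 * p) (0 - 2 * p) (-w) 0 (-p), hp]
        congr 1 <;> ring
      rw [e]; linarith
    · have e : Dd P F (a + w) (-a) (-(a + w)) a = Dd P F (1 + w) (-1) (-1 - w) 1 := by
        rw [← hF.Dd_even (1 + w) (-1) (-1 - w) 1 p,
          ← hF.Dd_even' (1 + w + 2 * p) (-1 - 2 * p) (-1 - w) 1 (-p), hp]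
        congr 1 <;> ring
      rw [e]; linarith
  have e : N4 P F (a + w) (-a) (-(a + w)) a = Wk P F (a + w) (-a) (-(a + w)) a +
      Dd P F (a + w) (-a) (-(a + w)) a := by rw [Dd]; ring
  rw [e]
  exact (norm_add_le _ _).trans (add_le_add hW hD)

/-- index averages are asymptotically uncorrelated from everything else -/
theorem Wave.avg_lim (hF : Wave P F) (hμ : Spec P F μ) (w : ℤ) {H : Ω → ℂ} (hH : Sp P 2 H) :
    Tendsto (fun n : ℕ => (((n + 1 : ℕ) : ℂ))⁻¹ * ∑ a ∈ Finset.range (n + 1), sn a *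
      ((∫ ω, Pr F (a + w) (-a) ω * H ω ∂P) - m2 P F (a + w) (-a) * ∫ ω, H ω ∂P)) atTop (𝓝 0) := by
  obtain ⟨C0, hC0, b0⟩ := hF.bound hμ w
  obtain ⟨C1, hC1, b1⟩ := hF.bound hμ (w + 1)
  obtain ⟨C2, hC2, b2⟩ := hF.bound hμ (w - 1)
  set A : ℕ → Ω → ℂ := fun n ω => (((n + 1 : ℕ) : ℂ))⁻¹ *
    ∑ a ∈ Finset.range (n + 1), sn a * Pr F (a + w) (-a) ω with hA
  have hD := fun n : ℕ => (hF.S_dif w (n + 1)).smul ((((n + 1 : ℕ) : ℂ))⁻¹)
  have hG : ∀ n, Sp P 2 (A n) := fun n => (hD n).s0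
  have hni : ∀ n : ℕ, ‖(((n + 1 : ℕ) : ℂ))⁻¹‖ = (((n + 1 : ℕ) : ℝ))⁻¹ := fun n => by
    rw [norm_inv, Complex.norm_natCast]
  have hb : ∀ n, ∫ ω, ‖A n ω‖ ^ 2 ∂P ≤ C0 := by
    intro n
    have hn : (0 : ℝ) < ((n + 1 : ℕ) : ℝ) := by positivity
    have hpt : ∀ ω, ‖A n ω‖ ^ 2 ≤ (((n + 1 : ℕ) : ℝ))⁻¹ *
        ∑ a ∈ Finset.range (n + 1), ‖Pr F (a + w) (-a) ω‖ ^ 2 := by
      intro ω
      simp only [hA]
      rw [norm_mul, hni, mul_pow]
      have h1 : ‖∑ a ∈ Finset.range (n + 1), sn a * Pr F (a + w) (-a) ω‖ ≤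
          ∑ a ∈ Finset.range (n + 1), ‖Pr F (a + w) (-a) ω‖ := by
        refine (norm_sum_le _ _).trans (le_of_eq (Finset.sum_congr rfl fun a _ => ?_))
        rw [norm_mul, nrm_sn, one_mul]
      have h2 := sq_sum_le_card_mul_sum_sq (s := Finset.range (n + 1))
        (f := fun a : ℕ => ‖Pr F (a + w) (-a) ω‖)
      rw [Finset.card_range] at h2
      have h3 := (pow_le_pow_left₀ (norm_nonneg _) h1 2).trans h2
      have h4 := mul_le_mul_of_nonneg_left h3 (show 0 ≤ ((((n + 1 : ℕ) : ℝ))⁻¹) ^ 2 by positivity)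
      refine h4.trans (le_of_eq ?_)
      field_simp
    have hi : ∀ a : ℕ, Integrable (fun ω => ‖Pr F (a + w) (-a) ω‖ ^ 2) P := fun a =>
      (hF.spPr _ _).int
    refine (integral_mono (hG n).int ((integrable_finsetSum _ fun a _ => hi a).const_mul _)
      hpt).trans ?_
    rw [integral_const_mul, integral_finsetSum _ (fun a _ => hi a), inv_mul_le_iff₀ hn]
    refine (Finset.sum_le_sum fun (a : ℕ) _ => b0 (a : ℤ)).trans (le_of_eq ?_)
    simp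
  have hinv : ∀ y : ℂ, Tendsto (fun n => ∫ ω, ‖A n (y +ᵥ ω) - A n ω‖ ^ 2 ∂P) atTop (𝓝 0) := by
    intro y
    set C' := (4 * (C1 + C1) + 4 * (C2 + C2)) * ‖y‖ ^ 2 with hC'
    have hle : ∀ n : ℕ, ∫ ω, ‖A n (y +ᵥ ω) - A n ω‖ ^ 2 ∂P ≤ C' * ((((n + 1 : ℕ) : ℝ))⁻¹) ^ 2 := by
      intro n
      refine ((hD n).inc_le y).trans ?_
      have q1 := (((hF.spPr w 1).sub ((hF.spPr (((n + 1 : ℕ) : ℤ) + w)
        (-((n + 1 : ℕ) : ℤ) + 1)).smul (sn ((n + 1 : ℕ) : ℤ))).1)).1.smul ((((n + 1 : ℕ) : ℂ))⁻¹)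
      have q2 := (((hF.spPr (w - 1) 0).sub ((hF.spPr (((n + 1 : ℕ) : ℤ) + w - 1)
        (-((n + 1 : ℕ) : ℤ))).smul (sn ((n + 1 : ℕ) : ℤ))).1)).1.smul ((((n + 1 : ℕ) : ℂ))⁻¹)
      have p1 := ((hF.spPr w 1).sub ((hF.spPr (((n + 1 : ℕ) : ℤ) + w)
        (-((n + 1 : ℕ) : ℤ) + 1)).smul (sn ((n + 1 : ℕ) : ℤ))).1).2
      have p2 := ((hF.spPr (w - 1) 0).sub ((hF.spPr (((n + 1 : ℕ) : ℤ) + w - 1)
        (-((n + 1 : ℕ) : ℤ))).smul (sn ((n + 1 : ℕ) : ℤ))).1).2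
      rw [((hF.spPr (((n + 1 : ℕ) : ℤ) + w) (-((n + 1 : ℕ) : ℤ) + 1)).smul
        (sn ((n + 1 : ℕ) : ℤ))).2, nrm_sn, one_pow, one_mul] at p1
      rw [((hF.spPr (((n + 1 : ℕ) : ℤ) + w - 1) (-((n + 1 : ℕ) : ℤ))).smul
        (sn ((n + 1 : ℕ) : ℤ))).2, nrm_sn, one_pow, one_mul] at p2
      rw [q1.2, q2.2, hni]
      have r1 := b1 (-1)
      have r2 := b1 (((n + 1 : ℕ) : ℤ) - 1)
      have r3 := b2 0
      have r4 := b2 ((n + 1 : ℕ) : ℤ)
      rw [show -1 + (w + 1) = w by ring, neg_neg] at r1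
      rw [show ((n + 1 : ℕ) : ℤ) - 1 + (w + 1) = ((n + 1 : ℕ) : ℤ) + w by ring,
        show -(((n + 1 : ℕ) : ℤ) - 1) = -((n + 1 : ℕ) : ℤ) + 1 by ring] at r2
      rw [zero_add, neg_zero] at r3
      rw [show ((n + 1 : ℕ) : ℤ) + (w - 1) = ((n + 1 : ℕ) : ℤ) + w - 1 by ring] at r4
      have hpos : 0 ≤ ((((n + 1 : ℕ) : ℝ))⁻¹) ^ 2 := by positivity
      have hy : 0 ≤ ‖y‖ ^ 2 := by positivity
      have s1 : (∫ ω, ‖Pr F w 1 ω - sn ((n + 1 : ℕ) : ℤ) * Pr F (((n + 1 : ℕ) : ℤ) + w)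
          (-((n + 1 : ℕ) : ℤ) + 1) ω‖ ^ 2 ∂P) ≤ 4 * (C1 + C1) := by
        refine p1.trans ?_
        rw [show (2 : ℝ) ^ 2 = 4 by norm_num]
        linarith
      have s2 : (∫ ω, ‖Pr F (w - 1) 0 ω - sn ((n + 1 : ℕ) : ℤ) * Pr F (((n + 1 : ℕ) : ℤ) + w - 1)
          (-((n + 1 : ℕ) : ℤ)) ω‖ ^ 2 ∂P) ≤ 4 * (C2 + C2) := by
        refine p2.trans ?_
        rw [show (2 : ℝ) ^ 2 = 4 by norm_num]
        linarith
      have t1 := mul_le_mul_of_nonneg_left s1 hpos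
      have t2 := mul_le_mul_of_nonneg_left s2 hpos
      have t3 := mul_le_mul_of_nonneg_right (add_le_add t1 t2) hy
      refine t3.trans (le_of_eq ?_)
      rw [hC']
      ring
    refine squeeze_zero (fun n => integral_nonneg fun _ => by positivity) hle ?_
    have h1 : Tendsto (fun n : ℕ => (((n + 1 : ℕ) : ℝ))⁻¹) atTop (𝓝 0) :=
      (tendsto_inv_atTop_nhds_zero_nat (𝕜 := ℝ)).comp (tendsto_add_atTop_nat 1)
    have := (h1.pow 2).const_mul C'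
    simpa using this
  have t := erg_fun hG hb hinv hH
  refine t.congr fun n => ?_
  have i1 : ∀ a : ℕ, Integrable (fun ω => sn a * Pr F (a + w) (-a) ω * H ω) P := fun a => by
    have := ((hF.spPr (a + w) (-a)).inner hH).1.const_mul (sn a)
    simpa only [mul_assoc] using this
  have i2 : ∀ a : ℕ, Integrable (fun ω => sn a * Pr F (a + w) (-a) ω) P := fun a => by
    have := ((hF.spPr (a + w) (-a)).inner (Sp.one (P := P))).1.const_mul (sn a)
    simpa only [mul_one] using this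
  have e1 : (∫ ω, A n ω * H ω ∂P) = (((n + 1 : ℕ) : ℂ))⁻¹ *
      ∑ a ∈ Finset.range (n + 1), sn a * ∫ ω, Pr F (a + w) (-a) ω * H ω ∂P := by
    have : ∀ ω, A n ω * H ω = (((n + 1 : ℕ) : ℂ))⁻¹ *
        ∑ a ∈ Finset.range (n + 1), sn a * Pr F (a + w) (-a) ω * H ω := by
      intro ω
      simp only [hA]
      rw [mul_assoc, Finset.sum_mul]
    simp only [this]
    rw [integral_const_mul, integral_finsetSum _ (fun a _ => i1 a)]
    congr 1
    refine Finset.sum_congr rfl fun a _ => ?_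
    rw [← integral_const_mul]
    refine integral_congr_ae (ae_of_all _ fun ω => ?_)
    simp only
    ring
  have e2 : (∫ ω, A n ω ∂P) = (((n + 1 : ℕ) : ℂ))⁻¹ *
      ∑ a ∈ Finset.range (n + 1), sn a * m2 P F (a + w) (-a) := by
    simp only [hA]
    rw [integral_const_mul, integral_finsetSum _ (fun a _ => i2 a)]
    congr 1
    refine Finset.sum_congr rfl fun a _ => ?_
    rw [integral_const_mul, m2]
  rw [e1, e2, mul_assoc, ← mul_sub, Finset.sum_mul, ← Finset.sum_sub_distrib]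
  congr 1
  refine Finset.sum_congr rfl fun a _ => ?_
  ring

end erg

end

end Pool.Agent.H486.RF
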