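import Pool.Agent.H486.RF.Cov

/-!
# Fourth moments of the ladder of a stationary wave
-/

set_option autoImplicit false

open MeasureTheory Complex Filter Topology Set Metric
open scoped ContDiff ComplexConjugate ENNReal Laplacian

namespace Pool.Agent.H486.RF

open Pool.Agent.H486.QM

noncomputable section

variable {Ω : Type*} [MeasurableSpace Ω] [AddAction ℂ Ω] [MeasurableConstVAdd ℂ Ω]

/-- a real field on the plane, read off along the orbits of the action, which is smooth and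
solves the Helmholtz equation, with finite fourth moment -/
structure Wave (P : Measure Ω) (F : Ω → ℝ) : Prop where
  meas : Measurable F
  int4 : Integrable (fun w => F w ^ 4) P
  smooth : ∀ w, ContDiff ℝ ∞ (fun x : ℂ => F (x +ᵥ w))
  helm : ∀ w x, Δ (fun x : ℂ => F (x +ᵥ w)) x = -F (x +ᵥ w)

/-- the ladder as random variables -/
def X (F : Ω → ℝ) (k : ℤ) (w : Ω) : ℂ := Y (fun x : ℂ => F (x +ᵥ w)) k 0

theorem dz_trans (G : ℂ → ℂ) (x z : ℂ) : dz (fun y => G (y + x)) z = dz G (z + x) := by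
  simp only [dz]
  rw [fderiv_comp_add_right]

theorem iter_trans (G : ℂ → ℂ) (x : ℂ) (n : ℕ) :
    dz^[n] (fun y => G (y + x)) = fun z => (dz^[n] G) (z + x) := by
  induction n with
  | zero => rfl
  | succ n ih =>
    rw [Function.iterate_succ_apply', ih]
    funext z
    rw [dz_trans, Function.iterate_succ_apply']

theorem Y_trans (f : ℂ → ℝ) (x : ℂ) (k : ℤ) (z : ℂ) :
    Y (fun y => f (y + x)) k z = Y f k (z + x) := by
  simp only [Y]
  rw [iter_trans (fun y => (f y : ℂ)) x]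

omit [MeasurableSpace Ω] [MeasurableConstVAdd ℂ Ω] in
theorem X_vadd (F : Ω → ℝ) (k : ℤ) (x : ℂ) (w : Ω) :
    X F k (x +ᵥ w) = Y (fun y : ℂ => F (y +ᵥ w)) k x := by
  rw [X]
  have e : (fun y : ℂ => F (y +ᵥ (x +ᵥ w))) = fun y => (fun y : ℂ => F (y +ᵥ w)) (y + x) := by
    funext y
    rw [vadd_vadd]
  rw [e]
  refine (Y_trans (fun y : ℂ => F (y +ᵥ w)) x k 0).trans ?_
  rw [zero_add]

omit [MeasurableSpace Ω] [MeasurableConstVAdd ℂ Ω] in
theorem X_zero (F : Ω → ℝ) (w : Ω) : X F 0 w = (F w : ℂ) := by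
  rw [X, Y_zero, zero_vadd]

omit [AddAction ℂ Ω] [MeasurableConstVAdd ℂ Ω] in
theorem meas_fd {G : ℂ → Ω → ℂ} (hG : ∀ x, Measurable (G x))
    (hd : ∀ w, Differentiable ℝ (fun x => G x w)) (v : ℂ) :
    Measurable (fun w => fderiv ℝ (fun x => G x w) 0 v) := by
  have hs : Tendsto (fun n : ℕ => 1 / ((n : ℝ) + 1)) atTop (𝓝[≠] 0) := by
    rw [tendsto_nhdsWithin_iff]
    refine ⟨tendsto_one_div_add_atTop_nhds_zero_nat, Eventually.of_forall fun n => ?_⟩
    simp only [mem_compl_iff, mem_singleton_iff]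
    positivity
  refine measurable_of_tendsto_metrizable
    (f := fun (n : ℕ) w => (1 / ((n : ℝ) + 1))⁻¹ • (G (((1 / ((n : ℝ) + 1) : ℝ) : ℂ) * v) w - G 0 w))
    (fun n => ?_) ?_
  · exact ((hG _).sub (hG 0)).const_smul ((1 / ((n : ℝ) + 1))⁻¹)
  · rw [tendsto_pi_nhds]
    intro w
    have h1 := (hd w 0).hasFDerivAt
    have h2 : HasDerivAt (fun t : ℝ => G ((t : ℂ) * v) w) (fderiv ℝ (fun x => G x w) 0 v) 0 := by
      have hl : HasDerivAt (fun t : ℝ => (t : ℂ) * v) v 0 := by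
        have := (Complex.ofRealCLM.hasDerivAt (x := (0 : ℝ))).mul_const v
        simpa using this
      have h1' : HasFDerivAt (fun x => G x w) (fderiv ℝ (fun x => G x w) 0) ((((0 : ℝ) : ℂ)) * v) := by
        simpa using h1
      exact h1'.comp_hasDerivAt (0 : ℝ) hl
    have h3 := h2.tendsto_slope_zero.comp hs
    refine h3.congr fun n => ?_
    simp

omit [AddAction ℂ Ω] [MeasurableConstVAdd ℂ Ω] in
theorem meas_iter {f : ℂ → Ω → ℂ} (hf : ∀ x, Measurable (f x)) (hs : ∀ w, Sm (fun x => f x w))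
    (n : ℕ) (x : ℂ) : Measurable (fun w => (dz^[n] (fun y => f y w)) x) := by
  induction n generalizing x with
  | zero => exact hf x
  | succ n ih =>
    have e : (fun w => (dz^[n + 1] (fun y => f y w)) x) = fun w =>
        (fderiv ℝ (fun y => (dz^[n] (fun y => f y w)) (y + x)) 0 1 -
          I * fderiv ℝ (fun y => (dz^[n] (fun y => f y w)) (y + x)) 0 I) / 2 := by
      funext w
      rw [Function.iterate_succ_apply', dz, fderiv_comp_add_right, zero_add]
    rw [e]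
    have hd : ∀ w, Differentiable ℝ (fun y => (dz^[n] (fun y => f y w)) (y + x)) := by
      intro w
      exact ((hs w).iter n).diff.comp (differentiable_id.add_const x)
    have h1 := meas_fd (G := fun y w => (dz^[n] (fun y => f y w)) (y + x)) (fun y => ih _) hd 1
    have h2 := meas_fd (G := fun y w => (dz^[n] (fun y => f y w)) (y + x)) (fun y => ih _) hd I
    exact (h1.sub (h2.const_mul I)).div_const 2

section wave

variable {P : Measure Ω} {F : Ω → ℝ}

theorem Wave.smF (hF : Wave P F) (w : Ω) : Sm (fun x : ℂ => ((F (x +ᵥ w) : ℝ) : ℂ)) :=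
  Complex.ofRealCLM.contDiff.comp (hF.smooth w)

theorem Wave.measX (hF : Wave P F) (k : ℤ) : Measurable (X F k) := by
  have hf : ∀ x : ℂ, Measurable (fun w => ((F (x +ᵥ w) : ℝ) : ℂ)) := fun x =>
    Complex.measurable_ofReal.comp (hF.meas.comp (measurable_const_vadd x))
  have h := fun n : ℕ => meas_iter (f := fun x w => ((F (x +ᵥ w) : ℝ) : ℂ)) hf hF.smF n 0
  obtain ⟨n, rfl | rfl⟩ := k.eq_nat_or_neg
  · have e : X F (n : ℤ) = fun w => (2 : ℂ) ^ n * dz^[n] (fun x : ℂ => ((F (x +ᵥ w) : ℝ) : ℂ)) 0 :=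
      funext fun w => Y_nat n 0
    rw [e]
    exact (h n).const_mul _
  · have e : X F (-(n : ℤ)) = fun w =>
        (-1 : ℂ) ^ n * conj ((2 : ℂ) ^ n * dz^[n] (fun x : ℂ => ((F (x +ᵥ w) : ℝ) : ℂ)) 0) :=
      funext fun w => Y_neg n 0
    rw [e]
    exact (Complex.continuous_conj.measurable.comp ((h n).const_mul _)).const_mul _

omit [AddAction ℂ Ω] [MeasurableConstVAdd ℂ Ω] in
theorem tonelli {S : Type*} [TopologicalSpace S] [MeasurableSpace S] [BorelSpace S]
    [SecondCountableTopology S] [TopologicalSpace.MetrizableSpace S] (ν : Measure S)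
    [IsFiniteMeasure ν] [SFinite P] {Z : S → Ω → ℝ} (hm : ∀ s, Measurable (Z s))
    (hc : ∀ w, Continuous fun s => Z s w) (h0 : ∀ s w, 0 ≤ Z s w) {K : ℝ}
    (hi : ∀ s, Integrable (Z s) P) (hK : ∀ s, ∫ w, Z s w ∂P = K) :
    Integrable (fun w => ∫ s, Z s w ∂ν) P ∧ ∫ w, ∫ s, Z s w ∂ν ∂P = ν.real univ * K := by
  have hsm : StronglyMeasurable (Function.uncurry Z) :=
    stronglyMeasurable_uncurry_of_continuous_of_stronglyMeasurable hc
      (fun s => (hm s).stronglyMeasurable)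
  have hint : Integrable (Function.uncurry Z) (ν.prod P) := by
    rw [integrable_prod_iff hsm.aestronglyMeasurable]
    refine ⟨ae_of_all _ fun s => hi s, ?_⟩
    have : (fun s => ∫ w, ‖Function.uncurry Z (s, w)‖ ∂P) = fun _ => K := by
      funext s
      simp only [Function.uncurry, Real.norm_of_nonneg (h0 _ _)]
      exact hK s
    rw [this]
    exact integrable_const _
  refine ⟨hint.integral_prod_right, ?_⟩
  rw [← integral_integral_swap hint]
  simp only [hK, integral_const, smul_eq_mul]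

theorem Wave.l4 [VAddInvariantMeasure ℂ Ω P] [SFinite P] (hF : Wave P F) (k : ℤ) :
    Sp P 4 (X F k) := by
  refine ⟨hF.measX k, ?_⟩
  obtain ⟨C, hC0, hC⟩ := ell (M := 1) k.natAbs (zero_lt_one' ℝ)
  have hfin : IsFiniteMeasure (volume.restrict (ball (0 : ℂ) 1)) :=
    ⟨by rw [Measure.restrict_apply_univ]; exact measure_ball_lt_top⟩
  have hpt : ∀ w, ‖X F k w‖ ^ 4 ≤ (2 ^ k.natAbs) ^ 4 * (C ^ 2 *
      ((volume.restrict (ball (0 : ℂ) 1)).real univ * ∫ x in ball (0 : ℂ) 1, F (x +ᵥ w) ^ 4)) := by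
    intro w
    have had : Ad k.natAbs 1 1 (fun _ => (1 / 4 : ℂ)) (fun x : ℂ => ((F (x +ᵥ w) : ℝ) : ℂ)) := by
      refine ⟨Sm.const _, hF.smF w, fun i _ z _ => ?_, fun z _ => ?_⟩
      · rcases Nat.eq_zero_or_pos i with h | h
        · subst h
          simp only [Function.iterate_zero, id_eq]
          norm_num
        · obtain ⟨j, rfl⟩ : ∃ j, i = j + 1 := ⟨i - 1, by omega⟩
          have e : ∀ j : ℕ, dz^[j + 1] (fun _ => (1 / 4 : ℂ)) = fun _ => 0 := by
            intro j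
            induction j with
            | zero => funext z; exact dz_const _ _
            | succ j ih => rw [Function.iterate_succ_apply', ih]; funext z; exact dz_const _ _
          rw [e]
          simp
      · rw [Pool.Agent.H486.RF.helm (hF.smooth w) (hF.helm w)]
        ring
    have h1 := hC _ _ had
    have e1 : ‖X F k w‖ = 2 ^ k.natAbs * ‖dz^[k.natAbs] (fun x : ℂ => ((F (x +ᵥ w) : ℝ) : ℂ)) 0‖ := by
      rw [X, Y]
      split_ifs
      · rw [norm_mul, norm_pow]; norm_num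
      · rw [norm_mul, norm_pow, norm_neg, norm_one, one_pow, one_mul, RCLike.norm_conj, norm_mul,
          norm_pow]
        norm_num
    have hN : N2 1 (fun x : ℂ => ((F (x +ᵥ w) : ℝ) : ℂ)) = ∫ x in ball (0 : ℂ) 1, F (x +ᵥ w) ^ 2 := by
      rw [N2]
      refine integral_congr_ae (ae_of_all _ fun x => ?_)
      simp only [norm_real, Real.norm_eq_abs, sq_abs]
    have hcont : Continuous fun x : ℂ => F (x +ᵥ w) := (hF.smooth w).continuous
    have hint : ∀ n : ℕ, Integrable (fun x : ℂ => F (x +ᵥ w) ^ n) (volume.restrict (ball (0 : ℂ) 1)) :=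
      fun n => ((hcont.pow n).continuousOn.integrableOn_compact (isCompact_closedBall 0 1)).mono_set
        ball_subset_closedBall
    have h2 := sq_int_le (volume.restrict (ball (0 : ℂ) 1)) (fun x : ℂ => F (x +ᵥ w) ^ 2)
      (hint 2) (by simpa only [← pow_mul] using hint 4)
    simp only [← pow_mul] at h2
    rw [hN] at h1
    have h3 : (‖dz^[k.natAbs] (fun x : ℂ => ((F (x +ᵥ w) : ℝ) : ℂ)) 0‖ ^ 2) ^ 2 ≤
        (C * ∫ x in ball (0 : ℂ) 1, F (x +ᵥ w) ^ 2) ^ 2 := pow_le_pow_left₀ (by positivity) h1 2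
    rw [mul_pow] at h3
    have h4 := mul_le_mul_of_nonneg_left h2 (sq_nonneg C)
    rw [e1, mul_pow]
    refine mul_le_mul_of_nonneg_left ?_ (by positivity)
    calc ‖dz^[k.natAbs] (fun x : ℂ => ((F (x +ᵥ w) : ℝ) : ℂ)) 0‖ ^ 4 =
          (‖dz^[k.natAbs] (fun x : ℂ => ((F (x +ᵥ w) : ℝ) : ℂ)) 0‖ ^ 2) ^ 2 := by ring
      _ ≤ _ := h3.trans h4
  have ht := tonelli (P := P) (volume.restrict (ball (0 : ℂ) 1)) (Z := fun (x : ℂ) w => F (x +ᵥ w) ^ 4)
    (K := ∫ w, F w ^ 4 ∂P) (fun x => (hF.meas.comp (measurable_const_vadd x)).pow_const 4)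
    (fun w => (hF.smooth w).continuous.pow 4) (fun x w => by positivity)
    (fun x => (mp P x).integrable_comp_of_integrable hF.int4)
    (fun x => int_vadd x (fun w => F w ^ 4))
  have hI : Integrable (fun w => (2 ^ k.natAbs : ℝ) ^ 4 * (C ^ 2 *
      ((volume.restrict (ball (0 : ℂ) 1)).real univ * ∫ x in ball (0 : ℂ) 1, F (x +ᵥ w) ^ 4))) P :=
    ((ht.1.const_mul _).const_mul _).const_mul _
  refine Integrable.mono' hI
    ((hF.measX k).norm.pow_const 4).aestronglyMeasurable (ae_of_all _ fun w => ?_)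
  rw [Real.norm_of_nonneg (by positivity)]
  exact hpt w

theorem Wave.dif [VAddInvariantMeasure ℂ Ω P] [SFinite P] (hF : Wave P F) (k : ℤ) :
    Dif P 4 (X F k) (X F (k + 1)) (X F (k - 1)) := by
  refine ⟨hF.l4 k, hF.l4 _, hF.l4 _, ?_⟩
  -- the integrand
  set Z : ℝ → Ω → ℂ → ℝ := fun t w h => (‖X F (k + 2) ((t * h : ℂ) +ᵥ w)‖ +
    2 * ‖X F k ((t * h : ℂ) +ᵥ w)‖ + ‖X F (k - 2) ((t * h : ℂ) +ᵥ w)‖) ^ 4 with hZ
  set K := ∫ w, (‖X F (k + 2) w‖ + 2 * ‖X F k w‖ + ‖X F (k - 2) w‖) ^ 4 ∂P with hK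
  have hK0 : 0 ≤ K := integral_nonneg fun w => by positivity
  refine ⟨K, hK0, fun h _ => ?_⟩
  have hKi : Integrable (fun w => (‖X F (k + 2) w‖ + 2 * ‖X F k w‖ + ‖X F (k - 2) w‖) ^ 4) P := by
    have hbd : ∀ w, (‖X F (k + 2) w‖ + 2 * ‖X F k w‖ + ‖X F (k - 2) w‖) ^ 4 ≤
        2 ^ 4 * (2 ^ 4 * (‖X F (k + 2) w‖ ^ 4 + 16 * ‖X F k w‖ ^ 4) + ‖X F (k - 2) w‖ ^ 4) := by
      intro w
      have h1 := add_pow_le 4 (a := ‖X F (k + 2) w‖ + 2 * ‖X F k w‖) (b := ‖X F (k - 2) w‖)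
        (by positivity) (by positivity)
      have h2 := add_pow_le 4 (a := ‖X F (k + 2) w‖) (b := 2 * ‖X F k w‖)
        (by positivity) (by positivity)
      rw [mul_pow] at h2
      linarith
    refine Integrable.mono' ((((((hF.l4 (k + 2)).int).add ((hF.l4 k).int.const_mul 16)).const_mul
      (2 ^ 4)).add (hF.l4 (k - 2)).int).const_mul (2 ^ 4)) ?_ (ae_of_all _ fun w => ?_)
    · exact ((((hF.measX _).norm.add ((hF.measX _).norm.const_mul 2)).add
        (hF.measX _).norm).pow_const 4).aestronglyMeasurable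
    · rw [Real.norm_of_nonneg (by positivity)]
      exact hbd w
  have hfin : IsFiniteMeasure (volume.restrict (Ioc (0 : ℝ) 1)) :=
    ⟨by rw [Measure.restrict_apply_univ]; exact measure_Ioc_lt_top⟩
  have hcont : ∀ (w : Ω) (j : ℤ), Continuous fun t : ℝ => X F j (((t : ℂ) * h) +ᵥ w) := by
    intro w j
    have e : (fun t : ℝ => X F j (((t : ℂ) * h) +ᵥ w)) = fun t : ℝ =>
        Y (fun y : ℂ => F (y +ᵥ w)) j ((t : ℂ) * h) := by
      funext t
      rw [X_vadd]
    rw [e]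
    exact (smY (hF.smooth w) j).cont.comp (by fun_prop)
  have ht := tonelli (P := P) (volume.restrict (Ioc (0 : ℝ) 1)) (Z := fun t w => Z t w h)
    (K := K) (fun t => ((((hF.l4 (k + 2)).vadd _).meas.norm.add
      (((hF.l4 k).vadd _).meas.norm.const_mul 2)).add ((hF.l4 (k - 2)).vadd _).meas.norm).pow_const 4)
    (fun w => (((hcont w _).norm.add ((hcont w _).norm.const_smul (2 : ℝ))).add
      (hcont w _).norm).pow 4)
    (fun t w => by positivity)
    (fun t => (mp P ((t : ℂ) * h)).integrable_comp_of_integrable hKi)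
    (fun t => int_vadd ((t : ℂ) * h) (fun w => (‖X F (k + 2) w‖ + 2 * ‖X F k w‖ +
      ‖X F (k - 2) w‖) ^ 4))
  have hpt : ∀ w, ‖Er (X F k) (X F (k + 1)) (X F (k - 1)) h w‖ ^ 4 ≤
      ‖h‖ ^ 8 * ∫ t in Ioc (0 : ℝ) 1, Z t w h := by
    intro w
    have h1 := Y_taylor (hF.smooth w) (hF.helm w) k 0 h
    have e1 : Er (X F k) (X F (k + 1)) (X F (k - 1)) h w =
        Y (fun x : ℂ => F (x +ᵥ w)) k (0 + h) - Y (fun x : ℂ => F (x +ᵥ w)) k 0 -
          (h / 2 * Y (fun x : ℂ => F (x +ᵥ w)) (k + 1) 0 -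
            conj h / 2 * Y (fun x : ℂ => F (x +ᵥ w)) (k - 1) 0) := by
      rw [Er, X_vadd, zero_add, X, X, X]
    rw [← e1, intervalIntegral.integral_of_le zero_le_one] at h1
    simp only [zero_add] at h1
    set g : ℝ → ℝ := fun t => ‖Y (fun x : ℂ => F (x +ᵥ w)) (k + 2) (t * h)‖ +
      2 * ‖Y (fun x : ℂ => F (x +ᵥ w)) k (t * h)‖ + ‖Y (fun x : ℂ => F (x +ᵥ w)) (k - 2) (t * h)‖
      with hg
    have hgc : Continuous g := by
      have := fun j => (smY (hF.smooth w) j).cont.comp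
        (show Continuous fun t : ℝ => (t : ℂ) * h by fun_prop)
      exact ((this _).norm.add ((this _).norm.const_smul (2 : ℝ))).add (this _).norm
    have hgi : ∀ n : ℕ, Integrable (fun t => g t ^ n) (volume.restrict (Ioc (0 : ℝ) 1)) :=
      fun n => (hgc.pow n).integrableOn_Ioc
    have eZ : ∀ t : ℝ, Z t w h = g t ^ 4 := by
      intro t
      simp only [hZ, hg, X_vadd]
    have hv : (volume.restrict (Ioc (0 : ℝ) 1)).real univ = 1 := by
      rw [measureReal_restrict_apply MeasurableSet.univ, univ_inter]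
      simp
    have s1 := sq_int_le (volume.restrict (Ioc (0 : ℝ) 1)) g (by simpa using hgi 1) (hgi 2)
    have s2 := sq_int_le (volume.restrict (Ioc (0 : ℝ) 1)) (fun t => g t ^ 2) (hgi 2)
      (by simpa only [← pow_mul] using hgi 4)
    rw [hv, one_mul] at s1 s2
    simp only [← pow_mul] at s2
    norm_num at s2
    have s3 : (∫ t in Ioc (0 : ℝ) 1, g t) ^ 4 ≤ ∫ t in Ioc (0 : ℝ) 1, g t ^ 4 := by
      calc (∫ t in Ioc (0 : ℝ) 1, g t) ^ 4 = ((∫ t in Ioc (0 : ℝ) 1, g t) ^ 2) ^ 2 := by ring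
        _ ≤ (∫ t in Ioc (0 : ℝ) 1, g t ^ 2) ^ 2 := pow_le_pow_left₀ (sq_nonneg _) s1 2
        _ ≤ _ := s2
    simp only [eZ]
    calc ‖Er (X F k) (X F (k + 1)) (X F (k - 1)) h w‖ ^ 4 ≤
          (‖h‖ ^ 2 * ∫ t in Ioc (0 : ℝ) 1, g t) ^ 4 := pow_le_pow_left₀ (norm_nonneg _) h1 4
      _ = ‖h‖ ^ 8 * (∫ t in Ioc (0 : ℝ) 1, g t) ^ 4 := by ring
      _ ≤ _ := mul_le_mul_of_nonneg_left s3 (by positivity)
  have hv : (volume.restrict (Ioc (0 : ℝ) 1)).real univ = 1 := by
    rw [measureReal_restrict_apply MeasurableSet.univ, univ_inter]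
    simp
  have hEr := (Er.sp (hF.l4 k) (hF.l4 (k + 1)) (hF.l4 (k - 1)) h).int
  calc ∫ w, ‖Er (X F k) (X F (k + 1)) (X F (k - 1)) h w‖ ^ 4 ∂P ≤
        ∫ w, ‖h‖ ^ 8 * (∫ t in Ioc (0 : ℝ) 1, Z t w h) ∂P :=
        integral_mono hEr (ht.1.const_mul _) hpt
    _ = ‖h‖ ^ 8 * K := by rw [integral_const_mul, ht.2, hv, one_mul]
    _ = K * ‖h‖ ^ (2 * 4) := by ring

theorem Wave.cj (k : ℤ) (w : Ω) : conj (X F k w) = (-1) ^ k.natAbs * X F (-k) w :=
  Y_cj k 0

end wave

end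

end Pool.Agent.H486.RF
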