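import Pool.Agent.H486.RF.Fin

/-!
# Multi-point functions
-/

set_option autoImplicit false

open MeasureTheory Complex Filter Topology Set Metric
open scoped ComplexConjugate ENNReal InnerProductSpace

namespace Pool.Agent.H486.RF

noncomputable section

variable {Ω : Type*} [MeasurableSpace Ω] [AddAction ℂ Ω] [MeasurableConstVAdd ℂ Ω]
  {P : Measure Ω} {F : Ω → ℝ}

theorem Lad.add {u v : ℤ → ℂ → ℂ} (hu : Lad u) (hv : Lad v) : Lad (fun k x => u k x + v k x) := by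
  intro k
  obtain ⟨C1, h1⟩ := hu k
  obtain ⟨C2, h2⟩ := hv k
  refine ⟨C1 + C2, fun x h hh => ?_⟩
  have e : u k (x + h) + v k (x + h) - (u k x + v k x) -
      (h / 2 * (u (k + 1) x + v (k + 1) x) - conj h / 2 * (u (k - 1) x + v (k - 1) x)) =
      (u k (x + h) - u k x - (h / 2 * u (k + 1) x - conj h / 2 * u (k - 1) x)) +
      (v k (x + h) - v k x - (h / 2 * v (k + 1) x - conj h / 2 * v (k - 1) x)) := by ring
  rw [e, add_mul]
  exact (norm_add_le _ _).trans (add_le_add (h1 x h hh) (h2 x h hh))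

theorem Lad.smul {u : ℤ → ℂ → ℂ} (hu : Lad u) (c : ℂ) : Lad (fun k x => c * u k x) := by
  intro k
  obtain ⟨C1, h1⟩ := hu k
  refine ⟨‖c‖ * C1, fun x h hh => ?_⟩
  have e : c * u k (x + h) - c * u k x -
      (h / 2 * (c * u (k + 1) x) - conj h / 2 * (c * u (k - 1) x)) =
      c * (u k (x + h) - u k x - (h / 2 * u (k + 1) x - conj h / 2 * u (k - 1) x)) := by ring
  rw [e, norm_mul, mul_assoc]
  exact mul_le_mul_of_nonneg_left (h1 x h hh) (norm_nonneg _)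

/-- four-fold moments -/
def Ph (P : Measure Ω) (A B C D : Ω → ℂ) : ℂ := ∫ ω, (A ω * B ω) * (C ω * D ω) ∂P

/-- pair moments -/
def pm (P : Measure Ω) (A B : Ω → ℂ) : ℂ := ∫ ω, A ω * B ω ∂P

/-- Gaussian value of four-fold moments -/
def Wg (P : Measure Ω) (A B C D : Ω → ℂ) : ℂ :=
  pm P A B * pm P C D + pm P A C * pm P B D + pm P A D * pm P B C

/-- translates -/
def tr (A : Ω → ℂ) (x : ℂ) (ω : Ω) : ℂ := A (x +ᵥ ω)

omit [AddAction ℂ Ω] [MeasurableConstVAdd ℂ Ω] in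
theorem pm_comm (A B : Ω → ℂ) : pm P A B = pm P B A := by
  simp only [pm, mul_comm]

omit [AddAction ℂ Ω] [MeasurableConstVAdd ℂ Ω] in
theorem Ph_12 (A B C D : Ω → ℂ) : Ph P A B C D = Ph P B A C D := by
  simp only [Ph]
  refine integral_congr_ae (ae_of_all _ fun ω => ?_)
  simp only; ring

omit [AddAction ℂ Ω] [MeasurableConstVAdd ℂ Ω] in
theorem Ph_23 (A B C D : Ω → ℂ) : Ph P A B C D = Ph P A C B D := by
  simp only [Ph]
  refine integral_congr_ae (ae_of_all _ fun ω => ?_)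
  simp only; ring

omit [AddAction ℂ Ω] [MeasurableConstVAdd ℂ Ω] in
theorem Ph_34 (A B C D : Ω → ℂ) : Ph P A B C D = Ph P A B D C := by
  simp only [Ph]
  refine integral_congr_ae (ae_of_all _ fun ω => ?_)
  simp only; ring

omit [AddAction ℂ Ω] [MeasurableConstVAdd ℂ Ω] in
theorem Wg_12 (A B C D : Ω → ℂ) : Wg P A B C D = Wg P B A C D := by
  rw [Wg, Wg, pm_comm A B]; ring

omit [AddAction ℂ Ω] [MeasurableConstVAdd ℂ Ω] in
theorem Wg_23 (A B C D : Ω → ℂ) : Wg P A B C D = Wg P A C B D := by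
  rw [Wg, Wg, pm_comm B C]; ring

omit [AddAction ℂ Ω] [MeasurableConstVAdd ℂ Ω] in
theorem Wg_34 (A B C D : Ω → ℂ) : Wg P A B C D = Wg P A B D C := by
  rw [Wg, Wg, pm_comm C D]; ring

theorem Sp.two [IsProbabilityMeasure P] {A : Ω → ℂ} (hA : Sp P 4 A) : Sp P 2 A ∧
    ∫ ω, ‖A ω‖ ^ 2 ∂P ≤ √(∫ ω, ‖A ω‖ ^ 4 ∂P) := by
  have h1 : Sp P 4 (fun _ : Ω => (1 : ℂ)) := ⟨measurable_const, by simp⟩
  have h := hA.mul2 h1
  simp only [mul_one] at h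
  refine ⟨h.1, h.2.trans (le_of_eq ?_)⟩
  simp

section stat

variable [VAddInvariantMeasure ℂ Ω P] [IsProbabilityMeasure P]

theorem Wave.lad4 (hF : Wave P F) {B C D : Ω → ℂ} (hB : Sp P 4 B) (hC : Sp P 4 C)
    (hD : Sp P 4 D) : Lad (fun k x => Ph P (tr (X F k) x) B C D) := by
  intro k
  have hd := hF.dif k
  obtain ⟨K, hK, b⟩ := hd.bd
  have hCD := (hC.mul2 hD).1
  set N := ∫ ω, ‖C ω * D ω‖ ^ 2 ∂P with hN
  set M := ∫ ω, ‖B ω‖ ^ 4 ∂P with hM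
  refine ⟨√(√K * √M) * √N, fun x h hh => ?_⟩
  have hE := (Er.sp hd.s0 hd.s1 hd.s2 h).vadd x
  have t1 := hE.mul2 hB
  have t := t1.1.inner hCD
  have i : ∀ {A : Ω → ℂ}, Sp P 4 A → Integrable (fun ω => (A ω * B ω) * (C ω * D ω)) P :=
    fun hA => ((hA.mul2 hB).1.inner hCD).1
  have e : (∫ ω, (Er (X F k) (X F (k + 1)) (X F (k - 1)) h (x +ᵥ ω) * B ω) * (C ω * D ω) ∂P) =
      Ph P (tr (X F k) (x + h)) B C D - Ph P (tr (X F k) x) B C D -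
        (h / 2 * Ph P (tr (X F (k + 1)) x) B C D - conj h / 2 * Ph P (tr (X F (k - 1)) x) B C D) := by
    have i1 := i (hd.s0.vadd (x + h))
    have i2 := i (hd.s0.vadd x)
    have i3 := i (hd.s1.vadd x)
    have i4 := i (hd.s2.vadd x)
    have j1 : Integrable (fun ω => (X F k ((x + h) +ᵥ ω) * B ω) * (C ω * D ω) -
        (X F k (x +ᵥ ω) * B ω) * (C ω * D ω)) P := i1.sub i2
    have j2 : Integrable (fun ω => (h / 2 : ℂ) * ((X F (k + 1) (x +ᵥ ω) * B ω) * (C ω * D ω)) -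
        (conj h / 2 : ℂ) * ((X F (k - 1) (x +ᵥ ω) * B ω) * (C ω * D ω))) P :=
      (i3.const_mul _).sub (i4.const_mul _)
    simp only [Ph, tr]
    rw [← integral_const_mul, ← integral_const_mul,
      ← integral_sub (i3.const_mul _) (i4.const_mul _), ← integral_sub i1 i2,
      ← integral_sub j1 j2]
    refine integral_congr_ae (ae_of_all _ fun ω => ?_)
    simp only [Er]
    rw [vadd_vadd, add_comm h x]
    ring
  rw [← e]
  refine t.2.trans ?_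
  have h1 : √(∫ ω, ‖Er (X F k) (X F (k + 1)) (X F (k - 1)) h (x +ᵥ ω)‖ ^ 4 ∂P) ≤ √K * ‖h‖ ^ 4 := by
    rw [int_vadd x (fun ω => ‖Er (X F k) (X F (k + 1)) (X F (k - 1)) h ω‖ ^ 4)]
    refine (Real.sqrt_le_sqrt (b h hh)).trans (le_of_eq ?_)
    rw [Real.sqrt_mul hK, show ‖h‖ ^ (2 * 4) = (‖h‖ ^ 4) ^ 2 by ring,
      Real.sqrt_sq (by positivity)]
  have h2 : √(∫ ω, ‖Er (X F k) (X F (k + 1)) (X F (k - 1)) h (x +ᵥ ω) * B ω‖ ^ 2 ∂P) ≤
      √(√K * √M) * ‖h‖ ^ 2 := by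
    have h3 : (∫ ω, ‖Er (X F k) (X F (k + 1)) (X F (k - 1)) h (x +ᵥ ω) * B ω‖ ^ 2 ∂P) ≤
        (√K * √M) * (‖h‖ ^ 2) ^ 2 := by
      refine t1.2.trans ?_
      have := mul_le_mul_of_nonneg_right h1 (Real.sqrt_nonneg M)
      calc _ ≤ √K * ‖h‖ ^ 4 * √M := this
        _ = _ := by ring
    refine (Real.sqrt_le_sqrt h3).trans (le_of_eq ?_)
    rw [Real.sqrt_mul (by positivity), Real.sqrt_sq (by positivity)]
  have := mul_le_mul_of_nonneg_right h2 (Real.sqrt_nonneg N)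
  linarith

theorem Wave.lad2 (hF : Wave P F) {B : Ω → ℂ} (hB : Sp P 2 B) :
    Lad (fun k x => pm P (tr (X F k) x) B) := fun k => (hF.difX k).cov hB

end stat

section erg

variable [ErgodicVAdd ℂ Ω P] [IsProbabilityMeasure P] {μ : Measure ℝ} [IsFiniteMeasure μ]

theorem Wave.step4 [NullSingletonClass μ] (hF : Wave P F) (hμ : Spec P F μ) {B C D : Ω → ℂ}
    (hB : Sp P 4 B) (hC : Sp P 4 C) (hD : Sp P 4 D)
    (h0 : ∀ k, Ph P (tr (X F k) 0) B C D = Wg P (tr (X F k) 0) B C D) (k : ℤ) (x : ℂ) :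
    Ph P (tr (X F k) x) B C D = Wg P (tr (X F k) x) B C D := by
  set M := 3 * (μ.real univ * μ.real univ) with hM
  have hM0 : 0 ≤ M := by
    have : 0 ≤ μ.real univ := measureReal_nonneg
    positivity
  set u : ℤ → ℂ → ℂ := fun k x => Ph P (tr (X F k) x) B C D + (-1) * (pm P C D * pm P (tr (X F k) x) B +
    (pm P B D * pm P (tr (X F k) x) C + pm P B C * pm P (tr (X F k) x) D)) with hu
  have hul : Lad u := (hF.lad4 hB hC hD).add ((((hF.lad2 hB.two.1).smul _).add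
    (((hF.lad2 hC.two.1).smul _).add ((hF.lad2 hD.two.1).smul _))).smul (-1))
  have huv : ∀ k x, u k x = Ph P (tr (X F k) x) B C D - Wg P (tr (X F k) x) B C D := by
    intro k x
    simp only [hu, Wg]
    ring
  have hX4 : ∀ k x, Sp P 4 (tr (X F k) x) ∧ ∫ ω, ‖tr (X F k) x ω‖ ^ 4 ∂P ≤ M := by
    intro k x
    refine ⟨(hF.l4 k).vadd x, ?_⟩
    have e : (∫ ω, ‖tr (X F k) x ω‖ ^ 4 ∂P) = ∫ ω, ‖X F k ω‖ ^ 4 ∂P :=
      int_vadd x (fun ω => ‖X F k ω‖ ^ 4)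
    rw [e]
    exact hF.four_le hμ k
  have hpm : ∀ k x {E : Ω → ℂ}, Sp P 4 E → ‖pm P (tr (X F k) x) E‖ ≤
      √(√M) * √(∫ ω, ‖E ω‖ ^ 2 ∂P) := by
    intro k x E hE
    refine (((hX4 k x).1.two.1).inner hE.two.1).2.trans ?_
    refine mul_le_mul_of_nonneg_right ?_ (Real.sqrt_nonneg _)
    exact Real.sqrt_le_sqrt ((hX4 k x).1.two.2.trans (Real.sqrt_le_sqrt (hX4 k x).2))
  have hPh : ∀ k x, ‖Ph P (tr (X F k) x) B C D‖ ≤
      √(√M * √(∫ ω, ‖B ω‖ ^ 4 ∂P)) * √(∫ ω, ‖C ω * D ω‖ ^ 2 ∂P) := by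
    intro k x
    have t1 := (hX4 k x).1.mul2 hB
    refine (t1.1.inner (hC.mul2 hD).1).2.trans ?_
    refine mul_le_mul_of_nonneg_right (Real.sqrt_le_sqrt (t1.2.trans ?_)) (Real.sqrt_nonneg _)
    exact mul_le_mul_of_nonneg_right (Real.sqrt_le_sqrt (hX4 k x).2) (Real.sqrt_nonneg _)
  have hz := hul.zero (M := √(√M * √(∫ ω, ‖B ω‖ ^ 4 ∂P)) * √(∫ ω, ‖C ω * D ω‖ ^ 2 ∂P) +
    (‖pm P C D‖ * (√(√M) * √(∫ ω, ‖B ω‖ ^ 2 ∂P)) + (‖pm P B D‖ * (√(√M) * √(∫ ω, ‖C ω‖ ^ 2 ∂P)) +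
      ‖pm P B C‖ * (√(√M) * √(∫ ω, ‖D ω‖ ^ 2 ∂P))))) (fun k x => by
        simp only [hu]
        refine (norm_add_le _ _).trans (add_le_add (hPh k x) ?_)
        rw [norm_mul, norm_neg, norm_one, one_mul]
        refine (norm_add_le _ _).trans (add_le_add ?_ ((norm_add_le _ _).trans (add_le_add ?_ ?_)))
        · rw [norm_mul]
          exact mul_le_mul_of_nonneg_left (hpm k x hB) (norm_nonneg _)
        · rw [norm_mul]
          exact mul_le_mul_of_nonneg_left (hpm k x hC) (norm_nonneg _)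
        · rw [norm_mul]
          exact mul_le_mul_of_nonneg_left (hpm k x hD) (norm_nonneg _))
    (fun k => by rw [huv, h0, sub_self]) k x
  rw [huv] at hz
  exact sub_eq_zero.1 hz

omit [MeasurableSpace Ω] [MeasurableConstVAdd ℂ Ω] in
theorem tr_zero (A : Ω → ℂ) : tr A 0 = A := by
  funext ω
  simp [tr]

theorem Wave.four_point [NullSingletonClass μ] (hF : Wave P F) (hμ : Spec P F μ) (a b c d : ℤ)
    (x1 x2 x3 x4 : ℂ) : Ph P (tr (X F a) x1) (tr (X F b) x2) (tr (X F c) x3) (tr (X F d) x4) =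
      Wg P (tr (X F a) x1) (tr (X F b) x2) (tr (X F c) x3) (tr (X F d) x4) := by
  have s4 : ∀ k x, Sp P 4 (tr (X F k) x) := fun k x => (hF.l4 k).vadd x
  have h0 : ∀ a b c d, Ph P (tr (X F a) 0) (tr (X F b) 0) (tr (X F c) 0) (tr (X F d) 0) =
      Wg P (tr (X F a) 0) (tr (X F b) 0) (tr (X F c) 0) (tr (X F d) 0) := by
    intro a b c d
    simp only [tr_zero]
    exact hF.N4_eq hμ a b c d
  have h1 : ∀ a b c d x1, Ph P (tr (X F a) x1) (tr (X F b) 0) (tr (X F c) 0) (tr (X F d) 0) =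
      Wg P (tr (X F a) x1) (tr (X F b) 0) (tr (X F c) 0) (tr (X F d) 0) := fun a b c d x1 =>
    hF.step4 hμ (s4 _ _) (s4 _ _) (s4 _ _) (fun k => h0 k b c d) a x1
  have h2 : ∀ a b c d x1 x2, Ph P (tr (X F a) x1) (tr (X F b) x2) (tr (X F c) 0) (tr (X F d) 0) =
      Wg P (tr (X F a) x1) (tr (X F b) x2) (tr (X F c) 0) (tr (X F d) 0) := by
    intro a b c d x1 x2
    rw [Ph_12, Wg_12]
    refine hF.step4 hμ (s4 _ _) (s4 _ _) (s4 _ _) (fun k => ?_) b x2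
    rw [Ph_12, Wg_12]
    exact h1 _ _ _ _ _
  have h3 : ∀ a b c d x1 x2 x3,
      Ph P (tr (X F a) x1) (tr (X F b) x2) (tr (X F c) x3) (tr (X F d) 0) =
      Wg P (tr (X F a) x1) (tr (X F b) x2) (tr (X F c) x3) (tr (X F d) 0) := by
    intro a b c d x1 x2 x3
    rw [Ph_23, Wg_23, Ph_12, Wg_12]
    refine hF.step4 hμ (s4 _ _) (s4 _ _) (s4 _ _) (fun k => ?_) c x3
    rw [Ph_12, Wg_12, Ph_23, Wg_23]
    exact h2 _ _ _ _ _ _
  rw [Ph_34, Wg_34, Ph_23, Wg_23, Ph_12, Wg_12]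
  refine hF.step4 hμ (s4 _ _) (s4 _ _) (s4 _ _) (fun k => ?_) d x4
  rw [Ph_12, Wg_12, Ph_23, Wg_23, Ph_34, Wg_34]
  exact h3 _ _ _ _ _ _ _

theorem Wave.step3 [NullSingletonClass μ] (hF : Wave P F) (hμ : Spec P F μ) {B : Ω → ℂ}
    (hB : Sp P 2 B) (h0 : ∀ k, pm P (tr (X F k) 0) B = 0) (k : ℤ) (x : ℂ) :
    pm P (tr (X F k) x) B = 0 := by
  set M := 3 * (μ.real univ * μ.real univ) with hM
  have hX4 : ∀ k x, Sp P 4 (tr (X F k) x) ∧ ∫ ω, ‖tr (X F k) x ω‖ ^ 4 ∂P ≤ M := by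
    intro k x
    refine ⟨(hF.l4 k).vadd x, ?_⟩
    have e : (∫ ω, ‖tr (X F k) x ω‖ ^ 4 ∂P) = ∫ ω, ‖X F k ω‖ ^ 4 ∂P :=
      int_vadd x (fun ω => ‖X F k ω‖ ^ 4)
    rw [e]
    exact hF.four_le hμ k
  refine (hF.lad2 hB).zero (M := √(√M) * √(∫ ω, ‖B ω‖ ^ 2 ∂P)) (fun k x => ?_) h0 k x
  refine (((hX4 k x).1.two.1).inner hB).2.trans ?_
  refine mul_le_mul_of_nonneg_right ?_ (Real.sqrt_nonneg _)
  exact Real.sqrt_le_sqrt ((hX4 k x).1.two.2.trans (Real.sqrt_le_sqrt (hX4 k x).2))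

theorem Wave.three_point [NullSingletonClass μ] (hF : Wave P F) (hμ : Spec P F μ) (a b c : ℤ)
    (x1 x2 x3 : ℂ) :
    pm P (tr (X F a) x1) (fun ω => tr (X F b) x2 ω * tr (X F c) x3 ω) = 0 := by
  have s4 : ∀ k x, Sp P 4 (tr (X F k) x) := fun k x => (hF.l4 k).vadd x
  have sw : ∀ A B C : Ω → ℂ, pm P A (fun ω => B ω * C ω) = pm P B (fun ω => A ω * C ω) := by
    intro A B C
    simp only [pm]
    refine integral_congr_ae (ae_of_all _ fun ω => ?_)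
    simp only; ring
  have sw' : ∀ A B C : Ω → ℂ, pm P A (fun ω => B ω * C ω) = pm P A (fun ω => C ω * B ω) := by
    intro A B C
    simp only [mul_comm]
  have h0 : ∀ a b c, pm P (tr (X F a) 0) (fun ω => tr (X F b) 0 ω * tr (X F c) 0 ω) = 0 := by
    intro a b c
    simp only [tr_zero]
    have := hF.T3_zero hμ b c a
    rw [T3] at this
    rw [pm, ← this]
    refine integral_congr_ae (ae_of_all _ fun ω => ?_)
    simp only [Pr]; ring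
  have h1 : ∀ a b c x1, pm P (tr (X F a) x1) (fun ω => tr (X F b) 0 ω * tr (X F c) 0 ω) = 0 :=
    fun a b c x1 => hF.step3 hμ ((s4 _ _).mul2 (s4 _ _)).1 (fun k => h0 k b c) a x1
  have h2 : ∀ a b c x1 x2, pm P (tr (X F a) x1) (fun ω => tr (X F b) x2 ω * tr (X F c) 0 ω) = 0 := by
    intro a b c x1 x2
    rw [sw]
    refine hF.step3 hμ ((s4 _ _).mul2 (s4 _ _)).1 (fun k => ?_) b x2
    rw [sw]
    exact h1 _ _ _ _
  rw [sw', sw]
  refine hF.step3 hμ ((s4 _ _).mul2 (s4 _ _)).1 (fun k => ?_) c x3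
  rw [sw, sw']
  exact h2 _ _ _ _ _

/-- real form of the four point formula -/
theorem Wave.four_real [NullSingletonClass μ] (hF : Wave P F) (hμ : Spec P F μ)
    (x1 x2 x3 x4 : ℂ) :
    ∫ ω, F (x1 +ᵥ ω) * F (x2 +ᵥ ω) * F (x3 +ᵥ ω) * F (x4 +ᵥ ω) ∂P =
      (∫ ω, F (x1 +ᵥ ω) * F (x2 +ᵥ ω) ∂P) * (∫ ω, F (x3 +ᵥ ω) * F (x4 +ᵥ ω) ∂P) +
      (∫ ω, F (x1 +ᵥ ω) * F (x3 +ᵥ ω) ∂P) * (∫ ω, F (x2 +ᵥ ω) * F (x4 +ᵥ ω) ∂P) +
      (∫ ω, F (x1 +ᵥ ω) * F (x4 +ᵥ ω) ∂P) * (∫ ω, F (x2 +ᵥ ω) * F (x3 +ᵥ ω) ∂P) := by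
  have h := hF.four_point hμ 0 0 0 0 x1 x2 x3 x4
  have hp : ∀ x y : ℂ, pm P (tr (X F 0) x) (tr (X F 0) y) =
      ((∫ ω, F (x +ᵥ ω) * F (y +ᵥ ω) ∂P : ℝ) : ℂ) := by
    intro x y
    rw [← integral_complex_ofReal, pm]
    refine integral_congr_ae (ae_of_all _ fun ω => ?_)
    simp only [tr, X_zero]
    push_cast
    rfl
  have hP : Ph P (tr (X F 0) x1) (tr (X F 0) x2) (tr (X F 0) x3) (tr (X F 0) x4) =
      ((∫ ω, F (x1 +ᵥ ω) * F (x2 +ᵥ ω) * F (x3 +ᵥ ω) * F (x4 +ᵥ ω) ∂P : ℝ) : ℂ) := by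
    rw [← integral_complex_ofReal, Ph]
    refine integral_congr_ae (ae_of_all _ fun ω => ?_)
    simp only [tr, X_zero]
    push_cast
    ring
  rw [hP, Wg, hp, hp, hp, hp, hp, hp] at h
  exact_mod_cast h

theorem Wave.three_real [NullSingletonClass μ] (hF : Wave P F) (hμ : Spec P F μ)
    (x1 x2 x3 : ℂ) : ∫ ω, F (x1 +ᵥ ω) * F (x2 +ᵥ ω) * F (x3 +ᵥ ω) ∂P = 0 := by
  have h := hF.three_point hμ 0 0 0 x1 x2 x3
  have hP : pm P (tr (X F 0) x1) (fun ω => tr (X F 0) x2 ω * tr (X F 0) x3 ω) =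
      ((∫ ω, F (x1 +ᵥ ω) * F (x2 +ᵥ ω) * F (x3 +ᵥ ω) ∂P : ℝ) : ℂ) := by
    rw [← integral_complex_ofReal, pm]
    refine integral_congr_ae (ae_of_all _ fun ω => ?_)
    simp only [tr, X_zero]
    push_cast
    ring
  rw [hP] at h
  exact_mod_cast h

end erg

end

end Pool.Agent.H486.RF
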