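import Pool.Agent.H486.RF.Four

/-!
# Ladders, spectral measures and Wiener's lemma
-/

set_option autoImplicit false

open MeasureTheory Complex Filter Topology Set Metric
open scoped ComplexConjugate ENNReal InnerProductSpace

namespace Pool.Agent.H486.RF

noncomputable section

/-- families of functions closed under the two derivatives -/
def Lad (u : ℤ → ℂ → ℂ) : Prop := ∀ k, ∃ C : ℝ, ∀ x h : ℂ, ‖h‖ ≤ 1 →
  ‖u k (x + h) - u k x - (h / 2 * u (k + 1) x - conj h / 2 * u (k - 1) x)‖ ≤ C * ‖h‖ ^ 2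

theorem Lad.step {u v : ℤ → ℂ → ℂ} (hu : Lad u) (hv : Lad v) {k : ℤ} (h : ∀ x, u k x = v k x) :
    (∀ x, u (k + 1) x = v (k + 1) x) ∧ ∀ x, u (k - 1) x = v (k - 1) x := by
  obtain ⟨C1, h1⟩ := hu k
  obtain ⟨C2, h2⟩ := hv k
  have key : ∀ x, u (k + 1) x - v (k + 1) x = 0 ∧ u (k - 1) x - v (k - 1) x = 0 := by
    intro x
    refine lin_zero (C := C1 + C2) fun y hy => ?_
    have t1 := h1 x y hy
    have t2 := h2 x y hy
    rw [h, h] at t1
    have e : y / 2 * (u (k + 1) x - v (k + 1) x) - conj y / 2 * (u (k - 1) x - v (k - 1) x) =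
        (v k (x + y) - v k x - (y / 2 * v (k + 1) x - conj y / 2 * v (k - 1) x)) -
        (v k (x + y) - v k x - (y / 2 * u (k + 1) x - conj y / 2 * u (k - 1) x)) := by ring
    rw [e]
    refine (norm_sub_le _ _).trans ?_
    linarith
  exact ⟨fun x => sub_eq_zero.1 (key x).1, fun x => sub_eq_zero.1 (key x).2⟩

theorem Lad.uniq {u v : ℤ → ℂ → ℂ} (hu : Lad u) (hv : Lad v) (h : ∀ x, u 0 x = v 0 x) (k : ℤ) :
    ∀ x, u k x = v k x := by
  induction k using Int.induction_on with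
  | zero => exact h
  | succ n ih => exact (hu.step hv ih).1
  | pred n ih => exact (hu.step hv ih).2

theorem Lad.deriv {u : ℤ → ℂ → ℂ} (hu : Lad u) (k : ℤ) (x y : ℂ) (t : ℝ) :
    HasDerivAt (fun t : ℝ => u k (x + t * y))
      (y / 2 * u (k + 1) (x + t * y) - conj y / 2 * u (k - 1) (x + t * y)) t := by
  obtain ⟨C, hC⟩ := hu k
  set D := y / 2 * u (k + 1) (x + t * y) - conj y / 2 * u (k - 1) (x + t * y) with hD
  rw [hasDerivAt_iff_isLittleO_nhds_zero, Asymptotics.isLittleO_iff]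
  intro c hc
  have hpos : 0 < min (1 / (‖y‖ + 1)) (c / ((|C| + 1) * (‖y‖ ^ 2 + 1))) := by positivity
  filter_upwards [Metric.ball_mem_nhds (0 : ℝ) hpos] with s hs
  rw [mem_ball_zero_iff, Real.norm_eq_abs] at hs
  have hs1 : |s| ≤ 1 / (‖y‖ + 1) := hs.le.trans (min_le_left _ _)
  have hs2 : |s| ≤ c / ((|C| + 1) * (‖y‖ ^ 2 + 1)) := hs.le.trans (min_le_right _ _)
  rw [le_div_iff₀ (by positivity)] at hs1 hs2
  have hn : ‖(s : ℂ) * y‖ = |s| * ‖y‖ := by rw [norm_mul, norm_real, Real.norm_eq_abs]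
  have hy := norm_nonneg y
  have hs0 := abs_nonneg s
  have h1 := hC (x + t * y) ((s : ℂ) * y) (by rw [hn]; nlinarith)
  rw [hn] at h1
  have e : u k (x + ((t + s : ℝ) : ℂ) * y) - u k (x + t * y) - s • D =
      u k (x + t * y + s * y) - u k (x + t * y) -
      ((s : ℂ) * y / 2 * u (k + 1) (x + t * y) -
        conj ((s : ℂ) * y) / 2 * u (k - 1) (x + t * y)) := by
    rw [map_mul, conj_ofReal, hD, Complex.real_smul]
    have : x + ((t + s : ℝ) : ℂ) * y = x + t * y + s * y := by push_cast; ring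
    rw [this]
    ring
  rw [e, Real.norm_eq_abs]
  refine h1.trans ?_
  have h3 := le_abs_self C
  have h4 : C * (|s| * ‖y‖) ^ 2 ≤ (|C| + 1) * (|s| * ‖y‖) ^ 2 :=
    mul_le_mul_of_nonneg_right (by linarith) (sq_nonneg _)
  have h5 : (|C| + 1) * (|s| * ‖y‖) ^ 2 ≤ |s| * (|s| * ((|C| + 1) * (‖y‖ ^ 2 + 1))) := by
    have : 0 ≤ |s| * |s| * (|C| + 1) := by positivity
    nlinarith
  have h6 := mul_le_mul_of_nonneg_left hs2 hs0
  linarith

/-- bounded ladders vanishing at one point vanish -/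
theorem Lad.zero {u : ℤ → ℂ → ℂ} (hu : Lad u) {M : ℝ} (hM : ∀ k x, ‖u k x‖ ≤ M)
    (h0 : ∀ k, u k 0 = 0) (k : ℤ) (x : ℂ) : u k x = 0 := by
  have hM0 : 0 ≤ M := (norm_nonneg _).trans (hM 0 0)
  have key : ∀ n : ℕ, ∀ k x, ‖u k x‖ ≤ M * (‖x‖ ^ n / n.factorial) := by
    intro n
    induction n with
    | zero => intro k x; simpa using hM k x
    | succ n ih =>
      intro k x
      have hn : ((n + 1).factorial : ℝ) = (n + 1) * n.factorial := by
        rw [Nat.factorial_succ]; push_cast; ring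
      have hf : (0 : ℝ) < n.factorial := by positivity
      have main := image_norm_le_of_norm_deriv_right_le_deriv_boundary' (a := 0) (b := 1)
        (f := fun t : ℝ => u k (0 + t * x))
        (f' := fun t : ℝ => x / 2 * u (k + 1) (0 + t * x) - conj x / 2 * u (k - 1) (0 + t * x))
        (B := fun t => M * (‖x‖ ^ (n + 1) * t ^ (n + 1) / (n + 1).factorial))
        (B' := fun t => M * (‖x‖ ^ (n + 1) * ((n + 1 : ℕ) * t ^ n) / (n + 1).factorial))
        (fun t _ => (hu.deriv k 0 x t).continuousAt.continuousWithinAt)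
        (fun t _ => (hu.deriv k 0 x t).hasDerivWithinAt)
        (by simp [h0])
        (fun t _ => ((((hasDerivAt_pow (n + 1) t).const_mul _).div_const _).const_mul
          M).continuousAt.continuousWithinAt)
        (fun t _ => ((((hasDerivAt_pow (n + 1) t).const_mul _).div_const _).const_mul
          M).hasDerivWithinAt) ?_ (right_mem_Icc.2 zero_le_one)
      · simpa using main
      · intro t ht
        have ht0 : 0 ≤ t := ht.1
        have hx : ‖(0 : ℂ) + t * x‖ = t * ‖x‖ := by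
          rw [zero_add, norm_mul, norm_real, Real.norm_of_nonneg ht0]
        refine (norm_sub_le _ _).trans ?_
        rw [norm_mul, norm_mul, half_norm]
        have h2 : ‖conj x / 2‖ = ‖x‖ / 2 := by rw [norm_div, RCLike.norm_conj]; norm_num
        rw [h2]
        have a1 := ih (k + 1) (0 + t * x)
        have a2 := ih (k - 1) (0 + t * x)
        rw [hx] at a1 a2
        have hx2 : 0 ≤ ‖x‖ / 2 := by positivity
        have b1 := mul_le_mul_of_nonneg_left a1 hx2
        have b2 := mul_le_mul_of_nonneg_left a2 hx2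
        have e : M * (‖x‖ ^ (n + 1) * ((n + 1 : ℕ) * t ^ n) / (n + 1).factorial) =
            ‖x‖ * (M * ((t * ‖x‖) ^ n / n.factorial)) := by
          rw [hn]
          push_cast
          field_simp
          ring
        rw [e]
        linarith
  have hlim : Tendsto (fun n : ℕ => M * (‖x‖ ^ n / n.factorial)) atTop (𝓝 0) := by
    have := (FloorSemiring.tendsto_pow_div_factorial_atTop ‖x‖).const_mul M
    simpa using this
  have := ge_of_tendsto' hlim (fun n => key n k x)
  exact norm_le_zero_iff.1 this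

/-- plane waves -/
def wv (k : ℤ) (x u : ℂ) : ℂ := (I * conj u) ^ k * Complex.exp (I * ((x * conj u).re : ℂ))

theorem nrm_z {u : ℂ} (hu : ‖u‖ = 1) : ‖I * conj u‖ = 1 := by
  rw [norm_mul, norm_I, one_mul, RCLike.norm_conj, hu]

theorem nrm_wv {u : ℂ} (hu : ‖u‖ = 1) (k : ℤ) (x : ℂ) : ‖wv k x u‖ = 1 := by
  rw [wv, norm_mul, norm_zpow, nrm_z hu, one_zpow, one_mul, mul_comm I]
  exact Complex.norm_exp_ofReal_mul_I _

theorem wv_lad {u : ℂ} (hu : ‖u‖ = 1) (k : ℤ) (x h : ℂ) (hh : ‖h‖ ≤ 1) :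
    ‖wv k (x + h) u - wv k x u - (h / 2 * wv (k + 1) x u - conj h / 2 * wv (k - 1) x u)‖ ≤
      ‖h‖ ^ 2 := by
  have hz := nrm_z hu
  have hz0 : I * conj u ≠ 0 := by
    intro h0
    rw [h0, norm_zero] at hz
    exact zero_ne_one hz
  have hu2 : u * conj u = 1 := by
    rw [Complex.mul_conj, Complex.normSq_eq_norm_sq, hu]; norm_num
  have hzi : (I * conj u)⁻¹ = -I * u := by
    rw [inv_eq_iff_eq_inv, eq_comm]
    refine inv_eq_of_mul_eq_one_left ?_
    linear_combination (-I ^ 2) * hu2 - I_sq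
  have hre : ((h * conj u).re : ℂ) = (h * conj u + conj h * u) / 2 := by
    rw [Complex.re_eq_add_conj, map_mul, Complex.conj_conj]
  have e : wv k (x + h) u - wv k x u - (h / 2 * wv (k + 1) x u - conj h / 2 * wv (k - 1) x u) =
      wv k x u * (Complex.exp (I * ((h * conj u).re : ℂ)) - 1 - I * ((h * conj u).re : ℂ)) := by
    have e1 : Complex.exp (I * (((x + h) * conj u).re : ℂ)) =
        Complex.exp (I * ((x * conj u).re : ℂ)) * Complex.exp (I * ((h * conj u).re : ℂ)) := by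
      rw [← Complex.exp_add, ← mul_add]
      congr 2
      rw [add_mul, Complex.add_re]
      push_cast
      ring
    simp only [wv]
    rw [e1, zpow_add_one₀ hz0, zpow_sub_one₀ hz0, hzi, hre]
    ring
  rw [e, norm_mul, nrm_wv hu, one_mul]
  have hle : |(h * conj u).re| ≤ ‖h‖ := by
    refine (Complex.abs_re_le_norm _).trans ?_
    rw [norm_mul, RCLike.norm_conj, hu, mul_one]
  have hn : ‖I * ((h * conj u).re : ℂ)‖ = |(h * conj u).re| := by
    rw [norm_mul, norm_I, one_mul, norm_real, Real.norm_eq_abs]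
  have h1 := Complex.norm_exp_sub_one_sub_id_le (x := I * ((h * conj u).re : ℂ))
    (by rw [hn]; exact hle.trans hh)
  rw [hn] at h1
  exact h1.trans (pow_le_pow_left₀ (abs_nonneg _) hle 2)

/-- direction -/
def cis (θ : ℝ) : ℂ := Complex.exp (θ * I)

theorem nrm_cis (θ : ℝ) : ‖cis θ‖ = 1 := Complex.norm_exp_ofReal_mul_I θ

theorem cont_cis : Continuous cis := by
  unfold cis
  fun_prop

variable (μ : Measure ℝ) [IsFiniteMeasure μ]

theorem cont_wv (k : ℤ) (x : ℂ) (s : ℂ) (hs : ‖s‖ = 1) :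
    Continuous fun θ : ℝ => wv k x (s * cis θ) := by
  have h1 : Continuous fun θ : ℝ => (s * cis θ) := continuous_const.mul cont_cis
  have h2 : Continuous fun θ : ℝ => I * conj (s * cis θ) :=
    continuous_const.mul (Complex.continuous_conj.comp h1)
  have h3 : ∀ θ : ℝ, I * conj (s * cis θ) ≠ 0 := by
    intro u h0
    have := nrm_z (u := s * cis u) (by rw [norm_mul, hs, nrm_cis, one_mul])
    rw [h0, norm_zero] at this
    exact zero_ne_one this
  have h4 : Continuous fun θ : ℝ => (I * conj (s * cis θ)) ^ k :=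
    h2.zpow₀ k (fun u => Or.inl (h3 u))
  have h5 : Continuous fun θ : ℝ => Complex.exp (I * ((x * conj (s * cis θ)).re : ℂ)) := by
    refine Complex.continuous_exp.comp (continuous_const.mul ?_)
    exact Complex.continuous_ofReal.comp (Complex.continuous_re.comp
      (continuous_const.mul (Complex.continuous_conj.comp h1)))
  exact h4.mul h5

theorem int_wv (k : ℤ) (x : ℂ) (s : ℂ) (hs : ‖s‖ = 1) :
    Integrable (fun θ : ℝ => wv k x (s * cis θ)) μ := by
  refine Integrable.of_bound (cont_wv k x s hs).aestronglyMeasurable 1 (ae_of_all _ fun u => ?_)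
  rw [nrm_wv (by rw [norm_mul, hs, nrm_cis, one_mul])]

/-- ladder of the spectral measure -/
def Q (k : ℤ) (x : ℂ) : ℂ := ∫ θ : ℝ, (wv k x (1 * cis θ) + wv k x (-1 * cis θ)) / 2 ∂μ

theorem Q_lad : Lad (Q μ) := by
  intro k
  refine ⟨μ.real univ, fun x h hh => ?_⟩
  have i : ∀ k x, Integrable (fun θ : ℝ => (wv k x (1 * cis θ) + wv k x (-1 * cis θ)) / 2) μ :=
    fun k x => ((int_wv μ k x 1 (by simp)).add (int_wv μ k x (-1) (by simp))).div_const 2
  have e : Q μ k (x + h) - Q μ k x - (h / 2 * Q μ (k + 1) x - conj h / 2 * Q μ (k - 1) x) =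
      ∫ θ : ℝ, ((wv k (x + h) (1 * cis θ) - wv k x (1 * cis θ) -
        (h / 2 * wv (k + 1) x (1 * cis θ) - conj h / 2 * wv (k - 1) x (1 * cis θ))) +
        (wv k (x + h) (-1 * cis θ) - wv k x (-1 * cis θ) -
        (h / 2 * wv (k + 1) x (-1 * cis θ) - conj h / 2 * wv (k - 1) x (-1 * cis θ)))) / 2 ∂μ := by
    have j1 : Integrable (fun θ : ℝ => (wv k (x + h) (1 * cis θ) + wv k (x + h) (-1 * cis θ)) / 2 -
        (wv k x (1 * cis θ) + wv k x (-1 * cis θ)) / 2) μ := (i k (x + h)).sub (i k x)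
    have j2 : Integrable (fun θ : ℝ =>
        (h / 2 : ℂ) * ((wv (k + 1) x (1 * cis θ) + wv (k + 1) x (-1 * cis θ)) / 2) -
        (conj h / 2 : ℂ) * ((wv (k - 1) x (1 * cis θ) + wv (k - 1) x (-1 * cis θ)) / 2)) μ :=
      ((i (k + 1) x).const_mul _).sub ((i (k - 1) x).const_mul _)
    simp only [Q]
    rw [← integral_const_mul, ← integral_const_mul,
      ← integral_sub ((i (k + 1) x).const_mul _) ((i (k - 1) x).const_mul _),
      ← integral_sub (i k (x + h)) (i k x), ← integral_sub j1 j2]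
    refine integral_congr_ae (ae_of_all _ fun u => ?_)
    simp only
    ring
  rw [e]
  have hb : ∀ θ : ℝ, ‖((wv k (x + h) (1 * cis θ) - wv k x (1 * cis θ) -
        (h / 2 * wv (k + 1) x (1 * cis θ) - conj h / 2 * wv (k - 1) x (1 * cis θ))) +
        (wv k (x + h) (-1 * cis θ) - wv k x (-1 * cis θ) -
        (h / 2 * wv (k + 1) x (-1 * cis θ) - conj h / 2 * wv (k - 1) x (-1 * cis θ)))) / 2‖ ≤
        ‖h‖ ^ 2 := by
    intro θ
    have h1 := wv_lad (u := 1 * cis θ) (by rw [one_mul]; exact nrm_cis θ) k x h hh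
    have h2 := wv_lad (u := -1 * cis θ) (by rw [norm_mul, nrm_cis]; simp) k x h hh
    rw [norm_div]
    have h3 : ‖(2 : ℂ)‖ = 2 := by norm_num
    rw [h3, div_le_iff₀ two_pos]
    refine (norm_add_le _ _).trans ?_
    linarith
  refine (norm_integral_le_of_norm_le_const (ae_of_all _ hb)).trans (le_of_eq ?_)
  rw [mul_comm]

/-- Fourier coefficients of the spectral measure -/
def pc (n : ℤ) : ℂ := ∫ θ : ℝ, (I * conj (cis θ)) ^ n ∂μ

theorem Q_norm (n : ℤ) : ‖Q μ n 0‖ ≤ ‖pc μ n‖ := by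
  have e : ∀ θ : ℝ, (wv n 0 (1 * cis θ) + wv n 0 (-1 * cis θ)) / 2 =
      ((1 + (-1) ^ n) / 2) * (I * conj (cis θ)) ^ n := by
    intro u
    simp only [wv, zero_mul, Complex.zero_re, Complex.ofReal_zero, mul_zero, Complex.exp_zero,
      mul_one, one_mul]
    have : I * conj (-1 * cis u) = (-1) * (I * conj (cis u)) := by
      rw [map_mul, map_neg, map_one]; ring
    rw [this, mul_zpow (-1 : ℂ)]
    ring
  rw [Q]
  simp only [e]
  rw [integral_const_mul, norm_mul, pc]
  have h1 : ‖(1 + (-1 : ℂ) ^ n) / 2‖ ≤ 1 := by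
    rw [norm_div]
    have h2 : ‖(-1 : ℂ) ^ n‖ = 1 := by rw [norm_zpow, norm_neg, norm_one, one_zpow]
    have h3 := norm_add_le (1 : ℂ) ((-1 : ℂ) ^ n)
    rw [norm_one, h2] at h3
    have h4 : ‖(2 : ℂ)‖ = 2 := by norm_num
    rw [h4, div_le_one two_pos]
    linarith
  exact mul_le_of_le_one_left (norm_nonneg _) h1

/-- averages of powers -/
def hJ (r : ℤ) (J : ℕ) (y : ℂ) : ℝ := ‖((J : ℂ))⁻¹ * ∑ q ∈ Finset.range J, (y ^ r) ^ q‖

theorem hJ_le {y : ℂ} (hy : ‖y‖ = 1) (r : ℤ) (J : ℕ) : hJ r J y ≤ 1 := by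
  rw [hJ, norm_mul, norm_inv, Complex.norm_natCast]
  rcases Nat.eq_zero_or_pos J with h | h
  · subst h; simp
  · have hJ : (0 : ℝ) < J := by exact_mod_cast h
    rw [inv_mul_le_iff₀ hJ, mul_one]
    refine (norm_sum_le _ _).trans ?_
    simp [hy]

theorem hJ_lim {y : ℂ} (hy : ‖y‖ = 1) (r : ℤ) (h1 : y ^ r ≠ 1) :
    Tendsto (fun J => hJ r J y) atTop (𝓝 0) := by
  have hn : ‖y ^ r‖ = 1 := by rw [norm_zpow, hy, one_zpow]
  have hb : ∀ J : ℕ, hJ r J y ≤ (2 / ‖y ^ r - 1‖) * (J : ℝ)⁻¹ := by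
    intro J
    rw [hJ, geom_sum_eq h1, norm_mul, norm_inv, Complex.norm_natCast, norm_div, mul_comm]
    have h2 : ‖(y ^ r) ^ J - 1‖ ≤ 2 := by
      refine (norm_sub_le _ _).trans ?_
      rw [norm_pow, hn, one_pow, norm_one]
      norm_num
    have h3 : 0 < ‖y ^ r - 1‖ := norm_pos_iff.2 (sub_ne_zero.2 h1)
    gcongr
  refine squeeze_zero (fun J => norm_nonneg _) hb ?_
  have := (tendsto_inv_atTop_nhds_zero_nat (𝕜 := ℝ)).const_mul (2 / ‖y ^ r - 1‖)
  simpa using this

theorem zz (θ η : ℝ) : (I * conj (cis θ)) * conj (I * conj (cis η)) =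
    Complex.exp (((η - θ : ℝ) : ℂ) * I) := by
  have h1 : conj (cis θ) = Complex.exp (-(θ * I)) := by
    rw [cis, ← Complex.exp_conj, map_mul, conj_ofReal, conj_I, mul_neg]
  rw [map_mul, Complex.conj_conj, conj_I, h1, cis]
  have h2 : I * Complex.exp (-(θ * I)) * (-I * Complex.exp (η * I)) =
      (-(I * I)) * (Complex.exp (-(θ * I)) * Complex.exp (η * I)) := by ring
  rw [h2, I_mul_I, neg_neg, one_mul, ← Complex.exp_add]
  congr 1
  push_cast
  ring

/-- Wiener's lemma along arithmetic progressions, uniformly in the offset -/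
theorem wiener [NullSingletonClass μ] (r : ℤ) (hr : r ≠ 0) : ∃ ε : ℕ → ℝ, Tendsto ε atTop (𝓝 0) ∧
    ∀ (s : ℤ) (J : ℕ), ∑ q ∈ Finset.range J, ‖pc μ (s + r * q)‖ ^ 2 ≤ J * ε J := by
  set Yy : ℝ × ℝ → ℂ := fun p => Complex.exp (((p.2 - p.1 : ℝ) : ℂ) * I) with hYy
  have hYc : Continuous Yy := by rw [hYy]; fun_prop
  have hYn : ∀ p, ‖Yy p‖ = 1 := fun p => Complex.norm_exp_ofReal_mul_I _
  have hY0 : ∀ p, Yy p ≠ 0 := fun p => Complex.exp_ne_zero _
  have hhc : ∀ J, Continuous fun p => hJ r J (Yy p) := by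
    intro J
    unfold hJ
    refine (continuous_const.mul (continuous_finset_sum _ fun q _ => ?_)).norm
    exact (hYc.zpow₀ r fun p => Or.inl (hY0 p)).pow q
  refine ⟨fun J => ∫ p, hJ r J (Yy p) ∂(μ.prod μ), ?_, ?_⟩
  · have h0 : (0 : ℝ) = ∫ p, (0 : ℝ) ∂(μ.prod μ) := by simp
    rw [h0]
    refine tendsto_integral_of_dominated_convergence (fun _ => 1)
      (fun J => (hhc J).aestronglyMeasurable) (integrable_const _) (fun J => ae_of_all _ fun p => ?_) ?_
    · rw [Real.norm_of_nonneg (show 0 ≤ hJ r J (Yy p) from norm_nonneg _)]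
      exact hJ_le (hYn p) r J
    · have hnull : ∀ᵐ p ∂(μ.prod μ), Yy p ^ r ≠ 1 := by
        rw [ae_iff]
        have hms : MeasurableSet {p : ℝ × ℝ | ¬ Yy p ^ r ≠ 1} := by
          have : {p : ℝ × ℝ | ¬ Yy p ^ r ≠ 1} = (fun p => Yy p ^ r) ⁻¹' {1} := by
            ext p; simp
          rw [this]
          exact (hYc.zpow₀ r fun p => Or.inl (hY0 p)).measurable (measurableSet_singleton _)
        rw [Measure.measure_prod_null hms]
        refine ae_of_all _ fun θ => ?_
        refine Set.Countable.measure_zero ?_ μ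
        refine (countable_range (fun k : ℤ => θ + 2 * Real.pi * k / r)).mono ?_
        intro η hη
        have hη' : Yy (θ, η) ^ r = 1 := by simpa using hη
        simp only [hYy] at hη'
        rw [← Complex.exp_int_mul, Complex.exp_eq_one_iff] at hη'
        obtain ⟨n, hn⟩ := hη'
        refine ⟨n, ?_⟩
        have h2 : ((r : ℂ) * ((η - θ : ℝ) : ℂ)) * I = ((n : ℂ) * (2 * Real.pi)) * I := by
          rw [mul_assoc, hn]; ring
        have h3 := mul_right_cancel₀ I_ne_zero h2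
        have h4 : (r : ℝ) * (η - θ) = n * (2 * Real.pi) := by exact_mod_cast h3
        have hr' : (r : ℝ) ≠ 0 := Int.cast_ne_zero.2 hr
        simp only
        field_simp
        linarith
      filter_upwards [hnull] with p hp
      exact hJ_lim (hYn p) r hp
  · intro s J
    rcases Nat.eq_zero_or_pos J with h | h
    · subst h; simp
    have hJ0 : (0 : ℝ) < J := by exact_mod_cast h
    have hz : Continuous fun θ : ℝ => I * conj (cis θ) :=
      continuous_const.mul (Complex.continuous_conj.comp cont_cis)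
    have hz1 : ∀ θ, ‖I * conj (cis θ)‖ = 1 := fun θ => nrm_z (nrm_cis θ)
    have hz0 : ∀ θ, I * conj (cis θ) ≠ 0 := by
      intro θ h0
      have := hz1 θ
      rw [h0, norm_zero] at this
      exact zero_ne_one this
    have e1 : ∀ n : ℤ, ((‖pc μ n‖ ^ 2 : ℝ) : ℂ) = ∫ p, Yy p ^ n ∂(μ.prod μ) := by
      intro n
      have h1 : ((‖pc μ n‖ ^ 2 : ℝ) : ℂ) = pc μ n * conj (pc μ n) := by
        rw [Complex.mul_conj, Complex.normSq_eq_norm_sq]
      rw [h1, pc, ← integral_conj, ← integral_prod_mul]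
      refine integral_congr_ae (ae_of_all _ fun p => ?_)
      simp only [hYy]
      rw [← zz, map_zpow₀, ← mul_zpow]
    have hint : ∀ n : ℤ, Integrable (fun p => Yy p ^ n) (μ.prod μ) := by
      intro n
      refine Integrable.of_bound (hYc.zpow₀ n fun p => Or.inl (hY0 p)).aestronglyMeasurable 1
        (ae_of_all _ fun p => ?_)
      rw [norm_zpow, hYn, one_zpow]
    have e2 : ((∑ q ∈ Finset.range J, ‖pc μ (s + r * q)‖ ^ 2 : ℝ) : ℂ) =
        ∫ p, Yy p ^ s * ∑ q ∈ Finset.range J, (Yy p ^ r) ^ q ∂(μ.prod μ) := by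
      rw [Complex.ofReal_sum]
      simp only [e1]
      rw [← integral_finsetSum _ (fun q _ => hint _)]
      refine integral_congr_ae (ae_of_all _ fun p => ?_)
      simp only
      rw [Finset.mul_sum]
      refine Finset.sum_congr rfl fun q _ => ?_
      rw [zpow_add₀ (hY0 p), zpow_mul, zpow_natCast]
    have h3 : ‖((∑ q ∈ Finset.range J, ‖pc μ (s + r * q)‖ ^ 2 : ℝ) : ℂ)‖ =
        ∑ q ∈ Finset.range J, ‖pc μ (s + r * q)‖ ^ 2 := by
      rw [norm_real, Real.norm_of_nonneg (Finset.sum_nonneg fun _ _ => by positivity)]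
    rw [← h3, e2, ← integral_const_mul]
    refine (norm_integral_le_integral_norm _).trans ?_
    refine le_of_eq (integral_congr_ae (ae_of_all _ fun p => ?_))
    simp only [hJ]
    rw [norm_mul, norm_mul, norm_zpow, hYn, one_zpow, one_mul, norm_inv, Complex.norm_natCast,
      ← mul_assoc, mul_inv_cancel₀ hJ0.ne', one_mul]

end

end Pool.Agent.H486.RF
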